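import Pool.Agent.V8H73.SE.Jd

/-!
# Some of the equations: field of definition, generic exponential points
-/

set_option autoImplicit false
set_option linter.unusedSectionVars false

open MvPolynomial MeasureTheory Filter Topology

namespace Pool.Agent.V8H73.SE

open Pool.Agent.V8H73.AN (Ex Four Ph ez mo JJ Pj ιX ev_map Pj_map der_ev null_rel)

variable {n : ℕ} {S : Finset (Fin n × Ex n)}

variable {K : Subfield ℂ} {c : S → ℂ} {J : Finset (Fin n)}

/-- the field of definition -/
theorem defJ [Countable K] : (IJ c J).radical = Ideal.span {f : MvPolynomial (Fin n ⊕ Fin n) ℂ |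
    f ∈ (IJ c J).radical ∧ ∀ mo, f.coeff mo ∈ Subfield.closure ((K : Set ℂ) ∪ {x | ∃ s : S, s.1.1 ∈ J ∧ c s = x})} := by
  have hcnt : Countable (Subfield.closure ((K : Set ℂ) ∪ {x | ∃ s : S, s.1.1 ∈ J ∧ c s = x})) := by
    refine cl_countable ((Set.finite_range c).countable.mono ?_)
    rintro x ⟨s, -, rfl⟩
    exact ⟨s, rfl⟩
  refine descent fun σ hσ f hf => ?_
  obtain ⟨k, hk⟩ := hf
  refine ⟨k, ?_⟩
  rw [← map_pow]
  have h1 : Ideal.map (MvPolynomial.map (σ : ℂ →+* ℂ)) (IJ c J) ≤ IJ c J := by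
    unfold IJ
    rw [Ideal.map_span, Ideal.span_le]
    rintro _ ⟨_, ⟨j, hj, rfl⟩, rfl⟩
    rw [Pj_map]
    have h2 : Pj (fun q => (σ : ℂ →+* ℂ) (c q)) j = Pj c j := by
      refine Pj_congr fun s hs => ?_
      refine hσ _ (Subfield.subset_closure (Or.inr ⟨s, ?_, rfl⟩))
      rw [hs]
      exact hj
    rw [h2]
    exact Ideal.subset_span ⟨j, hj, rfl⟩
  exact h1 (Ideal.mem_map_of_mem _ hk)

/-- the elements of a field of definition -/
theorem z_ind {E A : Subfield ℂ} {c' : S → ℂ} {m m' : ℕ} {t : Fin m → ℂ} {T : Fin m' → ℂ}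
    (hE : ∀ x ∈ E, IsAlgebraic (IntermediateField.adjoin K (Set.range c ∪ Set.range t)) x)
    (hcT : Set.range c ∪ Set.range t ⊆ Set.range T)
    (hA : A = Subfield.closure ((E : Set ℂ) ∪ ((K : Set ℂ) ∪ Set.range T))) {z : Fin n → ℂ}
    (hz : AlgebraicIndependent (IntermediateField.adjoin K (Set.range c' ∪ Set.range T)) z) :
    AlgebraicIndependent (Subfield.closure ((A : Set ℂ) ∪ Set.range c')) z := by
  refine Pool.Agent.H135R2.VS.algInd_of_der fun v => ?_
  obtain ⟨D, hD⟩ := Pool.Agent.H135R2.VS.exists_der hz v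
  have hDs : ∀ x ∈ Set.range c' ∪ Set.range T, D x = 0 := fun x hx =>
    Derivation.map_algebraMap D (⟨x, IntermediateField.subset_adjoin _ _ hx⟩ :
      IntermediateField.adjoin K (Set.range c' ∪ Set.range T))
  have hDK : ∀ x ∈ K, D x = 0 := fun x hx =>
    Derivation.map_algebraMap D (algebraMap K (IntermediateField.adjoin K (Set.range c' ∪ Set.range T)) ⟨x, hx⟩)
  let D0 : Derivation K ℂ ℂ := ofD K (D.restrictScalars ℤ) fun x hx => hDK x hx
  have h0 : ∀ x ∈ Set.range c ∪ Set.range t, D0 x = 0 := fun x hx => hDs x (Or.inr (hcT hx))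
  have hDE : ∀ x ∈ E, D x = 0 := fun x hx => der_alg (derA _ D0 h0) (hE x hx)
  have hle : Subfield.closure ((A : Set ℂ) ∪ Set.range c') ≤ kf (D.restrictScalars ℤ) := by
    refine Subfield.closure_le.2 ?_
    rintro x (hx | hx)
    · have h1 : A ≤ kf (D.restrictScalars ℤ) := by
        rw [hA]
        refine Subfield.closure_le.2 ?_
        rintro y (hy | hy | hy)
        · exact hDE y hy
        · exact hDK y hy
        · exact hDs y (Or.inr hy)
      exact h1 hx
    · exact hDs x (Or.inl hx)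
  exact ⟨ofD _ _ hle, hD⟩

/-- **The transcendence degree of an exponential point.** -/
theorem trdeg_z (hS : Four S) {A : Subfield ℂ} {c' : S → ℂ}
    (hAJ : AlgebraicIndependent K (fun s : {s : S // s.1.1 ∈ J} => c s)) (hg : Gc K A c J c')
    (hcA : ∀ s : S, s.1.1 ∈ J → c s ∈ A) {E : Subfield ℂ} (hEA : E ≤ A)
    (hdef : (IJ c J).radical = Ideal.span {f : MvPolynomial (Fin n ⊕ Fin n) ℂ | f ∈ (IJ c J).radical ∧
      ∀ mo, f.coeff mo ∈ E}) {z : Fin n → ℂ} (hz : val c' z = 0)
    (hI : AlgebraicIndependent (Subfield.closure ((A : Set ℂ) ∪ Set.range c')) z) :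
    Algebra.trdeg E (IntermediateField.adjoin E (Set.range z ∪ Set.range fun l => Complex.exp (z l))) =
      (n + n - J.card : ℕ) := by
  classical
  have hPv' : ∀ j, Pv c' (ep z) j = 0 := fun j => by rw [Pv_ep, hz]; rfl
  have hPjJ : ∀ j ∈ J, Pj c' j = Pj c j := fun j hj => Pj_congr fun s hs => hg.eq s (by rw [hs]; exact hj)
  have hq : ∀ j ∈ J, Pv c (ep z) j = 0 := by
    intro j hj
    unfold Pv
    rw [← hPjJ j hj]
    exact hPv' j
  obtain ⟨R, hRi, hR, -⟩ := exists_R hS hAJ hq
  have hcard := card_compl hRi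
  have hcard' : Fintype.card {o // ∀ i, R i ≠ o} = n + n - J.card := by omega
  have hep : ∀ o, ep z o ∈ Set.range z ∪ Set.range fun l => Complex.exp (z l) := by
    rintro (l | l)
    · exact Or.inl ⟨l, rfl⟩
    · exact Or.inr ⟨l, rfl⟩
  refine le_antisymm ?_ ?_
  · let e : Fin (n + n - J.card) ≃ {o // ∀ i, R i ≠ o} := (Fintype.equivFinOfCardEq hcard').symm
    let LZ : Derivation E ℂ ℂ →ₗ[ℂ] (Fin (n + n - J.card) → ℂ) :=
      { toFun := fun δ i => δ (ep z (e i))
        map_add' := fun _ _ => rfl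
        map_smul' := fun _ _ => rfl }
    refine trdeg_le_of_kill LZ _ fun δ hδ x hx => ?_
    have h1 : (fun o => δ (ep z o)) = 0 := by
      refine mn_zero hRi hR (fun j hj => ?_) fun o ho => ?_
      · exact tang hdef (zeros_J' hq) δ (Ideal.le_radical (Ideal.subset_span ⟨j, hj, rfl⟩))
      · have h5 := congrFun hδ (e.symm ⟨o, ho⟩)
        change δ (ep z (e (e.symm ⟨o, ho⟩) : {o // ∀ i, R i ≠ o})) = 0 at h5
        rwa [Equiv.apply_symm_apply] at h5
    refine der_adjoin _ δ ?_ ⟨x, hx⟩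
    rintro y (⟨l, rfl⟩ | ⟨l, rfl⟩)
    · exact congrFun h1 (Sum.inl l)
    · exact congrFun h1 (Sum.inr l)
  · have hW := ai_tower' hg.ind (fun x hx => Subfield.subset_closure (Or.inl hx))
      (fun s => Subfield.subset_closure (Or.inr ⟨_, rfl⟩)) hI
    have hinj : Function.Injective (fun j : {j : Fin n // j ∉ J} =>
        (⟨⟨((j : Fin n), 0), hS.h0 j⟩, j.2⟩ : {s : S // s.1.1 ∉ J})) := fun i j hij =>
      Subtype.ext (congrArg (fun u : {s : S // s.1.1 ∉ J} => (u : S).1.1) hij)
    have hcW : Fintype.card ({s : S // s.1.1 ∉ J} ⊕ Fin n) =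
        Fintype.card ({s : {s : S // s.1.1 ∉ J} // (s : S).1.2 ≠ 0} ⊕ {o // ∀ i, R i ≠ o}) := by
      have e1 : {s : {s : S // s.1.1 ∉ J} // (s : S).1.2 ≠ 0} ⊕ {j : Fin n // j ∉ J} ≃ {s : S // s.1.1 ∉ J} := by
        refine (Equiv.sumCongr (Equiv.subtypeEquivRight fun s => ?_) (Equiv.ofInjective _ hinj)).trans
          ((Equiv.sumComm _ _).trans (Equiv.Set.sumCompl (Set.range fun j : {j : Fin n // j ∉ J} =>
            (⟨⟨((j : Fin n), 0), hS.h0 j⟩, j.2⟩ : {s : S // s.1.1 ∉ J}))))
        rw [Set.mem_compl_iff, not_iff_not]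
        constructor
        · intro h
          exact ⟨⟨(s : S).1.1, s.2⟩, Subtype.ext (Subtype.ext (Prod.ext rfl h.symm))⟩
        · rintro ⟨j, rfl⟩
          rfl
      have e2 := Fintype.card_congr e1
      have e3 : Fintype.card {j : Fin n // j ∉ J} = n - J.card := by
        rw [Fintype.card_subtype_compl, Fintype.card_fin, Fintype.card_coe]
      have e4 : J.card ≤ n := by
        have := Finset.card_le_univ J
        rwa [Fintype.card_fin] at this
      rw [Fintype.card_sum, e3] at e2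
      rw [Fintype.card_sum, Fintype.card_sum, Fintype.card_fin, hcard', ← e2]
      omega
    have hZ := (Pool.Agent.V8H73.AN.count hW (Z := Sum.elim (fun s : {s : {s : S // s.1.1 ∉ J} // (s : S).1.2 ≠ 0} => c' s)
      (fun o : {o // ∀ i, R i ≠ o} => ep z o)) fun δ hδ => ?_).2 hcW
    · have h1 : AlgebraicIndependent A (fun o : {o // ∀ i, R i ≠ o} => ep z o) := hZ.comp Sum.inr Sum.inr_injective
      have h2 := ind_mono hEA h1
      have h3 : AlgebraicIndependent E (fun o : {o // ∀ i, R i ≠ o} => (⟨ep z o,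
          IntermediateField.subset_adjoin _ _ (hep o)⟩ :
          IntermediateField.adjoin E (Set.range z ∪ Set.range fun l => Complex.exp (z l)))) := by
        refine AlgebraicIndependent.of_comp (f := IntermediateField.val _) ?_
        exact h2
      have h4 := h3.cardinalMk_le_trdeg
      rw [Cardinal.mk_fintype, hcard'] at h4
      exact h4
    · have hδA : ∀ x ∈ A, δ x = 0 := fun x hx => Derivation.map_algebraMap δ (⟨x, hx⟩ : A)
      have hδJ : ∀ s : S, s.1.1 ∈ J → δ (c' s) = 0 := fun s hs => by rw [hg.eq s hs]; exact hδA _ (hcA s hs)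
      have hδp : (fun o => δ (ep z o)) = 0 := by
        refine mn_zero hRi hR (fun j hj => ?_) fun o ho => hδ (Sum.inr ⟨o, ho⟩)
        have h1 := der_full δ c' (ep z) j
        rw [hPv' j, map_zero, hPjJ j hj] at h1
        have h2 : Pv (fun q => δ (c' q)) (ep z) j = 0 := by
          rw [Pv_sum]
          refine Finset.sum_eq_zero fun s _ => ?_
          split_ifs with h
          · rw [hδJ s (by rw [h]; exact hj), zero_mul]
          · rfl
        rw [h2, zero_add] at h1
        exact h1.symm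
      have hδc : ∀ s : S, s.1.1 ∉ J → δ (c' s) = 0 := by
        intro s hs
        by_cases hs0 : s.1.2 = 0
        · have h1 := der_full δ c' (ep z) s.1.1
          rw [hPv', map_zero] at h1
          have h2 : ∑ o, eval (ep z) (pderiv o (Pj c' s.1.1)) * δ (ep z o) = 0 :=
            Finset.sum_eq_zero fun o _ => by rw [show δ (ep z o) = 0 from congrFun hδp o, mul_zero]
          rw [h2, add_zero] at h1
          have h3 := Pv_one1 hS (a := fun q => δ (c' q)) (j := s.1.1) (fun s' h5 h6 => ?_) (ep z)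
          · rw [← h1] at h3
            have h5 : s = ⟨(s.1.1, 0), hS.h0 s.1.1⟩ := Subtype.ext (Prod.ext rfl hs0)
            rw [← h5] at h3
            exact h3.symm
          · exact hδ (Sum.inl ⟨⟨s', by rw [h5]; exact hs⟩, fun h7 => h6 (Subtype.ext (Prod.ext h5 h7))⟩)
        · exact hδ (Sum.inl ⟨⟨s, hs⟩, hs0⟩)
      rintro (s | l)
      · exact hδc s s.2
      · exact congrFun hδp (Sum.inl l)

/-- countable fields -/
theorem alg_countable {F : Type} [Field F] [Algebra F ℂ] [Countable F] {E : Subfield ℂ}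
    (hE : ∀ x ∈ E, IsAlgebraic F x) : Countable E := by
  have h1 := Algebraic.countable F ℂ
  exact (h1.mono fun x hx => hE x hx).to_subtype

/-- **Generic exponential points.** -/
theorem many_J (hS : Four S) (hn : 0 < n) [Countable K]
    (hAJ : AlgebraicIndependent K (fun s : {s : S // s.1.1 ∈ J} => c s)) (hg : GJ K c J) {m : ℕ} (t : Fin m → ℂ)
    {E : Subfield ℂ} (hE : ∀ x ∈ E, IsAlgebraic (IntermediateField.adjoin K (Set.range c ∪ Set.range t)) x)
    (hdef : (IJ c J).radical = Ideal.span {f : MvPolynomial (Fin n ⊕ Fin n) ℂ | f ∈ (IJ c J).radical ∧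
      ∀ mo, f.coeff mo ∈ E}) {f : MvPolynomial (Fin n ⊕ Fin n) ℂ} (hf : f ∉ (IJ c J).radical) :
    {z | z ∈ Zp (IJ c J).radical ∧ Algebra.trdeg E (IntermediateField.adjoin E
      (Set.range z ∪ Set.range fun l => Complex.exp (z l))) = (n + n - J.card : ℕ) ∧
      eval (Sum.elim z fun l => Complex.exp (z l)) f ≠ 0}.Infinite := by
  classical
  obtain ⟨m', T, hT⟩ : ∃ (m' : ℕ) (T : Fin m' → ℂ), Set.range T = (Set.range c ∪ Set.range t) ∪ (f.coeffs : Set ℂ) := by
    have hfin : ((Set.range c ∪ Set.range t) ∪ (f.coeffs : Set ℂ)).Finite :=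
      ((Set.finite_range c).union (Set.finite_range t)).union f.coeffs.finite_toSet
    obtain ⟨m', T, hT⟩ := hfin.fin_param
    exact ⟨m', T, hT.2⟩
  have hcF : Countable (IntermediateField.adjoin K (Set.range c ∪ Set.range t)) := by
    have h1 : Countable (Subfield.closure (Set.range (algebraMap K ℂ) ∪ (Set.range c ∪ Set.range t))) := by
      have h2 : Set.range (algebraMap K ℂ) = (K : Set ℂ) := Subtype.range_coe
      rw [h2]
      exact cl_countable ((Set.finite_range c).union (Set.finite_range t)).countable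
    exact h1
  have hEc : Countable E := alg_countable hE
  have hKT : ((K : Set ℂ) ∪ Set.range T).Countable :=
    (Set.countable_coe_iff.1 (inferInstanceAs (Countable K))).union (Set.finite_range T).countable
  obtain ⟨A, hA⟩ : ∃ A, A = Subfield.closure ((E : Set ℂ) ∪ ((K : Set ℂ) ∪ Set.range T)) := ⟨_, rfl⟩
  have hAc : Countable A := by
    rw [hA]
    exact cl_countable hKT
  obtain ⟨c', h⟩ := hg A hAc
  have hcA : ∀ s : S, s.1.1 ∈ J → c s ∈ A := by
    intro s _
    rw [hA]
    refine Subfield.subset_closure (Or.inr (Or.inr ?_))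
    rw [hT]
    exact Or.inl (Or.inl ⟨s, rfl⟩)
  have hEA : E ≤ A := by
    rw [hA]
    exact fun x hx => Subfield.subset_closure (Or.inl hx)
  have hfA : ∀ mo, f.coeff mo ∈ A := by
    intro mo
    by_cases h0 : f.coeff mo = 0
    · rw [h0]
      exact A.zero_mem
    · rw [hA]
      refine Subfield.subset_closure (Or.inr (Or.inr ?_))
      rw [hT]
      exact Or.inr (coeff_mem_coeffs _ h0)
  have hfv := key_J hS hn hcA hAJ h hfA hf
  have h1 : {z | z ∈ {z : Fin n → ℂ | val c' z = 0} ∧
      ¬ AlgebraicIndependent (IntermediateField.adjoin K (Set.range c' ∪ Set.range T)) z}.Finite :=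
    Set.finite_of_encard_le_coe (h.cm.ai m' T)
  have h2 : {z | z ∈ {z : Fin n → ℂ | val c' z = 0} ∧ eval (Sum.elim z fun l => Complex.exp (z l)) f = 0}.Finite := by
    by_contra hinf
    have := (h.vi hS hn).1
    refine hfv (le_of_common (P₁ := Ideal.span {f}) h.cm (gp_frac (Vi c')) (vi_poly c') ?_
      (Ideal.mem_span_singleton_self f))
    refine Set.Infinite.mono ?_ hinf
    rintro z ⟨hz1, hz2⟩
    refine ⟨fun g hg => ?_, ?_⟩
    · obtain ⟨a, rfl⟩ := Ideal.mem_span_singleton'.1 hg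
      rw [map_mul, hz2, mul_zero]
    · rw [Zp_Vi]
      exact hz1
  refine ((h.cm.inf.sdiff h1).sdiff h2).mono ?_
  rintro z ⟨⟨hz, hz1⟩, hz2⟩
  have hz0 : val c' z = 0 := hz
  have hI : AlgebraicIndependent (IntermediateField.adjoin K (Set.range c' ∪ Set.range T)) z := by
    by_contra h3
    exact hz1 ⟨hz, h3⟩
  refine ⟨fun g hg => ?_, ?_, fun h3 => hz2 ⟨hz, h3⟩⟩
  · exact h.rad_le hS hn hg z hz0
  · refine trdeg_z hS hAJ h hcA hEA hdef hz0 (z_ind hE ?_ hA hI)
    rw [hT]
    exact Set.subset_union_left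

end Pool.Agent.V8H73.SE
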