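import Pool.Agent.V8H73.SE.Tr

/-!
# The irreducible subvarieties with infinitely many exponential points
-/

set_option autoImplicit false
set_option linter.unusedSectionVars false

open MvPolynomial

namespace Pool.Agent.V8H73.SE

open Pool.Agent.V8H73.AN (Ex Four Ph ez mo JJ Pj ιX der_ev)

variable {n : ℕ} {S : Finset (Fin n × Ex n)}

/-- the exponential points of the variety of an ideal -/
def Zp (P : Ideal (MvPolynomial (Fin n ⊕ Fin n) ℂ)) : Set (Fin n → ℂ) :=
  {z | ∀ f ∈ P, eval (Sum.elim z fun l => Complex.exp (z l)) f = 0}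

/-- what is used of the coefficients -/
structure Cm (K : Subfield ℂ) (c : S → ℂ) : Prop where
  nd : ∀ z, val c z = 0 → (JJ c z (ez z)).det ≠ 0
  inf : {z : Fin n → ℂ | val c z = 0}.Infinite
  ai : ∀ (m : ℕ) (t : Fin m → ℂ), {z | z ∈ {z : Fin n → ℂ | val c z = 0} ∧
    ¬ AlgebraicIndependent (IntermediateField.adjoin K (Set.range c ∪ Set.range t)) z}.encard ≤ m

theorem cm_of (hS : Four S) (hn : 0 < n) {K : Subfield ℂ} {c : S → ℂ}
    (h : (∀ z, Ph c z = 0 → (JJ c z (ez z)).det ≠ 0) ∧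
      AlgebraicIndependent K (Sum.elim c fun q : {z : Fin n → ℂ // Ph c z = 0} × Fin n => (q.1 : Fin n → ℂ) q.2))
    {T : ℂ} (hT : Transcendental (Subfield.closure {tp}) T)
    (hc : AlgebraicIndependent (Subfield.closure (insert T {tp})) c) : Cm K c := by
  have hcnt : Countable (Subfield.closure (insert T ({tp} : Set ℂ))) :=
    count_cl _ ((Set.finite_singleton _).insert _)
  rw [← val_eq_Ph] at h
  refine ⟨h.1, ?_, fun m t => ?_⟩
  · obtain ⟨κ, hh, y, h1, h2, h3, h4, h5⟩ := weights hS hT hc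
    exact SE.inf hn h1 h2 h3 h4 h5
  · exact fg c {z : Fin n → ℂ | val c z = 0} h.2 m t

/-- **Almost all systems.** -/
theorem ae_cm (hS : Four S) (hn : 0 < n) (K : Subfield ℂ) [Countable K] :
    (∀ᵐ c : S → ℂ, Cm K c) ∧ ∀ᵐ u : S → ℝ, Cm K (ιX S u) := by
  obtain ⟨T, hT⟩ := exists_T
  have hcnt : Countable (Subfield.closure (insert T ({tp} : Set ℂ))) :=
    count_cl _ ((Set.finite_singleton _).insert _)
  constructor
  · filter_upwards [Pool.Agent.V8H73.AN.ae_all hS K,
      Pool.Agent.V8H73.AN.ae_all hS (Subfield.closure (insert T ({tp} : Set ℂ)))] with c h1 h2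
    exact cm_of hS hn h1 hT (h2.2.comp Sum.inl Sum.inl_injective)
  · filter_upwards [Pool.Agent.V8H73.AN.ae_all_R hS K,
      Pool.Agent.V8H73.AN.ae_all_R hS (Subfield.closure (insert T ({tp} : Set ℂ)))] with u h1 h2
    exact cm_of hS hn h1 hT (h2.2.comp Sum.inl Sum.inl_injective)

/-- the values are the values of the equations -/
theorem val_ev (c : S → ℂ) (z : Fin n → ℂ) (j : Fin n) :
    val c z j = eval (Sum.elim z fun l => Complex.exp (z l)) (Pj c j) := by
  rw [val_eq_Ph]
  rfl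

theorem Zp_sub {c : S → ℂ} {P : Ideal (MvPolynomial (Fin n ⊕ Fin n) ℂ)} (hP : ∀ j, Pj c j ∈ P) {z : Fin n → ℂ}
    (hz : z ∈ Zp P) : val c z = 0 := by
  funext j
  rw [val_ev]
  exact hz _ (hP j)

/-- a component with infinitely many exponential points -/
theorem exists_prime {K : Subfield ℂ} {c : S → ℂ} (h : Cm K c) :
    ∃ P ∈ (Ideal.span (Set.range (Pj c))).minimalPrimes, (Zp P).Infinite := by
  by_contra hcon
  push Not at hcon
  refine h.inf ((Set.Finite.biUnion ((Ideal.span (Set.range (Pj c))).finite_minimalPrimes_of_isNoetherianRing _)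
    fun P hP => hcon P hP).subset fun z hz => ?_)
  have hpr : (RingHom.ker (eval (Sum.elim z fun l => Complex.exp (z l)) :
      MvPolynomial (Fin n ⊕ Fin n) ℂ →+* ℂ)).IsPrime := RingHom.ker_isPrime _
  have hle : Ideal.span (Set.range (Pj c)) ≤ RingHom.ker (eval (Sum.elim z fun l => Complex.exp (z l)) :
      MvPolynomial (Fin n ⊕ Fin n) ℂ →+* ℂ) := by
    rw [Ideal.span_le]
    rintro _ ⟨j, rfl⟩
    rw [SetLike.mem_coe, RingHom.mem_ker, ← val_ev]
    exact congrFun hz j
  obtain ⟨P, hP, hP'⟩ := Ideal.exists_minimalPrimes_le hle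
  exact Set.mem_biUnion hP fun f hf => (RingHom.mem_ker (f := eval _)).1 (hP' hf)

section prime

variable {K : Subfield ℂ} {c : S → ℂ} {P : Ideal (MvPolynomial (Fin n ⊕ Fin n) ℂ)}

/-- generic exponential points -/
theorem many (h : Cm K c) (hP : ∀ j, Pj c j ∈ P) (hinf : (Zp P).Infinite) {m : ℕ} (t : Fin m → ℂ) :
    ∃ z ∈ Zp P, AlgebraicIndependent (IntermediateField.adjoin K (Set.range c ∪ Set.range t)) z := by
  by_contra hcon
  push Not at hcon
  have h0 : Zp P ⊆ {z | z ∈ {z : Fin n → ℂ | val c z = 0} ∧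
      ¬ AlgebraicIndependent (IntermediateField.adjoin K (Set.range c ∪ Set.range t)) z} :=
    fun z hz => ⟨Zp_sub hP hz, hcon z hz⟩
  have h1 : (Zp P).encard ≤ m := (Set.encard_le_encard h0).trans (h.ai m t)
  exact hinf (Set.finite_of_encard_le_coe h1)

variable {L : Type} [Field L] [Algebra ℂ L] {p : Fin n ⊕ Fin n → L}

/-- a generic point -/
structure Gp (P : Ideal (MvPolynomial (Fin n ⊕ Fin n) ℂ)) (p : Fin n ⊕ Fin n → L) : Prop where
  ev : ∀ f : MvPolynomial (Fin n ⊕ Fin n) ℂ, aeval p f = 0 ↔ f ∈ P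
  gen : ∀ e : L, ∃ f g : MvPolynomial (Fin n ⊕ Fin n) ℂ, e = aeval p f / aeval p g

/-- the first coordinates are independent -/
theorem ind_x (hp : Gp P p) (h : Cm K c) (hP : ∀ j, Pj c j ∈ P) (hinf : (Zp P).Infinite) :
    AlgebraicIndependent ℂ (fun l : Fin n => p (Sum.inl l)) := by
  classical
  rw [algebraicIndependent_iff]
  intro g hg
  have h1 : rename Sum.inl g ∈ P := by
    rw [← hp.ev, aeval_rename]
    exact hg
  let t : Fin g.coeffs.card → ℂ := fun i => (g.coeffs.equivFin.symm i : ℂ)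
  have ht : ∀ x ∈ g.coeffs, x ∈ Set.range t := fun x hx =>
    ⟨g.coeffs.equivFin ⟨x, hx⟩, by simp [t]⟩
  obtain ⟨z, hz, hzI⟩ := many h hP hinf t
  have h2 : eval z g = 0 := by
    have h3 := hz _ h1
    rw [eval_rename] at h3
    exact h3
  have h3 : g ∈ Set.range (map (algebraMap (IntermediateField.adjoin K (Set.range c ∪ Set.range t)) ℂ) :
      MvPolynomial (Fin n) _ → MvPolynomial (Fin n) ℂ) := by
    rw [mem_range_map_iff_coeffs_subset]
    intro x hx
    exact ⟨⟨x, IntermediateField.subset_adjoin _ _ (Or.inr (ht x hx))⟩, rfl⟩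
  obtain ⟨g0, hg0⟩ := h3
  have h4 : g0 = 0 := by
    refine (algebraicIndependent_iff.1 hzI) g0 ?_
    rw [← hg0, eval_map] at h2
    rw [aeval_def]
    exact h2
  rw [← hg0, h4, map_zero]

/-- the determinant of the Jacobian matrix at the generic point -/
theorem det_pt (hp : Gp P p) (h : Cm K c) (hP : ∀ j, Pj c j ∈ P) (hinf : (Zp P).Infinite) :
    (JJ (fun q => algebraMap ℂ L (c q))
      (fun l => p (Sum.inl l)) fun l => p (Sum.inr l)).det ≠ 0 := by
  let Δ : MvPolynomial (Fin n ⊕ Fin n) ℂ := (JJ (fun q => (C (c q) : MvPolynomial (Fin n ⊕ Fin n) ℂ))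
    (fun l => X (Sum.inl l)) fun l => X (Sum.inr l)).det
  obtain ⟨z, hz⟩ := hinf.nonempty
  intro h0
  have h1 : Δ ∈ P := by
    rw [← hp.ev]
    have h2 := RingHom.map_det (aeval (R := ℂ) p).toRingHom
      (JJ (fun q => (C (c q) : MvPolynomial (Fin n ⊕ Fin n) ℂ))
        (fun l => X (Sum.inl l)) fun l => X (Sum.inr l))
    rw [RingHom.mapMatrix_apply, Pool.Agent.V8H73.AN.JJ_map] at h2
    simp only [AlgHom.toRingHom_eq_coe, RingHom.coe_coe, aeval_X, aeval_C] at h2
    exact h2.trans h0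
  have h2 := RingHom.map_det (eval (Sum.elim z fun l => Complex.exp (z l)) : MvPolynomial (Fin n ⊕ Fin n) ℂ →+* ℂ)
      (JJ (fun q => (C (c q) : MvPolynomial (Fin n ⊕ Fin n) ℂ))
        (fun l => X (Sum.inl l)) fun l => X (Sum.inr l))
  rw [RingHom.mapMatrix_apply, Pool.Agent.V8H73.AN.JJ_map] at h2
  simp only [eval_X, eval_C, Sum.elim_inl, Sum.elim_inr] at h2
  exact h.nd z (Zp_sub hP hz) (h2.symm.trans (hz _ h1))

/-- the derivations of the function field -/
theorem der_pt (hp : Gp P p) (δ : Derivation ℂ L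
    L) (h : ∀ o, δ (p o) = 0)
    (e : L) : δ e = 0 := by
  classical
  have h1 : ∀ f : MvPolynomial (Fin n ⊕ Fin n) ℂ, δ (aeval p f) = 0 := by
    intro f
    have h2 := der_ev δ p f
    rw [eval_map] at h2
    rw [aeval_def, h2]
    exact Finset.sum_eq_zero fun o _ => by rw [h, mul_zero]
  obtain ⟨a, b, rfl⟩ := hp.gen e
  rw [Derivation.leibniz_div, h1, h1, smul_zero, smul_zero, sub_zero, smul_zero]

/-- the dimension -/
theorem dim_eq (hp : Gp P p) (h : Cm K c) (hP : ∀ j, Pj c j ∈ P) (hinf : (Zp P).Infinite) :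
    Algebra.trdeg ℂ L = n := by
  classical
  refine le_antisymm ?_ ?_
  · have h1 : Algebra.trdeg ℂ (⊤ : IntermediateField ℂ L) ≤ n := by
      let LZ : Derivation ℂ L
          L →ₗ[L]
          (Fin n → L) :=
        { toFun := fun δ l => δ (p (Sum.inr l)) - p (Sum.inr l) * δ (p (Sum.inl l))
          map_add' := fun δ δ' => by
            funext l
            simp only [Derivation.add_apply, Pi.add_apply]
            ring
          map_smul' := fun a δ => by
            funext l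
            simp only [Derivation.smul_apply, Pi.smul_apply, smul_eq_mul, RingHom.id_apply]
            ring }
      refine trdeg_le_of_kill LZ _ fun δ hδ e _ => der_pt hp δ ?_ e
      have h2 : ∀ l, δ (p (Sum.inr l)) = p (Sum.inr l) * δ (p (Sum.inl l)) := fun l =>
        sub_eq_zero.1 (congrFun hδ l)
      have h3 : (JJ (fun q => algebraMap ℂ L (c q))
          (fun l => p (Sum.inl l)) fun l => p (Sum.inr l)).mulVec (fun l => δ (p (Sum.inl l))) = 0 := by
        funext j
        have h4 := der_ev δ p (Pj c j)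
        have h5 : eval p (map (algebraMap ℂ L) (Pj c j)) = 0 := by
          rw [eval_map, ← aeval_def, hp.ev]
          exact hP j
        rw [h5, map_zero, Fintype.sum_sum_type] at h4
        rw [Pi.zero_apply, h4]
        unfold Matrix.mulVec dotProduct
        rw [← Finset.sum_add_distrib]
        refine Finset.sum_congr rfl fun l _ => ?_
        unfold JJ
        beta_reduce
        have h6 : (Sum.elim (fun l => p (Sum.inl l)) fun l => p (Sum.inr l) :
            Fin n ⊕ Fin n → L) = p := by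
          funext o
          rcases o with o | o <;> rfl
        rw [Matrix.of_apply, h6, h2, ← Pool.Agent.V8H73.AN.Pj_map, pderiv_map, pderiv_map]
        ring
      have h4 := Matrix.eq_zero_of_mulVec_eq_zero (det_pt hp h hP hinf) h3
      rintro (l | l)
      · exact congrFun h4 l
      · rw [h2, show δ (p (Sum.inl l)) = 0 from congrFun h4 l, mul_zero]
    rwa [AlgEquiv.trdeg_eq IntermediateField.topEquiv] at h1
  · have h2 := (ind_x hp h hP hinf).cardinalMk_le_trdeg
    rwa [Cardinal.mk_fin] at h2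

/-- additively free -/
theorem addfree (hp : Gp P p) (h : Cm K c) (hP : ∀ j, Pj c j ∈ P) (hinf : (Zp P).Infinite) (m : Fin n → ℤ) (hm : m ≠ 0) (b : ℂ) :
    (∑ i, (m i : L) * p (Sum.inl i)) ≠
      algebraMap ℂ L b := by
  intro h0
  have h1 : LinearIndependent ℤ (fun _ : Fin 1 => m) := LinearIndependent.of_subsingleton 0 hm
  have h2 := ind_forms (ind_x hp h hP hinf) h1
  have h3 := h2.transcendental 0
  rw [h0] at h3
  exact h3 (isAlgebraic_algebraMap b)

/-- multiplicatively free -/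
theorem mulfree (hp : Gp P p) (h : Cm K c) (hP : ∀ j, Pj c j ∈ P) (hinf : (Zp P).Infinite) (m : Fin n → ℤ) (hm : m ≠ 0) (b : ℂ) :
    (∏ i, p (Sum.inr i) ^ (m i)) ≠ algebraMap ℂ L b := by
  classical
  intro h0
  have hy : ∀ i, p (Sum.inr i) ≠ 0 := by
    intro i hi
    have h1 : (X (Sum.inr i) : MvPolynomial (Fin n ⊕ Fin n) ℂ) ∈ P := by
      rw [← hp.ev, aeval_X]
      exact hi
    obtain ⟨z, hz⟩ := hinf.nonempty
    have h2 := hz _ h1
    rw [eval_X] at h2
    exact Complex.exp_ne_zero _ h2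
  let f : MvPolynomial (Fin n ⊕ Fin n) ℂ := ∏ i, X (Sum.inr i) ^ (m i).toNat - C b * ∏ i, X (Sum.inr i) ^ (-m i).toNat
  have hz1 : ∀ (E : Type) [Field E] (y : Fin n → E), (∀ i, y i ≠ 0) →
      (∏ i, y i ^ (m i)) * ∏ i, y i ^ (-m i).toNat = ∏ i, y i ^ (m i).toNat := by
    intro E _ y hy
    rw [← Finset.prod_mul_distrib]
    refine Finset.prod_congr rfl fun i _ => ?_
    rw [← zpow_natCast, ← zpow_add₀ (hy i), ← zpow_natCast]
    congr 1
    omega
  have hf : f ∈ P := by
    rw [← hp.ev]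
    simp only [f, map_sub, map_mul, map_prod, map_pow, aeval_X, aeval_C]
    rw [← h0, hz1 _ _ hy, sub_self]
  have he : ∀ z ∈ Zp P, Complex.exp (∑ i, (m i : ℂ) * z i) = b := by
    intro z hz
    have h1 := hz _ hf
    simp only [f, map_sub, map_mul, map_prod, map_pow, eval_X, eval_C, Sum.elim_inr] at h1
    rw [← hz1 ℂ (fun i => Complex.exp (z i)) fun i => Complex.exp_ne_zero _, ← sub_mul] at h1
    have h2 : ∏ i, Complex.exp (z i) ^ (-m i).toNat ≠ 0 :=
      Finset.prod_ne_zero_iff.2 fun i _ => pow_ne_zero _ (Complex.exp_ne_zero _)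
    rw [← sub_eq_zero.1 ((mul_eq_zero.1 h1).resolve_right h2), Complex.exp_sum]
    refine Finset.prod_congr rfl fun i _ => ?_
    rw [Complex.exp_int_mul]
  obtain ⟨z, hz, hzI⟩ := many h hP hinf (![Complex.log b, tp] : Fin 2 → ℂ)
  have hb : b ≠ 0 := by
    rw [← he z hz]
    exact Complex.exp_ne_zero _
  have h1 := he z hz
  rw [← Complex.exp_log hb, Complex.exp_eq_exp_iff_exists_int] at h1
  obtain ⟨k, hk⟩ := h1
  obtain ⟨i0, hi0⟩ := Function.ne_iff.1 hm
  have hi1 : (m i0 : ℂ) ≠ 0 := Int.cast_ne_zero.2 hi0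
  obtain ⟨D, hD⟩ := Pool.Agent.H135R2.VS.exists_der hzI (Pi.single i0 1)
  have hDF : ∀ x ∈ Set.range c ∪ Set.range (![Complex.log b, tp] : Fin 2 → ℂ), D x = 0 := fun x hx =>
    Derivation.map_algebraMap D (⟨x, IntermediateField.subset_adjoin _ _ hx⟩ :
      IntermediateField.adjoin K (Set.range c ∪ Set.range (![Complex.log b, tp] : Fin 2 → ℂ)))
  have h2 := congrArg D hk
  have h3 : D (Complex.log b) = 0 := hDF _ (Or.inr ⟨0, rfl⟩)
  have h4 : D (2 * Real.pi * Complex.I) = 0 := hDF _ (Or.inr ⟨1, rfl⟩)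
  rw [map_sum, map_add, h3, Derivation.leibniz, h4, Derivation.map_intCast, smul_zero, smul_zero, add_zero, zero_add,
    Finset.sum_eq_single i0] at h2
  · rw [Derivation.leibniz, hD, Pi.single_eq_same, Derivation.map_intCast, smul_zero, add_zero, smul_eq_mul,
      mul_one] at h2
    exact hi1 h2
  · intro i _ hi
    rw [Derivation.leibniz, hD, Pi.single_eq_of_ne hi, Derivation.map_intCast, smul_zero, smul_zero, add_zero]
  · intro hi
    exact absurd (Finset.mem_univ _) hi

/-- rotund -/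
theorem rotund (hp : Gp P p) (h : Cm K c) (hP : ∀ j, Pj c j ∈ P) (hinf : (Zp P).Infinite) (k : ℕ) (M : Fin k → Fin n → ℤ)
    (hM : LinearIndependent ℤ M) : ∃ s : Finset (Fin k ⊕ Fin k), s.card = k ∧
      AlgebraicIndependent ℂ (fun j : s => Sum.elim
        (fun r : Fin k => ∑ i, (M r i : L) * p (Sum.inl i))
        (fun r : Fin k => ∏ i, p (Sum.inr i) ^ (M r i)) (j : Fin k ⊕ Fin k)) := by
  classical
  refine ⟨Finset.univ.map ⟨Sum.inl, Sum.inl_injective⟩, by rw [Finset.card_map, Finset.card_univ, Fintype.card_fin], ?_⟩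
  have h1 : ∀ j : (Finset.univ.map ⟨Sum.inl, Sum.inl_injective⟩ : Finset (Fin k ⊕ Fin k)),
      ∃ r : Fin k, Sum.inl r = (j : Fin k ⊕ Fin k) := by
    rintro ⟨j, hj⟩
    obtain ⟨r, -, hr⟩ := Finset.mem_map.1 hj
    exact ⟨r, hr⟩
  choose ρ hρ using h1
  have h2 := (ind_forms (ind_x hp h hP hinf) hM).comp ρ fun j j' hj => Subtype.ext (by rw [← hρ j, ← hρ j', hj])
  have h3 : (fun j : (Finset.univ.map ⟨Sum.inl, Sum.inl_injective⟩ : Finset (Fin k ⊕ Fin k)) => Sum.elim
      (fun r : Fin k => ∑ i, (M r i : L) * p (Sum.inl i))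
      (fun r : Fin k => ∏ i, p (Sum.inr i) ^ (M r i)) (j : Fin k ⊕ Fin k)) =
      (fun r : Fin k => ∑ i, (M r i : L) * p (Sum.inl i)) ∘ ρ := by
    funext j
    rw [← hρ j]
    rfl
  rw [h3]
  exact h2

end prime

/-- the relations between the derivatives -/
theorem tang {E : Subfield ℂ} {P : Ideal (MvPolynomial (Fin n ⊕ Fin n) ℂ)}
    (hdef : P = Ideal.span {f : MvPolynomial (Fin n ⊕ Fin n) ℂ | f ∈ P ∧ ∀ mo, f.coeff mo ∈ E}) {p : Fin n ⊕ Fin n → ℂ}
    (hp : ∀ f ∈ P, eval p f = 0) (δ : Derivation E ℂ ℂ) {f : MvPolynomial (Fin n ⊕ Fin n) ℂ} (hf : f ∈ P) :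
    ∑ o, eval p (pderiv o f) * δ (p o) = 0 := by
  classical
  rw [hdef] at hf
  have h1 : eval p f = 0 ∧ ∑ o, eval p (pderiv o f) * δ (p o) = 0 := by
    induction hf using Submodule.span_induction with
    | mem f hf =>
      refine ⟨hp f hf.1, ?_⟩
      have h3 : f ∈ Set.range (map (algebraMap E ℂ) : MvPolynomial (Fin n ⊕ Fin n) E → _) := by
        rw [mem_range_map_iff_coeffs_subset]
        intro x hx
        obtain ⟨mo, -, rfl⟩ := mem_coeffs_iff.1 hx
        exact ⟨⟨_, hf.2 mo⟩, rfl⟩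
      obtain ⟨g, rfl⟩ := h3
      have h4 := der_ev δ p g
      rw [hp _ hf.1, map_zero] at h4
      simp only [pderiv_map]
      exact h4.symm
    | zero => simp
    | add f g _ _ h1 h2 =>
      refine ⟨by rw [map_add, h1.1, h2.1, add_zero], ?_⟩
      simp only [map_add, add_mul, Finset.sum_add_distrib, h1.2, h2.2, add_zero]
    | smul a f _ h1 =>
      refine ⟨by rw [smul_eq_mul, map_mul, h1.1, mul_zero], ?_⟩
      have h2 : ∀ o, eval p (pderiv o (a • f)) * δ (p o) = eval p a * (eval p (pderiv o f) * δ (p o)) := by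
        intro o
        rw [smul_eq_mul, Derivation.leibniz, smul_eq_mul, smul_eq_mul, map_add, map_mul, map_mul, h1.1]
        ring
      rw [Finset.sum_congr rfl fun o _ => h2 o, ← Finset.mul_sum, h1.2, mul_zero]
  exact h1.2

/-- **All but `m` exponential points are generic.** -/
theorem generic {K : Subfield ℂ} {c : S → ℂ} {P : Ideal (MvPolynomial (Fin n ⊕ Fin n) ℂ)} (h : Cm K c)
    (hP : ∀ j, Pj c j ∈ P) {m : ℕ} (t : Fin m → ℂ) {E : Subfield ℂ}
    (hE : ∀ x ∈ E, IsAlgebraic (IntermediateField.adjoin K (Set.range c ∪ Set.range t)) x)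
    (hdef : P = Ideal.span {f : MvPolynomial (Fin n ⊕ Fin n) ℂ | f ∈ P ∧ ∀ mo, f.coeff mo ∈ E}) :
    {z | z ∈ Zp P ∧ ¬ Algebra.trdeg E (IntermediateField.adjoin E
      (Set.range z ∪ Set.range fun l => Complex.exp (z l))) = n}.encard ≤ m := by
  classical
  refine (Set.encard_le_encard ?_).trans (h.ai m t)
  rintro z ⟨hz, hz'⟩
  refine ⟨Zp_sub hP hz, fun hI => hz' ?_⟩
  have hzE : AlgebraicIndependent E z := ind_alg hI hE
  refine le_antisymm ?_ ?_
  · let LZ : Derivation E ℂ ℂ →ₗ[ℂ] (Fin n → ℂ) :=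
      { toFun := fun δ l => δ (Complex.exp (z l)) - Complex.exp (z l) * δ (z l)
        map_add' := fun δ δ' => by
          funext l
          simp only [Derivation.add_apply, Pi.add_apply]
          ring
        map_smul' := fun a δ => by
          funext l
          simp only [Derivation.smul_apply, Pi.smul_apply, smul_eq_mul, RingHom.id_apply]
          ring }
    refine trdeg_le_of_kill LZ _ fun δ hδ m hm => ?_
    have h2 : ∀ l, δ (Complex.exp (z l)) = Complex.exp (z l) * δ (z l) := fun l => sub_eq_zero.1 (congrFun hδ l)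
    have h3 : (JJ c z (ez z)).mulVec (fun l => δ (z l)) = 0 := by
      funext j
      have h4 := tang hdef (p := Sum.elim z fun l => Complex.exp (z l)) hz δ (hP j)
      rw [Fintype.sum_sum_type] at h4
      rw [Pi.zero_apply, ← h4]
      unfold Matrix.mulVec dotProduct
      rw [← Finset.sum_add_distrib]
      refine Finset.sum_congr rfl fun l _ => ?_
      unfold JJ
      beta_reduce
      rw [Matrix.of_apply, Sum.elim_inl, Sum.elim_inr, h2]
      unfold ez
      beta_reduce
      ring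
    have h4 := Matrix.eq_zero_of_mulVec_eq_zero (h.nd z (Zp_sub hP hz)) h3
    refine der_adjoin _ δ ?_ ⟨m, hm⟩
    rintro x (⟨l, rfl⟩ | ⟨l, rfl⟩)
    · exact congrFun h4 l
    · rw [h2, show δ (z l) = 0 from congrFun h4 l, mul_zero]
  · have h1 : AlgebraicIndependent E (fun l : Fin n => (⟨z l, IntermediateField.subset_adjoin _ _ (Or.inl ⟨l, rfl⟩)⟩ :
        IntermediateField.adjoin E (Set.range z ∪ Set.range fun l => Complex.exp (z l)))) := by
      refine AlgebraicIndependent.of_comp (f := IntermediateField.val _) ?_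
      exact hzE
    have h2 := h1.cardinalMk_le_trdeg
    rwa [Cardinal.mk_fin] at h2

end Pool.Agent.V8H73.SE
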