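import Pool.Agent.V8H73.SE.Fin
import Pool.Agent.V8H73.AN.IntN
import Pool.Agent.V8H73.AN.AeR

/-!
# Integral systems have solutions
-/

set_option autoImplicit false
set_option linter.unusedSectionVars false

open Set Filter MeasureTheory Topology

namespace Pool.Agent.V8H73.SE

open Pool.Agent.V8H73.AN (Ex Four Ph ez mo JJ Pj ιX Bad cr cr_cont cn GoodS patch_S Ph_smul)
open Pool.Agent.V8H73.AZ (bx mem_bx bx_card cube cube_vol cube_disj)
open Pool.Agent.V8H73.RN (NoRel)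

section count

variable {ι : Type} [Fintype ι] [DecidableEq ι]

open scoped Classical in
/-- **Few lattice points.** -/
theorem near_small {B : Set (ι → ℝ)} (hB : IsCompact B) {ε : ℝ} (hε : 0 < ε) (h0 : volume B < ENNReal.ofReal ε) :
    ∃ T₀ : ℕ, ∀ T : ℕ, T₀ ≤ T →
      (((bx ι T).filter fun n => (fun i => (n i : ℝ) / T) ∈ B).card : ℝ) ≤ ε * (bx ι T).card := by
  obtain ⟨V, hBV, hV, hVm⟩ := B.exists_isOpen_lt_of_lt (μ := volume) (ENNReal.ofReal ε) h0
  obtain ⟨δ, hδ, hδV⟩ := hB.exists_thickening_subset_open hV hBV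
  refine ⟨max 1 (⌈2 / δ⌉₊ + 1), fun T hT => ?_⟩
  rw [max_le_iff] at hT
  have hTp : (0 : ℝ) < T := by exact_mod_cast hT.1
  have hTδ : 1 / (T : ℝ) < δ / 2 := by
    have h1 : 2 / δ < T := (Nat.le_ceil _).trans_lt (by exact_mod_cast hT.2)
    rw [div_lt_iff₀ hδ] at h1
    rw [div_lt_iff₀ hTp]
    linarith
  set S := (bx ι T).filter fun n => (fun i => (n i : ℝ) / T) ∈ B with hS
  have hsub : ⋃ n ∈ S, cube T n ⊆ V := by
    refine Set.iUnion₂_subset fun n hn u hu => hδV ?_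
    rw [hS, Finset.mem_filter] at hn
    rw [Metric.mem_thickening_iff]
    refine ⟨_, hn.2, ?_⟩
    have h1 : dist u (fun i => (n i : ℝ) / T) ≤ 1 / T := by
      rw [dist_pi_le_iff (by positivity)]
      intro i
      have h2 := hu i trivial
      rw [Set.mem_Ico] at h2
      rw [Real.dist_eq, abs_le]
      have h3 : ((n i : ℝ) + 1) / T = (n i : ℝ) / T + 1 / T := by ring
      constructor
      · have : 0 < 1 / (T : ℝ) := by positivity
        linarith [h2.1]
      · linarith [h2.2]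
    linarith
  have hm : ∀ n ∈ S, MeasurableSet (cube T n) := fun n _ => MeasurableSet.univ_pi fun i => measurableSet_Ico
  have h1 : volume (⋃ n ∈ S, cube T n) = ∑ n ∈ S, volume (cube T n) :=
    measure_biUnion_finset (fun n _ n' _ h => cube_disj hT.1 h) hm
  have h2 : ∑ n ∈ S, volume (cube T n) < ENNReal.ofReal ε := by
    rw [← h1]
    exact (measure_mono hsub).trans_lt hVm
  simp only [cube_vol hT.1, Finset.sum_const, nsmul_eq_mul] at h2
  have h3 : ((S.card : ℝ)) * (1 / (T : ℝ)) ^ Fintype.card ι < ε := by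
    have h4 : ENNReal.ofReal ((S.card : ℝ) * (1 / (T : ℝ)) ^ Fintype.card ι) < ENNReal.ofReal ε := by
      rw [ENNReal.ofReal_mul (by positivity), ENNReal.ofReal_natCast]
      exact h2
    exact (ENNReal.ofReal_lt_ofReal_iff hε).1 h4
  have h4 : (S.card : ℝ) ≤ ε * (T : ℝ) ^ Fintype.card ι := by
    have h5 : (0 : ℝ) < (T : ℝ) ^ Fintype.card ι := by positivity
    rw [one_div, inv_pow, ← div_eq_mul_inv, div_lt_iff₀ h5] at h3
    exact h3.le
  refine h4.trans (mul_le_mul_of_nonneg_left ?_ hε.le)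
  rw [bx_card]
  exact pow_le_pow_left₀ hTp.le (by linarith) _

end count

variable {n : ℕ} {S : Finset (Fin n × Ex n)}

/-- the zeros in a ball -/
def zs (x : S → ℂ) (R : ℝ) : Set (Fin n → ℂ) := {z | ‖z‖ ≤ R ∧ Ph x z = 0}

theorem zs_mono (x : S → ℂ) {R R' : ℝ} (h : R ≤ R') : zs x R ⊆ zs x R' := fun _ hz => ⟨hz.1.trans h, hz.2⟩

/-- nondegenerate zeros persist -/
theorem persist (hS : Four S) {R : ℝ} {x0 : S → ℂ} (hb : x0 ∉ Bad S R) (A : Finset (Fin n → ℂ))
    (hA : ∀ z ∈ A, ‖z‖ ≤ R ∧ Ph x0 z = 0) : ∀ᶠ x in 𝓝 x0, (A.card : ℕ∞) ≤ (zs x (R + 1)).encard := by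
  classical
  obtain ⟨δ, N, ζ, hδ, hB, -, hz⟩ := patch_S hS hb
  have hx0 : x0 ∈ Metric.ball x0 δ := Metric.mem_ball_self hδ
  have hex : ∀ z : A, ∃ i, ζ i x0 = z := fun z => by
    obtain ⟨i, hi, -⟩ := hz x0 hx0 z (hA z z.2).1 (hA z z.2).2
    exact ⟨i, hi⟩
  choose i hi using hex
  have hcont : ∀ z : A, ContinuousAt (fun x => ζ (i z) x) x0 := fun z => ((hB.b (i z)).an x0 hx0).continuousAt
  have e1 : ∀ᶠ x in 𝓝 x0, x ∈ Metric.ball x0 δ := Metric.isOpen_ball.mem_nhds hx0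
  have e2 : ∀ᶠ x in 𝓝 x0, ∀ z : A, ‖ζ (i z) x‖ < R + 1 := by
    refine eventually_all.2 fun z => (hcont z).norm.eventually_lt_const ?_
    change ‖ζ (i z) x0‖ < R + 1
    rw [hi]
    linarith [(hA z z.2).1]
  have e3 : ∀ᶠ x in 𝓝 x0, ∀ z z' : A, z ≠ z' → ζ (i z) x ≠ ζ (i z') x := by
    refine eventually_all.2 fun z => eventually_all.2 fun z' => ?_
    by_cases h : z = z'
    · exact Eventually.of_forall fun x hx => absurd h hx
    · have h1 : ζ (i z) x0 ≠ ζ (i z') x0 := by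
        rw [hi, hi]
        exact fun h2 => h (Subtype.ext h2)
      filter_upwards [((hcont z).sub (hcont z')).eventually_ne (sub_ne_zero.2 h1)] with x hx _
      exact sub_ne_zero.1 hx
  filter_upwards [e1, e2, e3] with x h1 h2 h3
  have hinj : Function.Injective fun z : A => ζ (i z) x := by
    intro z z' h
    by_contra hne
    exact h3 z z' hne h
  have h4 : Set.range (fun z : A => ζ (i z) x) ⊆ zs x (R + 1) := by
    rintro _ ⟨z, rfl⟩
    exact ⟨(h2 z).le, (hB.b (i z)).zero x h1⟩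
  refine le_trans ?_ (Set.encard_le_encard h4)
  rw [← Set.image_univ, hinj.encard_image, Set.encard_univ, ENat.card_eq_coe_fintype_card, Fintype.card_coe]

/-- many zeros in a large ball near almost all real systems -/
theorem ae_many (hS : Four S) (hn : 0 < n) (k : ℕ) : ∀ᵐ u : S → ℝ, ∃ R : ℕ,
    u ∈ interior {u : S → ℝ | (k : ℕ∞) ≤ (zs (cr u) R).encard} := by
  have hcn : Countable (Subfield.closure (∅ : Set ℂ)) := count_cl ∅ Set.finite_empty
  filter_upwards [(ae_cm hS hn (Subfield.closure (∅ : Set ℂ))).2] with u hu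
  obtain ⟨A, hA, hAk⟩ := hu.inf.exists_subset_card_eq k
  have hz : ∀ z ∈ A, Ph (cr u) z = 0 := fun z hz => by
    have h1 : val (ιX S u) z = 0 := hA hz
    rw [val_eq_Ph] at h1
    exact h1
  obtain ⟨R, hR⟩ := A.finite_toSet.isBounded.exists_norm_le
  have hb : cr u ∉ Bad S R := by
    rintro ⟨z, -, h1, h2⟩
    exact hu.nd z (by rw [val_eq_Ph]; exact h1) h2
  have h1 := persist hS hb A fun z hz' => ⟨hR z hz', hz z hz'⟩
  obtain ⟨R', hR'⟩ := exists_nat_ge (R + 1)
  refine ⟨R', mem_interior_iff_mem_nhds.2 ?_⟩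
  filter_upwards [cr_cont.continuousAt.eventually h1] with u' hu'
  rw [hAk] at hu'
  exact hu'.trans (Set.encard_le_encard (zs_mono _ hR'))

open scoped Classical in
/-- **Integral systems have many solutions.** -/
theorem int_many (hS : Four S) (hn : 0 < n) (k : ℕ) : ∃ R T₀ : ℕ, ∀ T : ℕ, T₀ ≤ T →
    k * ((bx S T).filter fun w => ¬ (k : ℕ∞) ≤ (zs (cn w) R).encard).card ≤ (bx S T).card := by
  let G : ℕ → Set (S → ℝ) := fun R => interior {u : S → ℝ | (k : ℕ∞) ≤ (zs (cr u) R).encard}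
  let C : ℕ → Set (S → ℝ) := fun R => Metric.closedBall 0 1 ∩ (G R)ᶜ
  have hC : ∀ R, IsCompact (C R) := fun R => (isCompact_closedBall _ _).inter_right isOpen_interior.isClosed_compl
  have hanti : Antitone C := by
    intro R R' h
    refine Set.inter_subset_inter_right _ (Set.compl_subset_compl.2 (interior_mono fun u hu => ?_))
    exact hu.trans (Set.encard_le_encard (zs_mono _ (by exact_mod_cast h)))
  have hnull : volume (⋂ R, C R) = 0 := by
    refine measure_mono_null (fun u hu => ?_) (ae_many hS hn k)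
    rw [Set.mem_iInter] at hu
    rintro ⟨R, hR⟩
    exact (hu R).2 hR
  have htend := tendsto_measure_iInter_atTop (μ := (volume : Measure (S → ℝ))) (s := C)
    (fun R => (hC R).isClosed.measurableSet.nullMeasurableSet) hanti ⟨0, (hC 0).measure_lt_top.ne⟩
  rw [hnull] at htend
  have hε : (0 : ℝ) < 1 / ((k : ℝ) + 1) := by positivity
  obtain ⟨R, hR⟩ := (htend.eventually (gt_mem_nhds (ENNReal.ofReal_pos.2 hε))).exists
  obtain ⟨T₀, hT₀⟩ := near_small (hC R) hε hR
  refine ⟨R, max T₀ 1, fun T hT => ?_⟩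
  rw [max_le_iff] at hT
  have hTp : (0 : ℝ) < T := by exact_mod_cast hT.2
  have h1 : ((bx S T).filter fun w => ¬ (k : ℕ∞) ≤ (zs (cn w) R).encard).card ≤
      ((bx S T).filter fun w => (fun i => (w i : ℝ) / T) ∈ C R).card := by
    refine Finset.card_le_card fun w hw => ?_
    rw [Finset.mem_filter] at hw ⊢
    refine ⟨hw.1, ?_, fun h2 => hw.2 ?_⟩
    · rw [mem_closedBall_zero_iff, pi_norm_le_iff_of_nonneg zero_le_one]
      intro i
      have h3 := mem_bx.1 hw.1 i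
      have h4 : |(w i : ℝ)| ≤ T := by exact_mod_cast h3
      rw [Real.norm_eq_abs, abs_div, abs_of_pos hTp, div_le_one hTp]
      exact h4
    · have h2' : (fun i => (w i : ℝ) / T) ∈ interior {u : S → ℝ | (k : ℕ∞) ≤ (zs (cr u) R).encard} := h2
      have h3 : (k : ℕ∞) ≤ (zs (cr fun i => (w i : ℝ) / T) R).encard :=
        (interior_subset h2' : (fun i => (w i : ℝ) / T) ∈ {u : S → ℝ | (k : ℕ∞) ≤ (zs (cr u) R).encard})
      have h4 : zs (cr fun i => (w i : ℝ) / T) R ⊆ zs (cn w) R := by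
        intro z hz
        refine ⟨hz.1, ?_⟩
        have h5 : cn w = (T : ℂ) • cr fun i => (w i : ℝ) / T := by
          have hT' : (T : ℂ) ≠ 0 := by exact_mod_cast hTp.ne'
          funext q
          rw [Pi.smul_apply, smul_eq_mul]
          unfold cn cr
          push_cast
          field_simp
        rw [h5, Ph_smul, hz.2, smul_zero]
      exact h3.trans (Set.encard_le_encard h4)
  have h2 := hT₀ T hT.1
  have h3 : ((k : ℝ) + 1) * ((bx S T).filter fun w => (fun i => (w i : ℝ) / T) ∈ C R).card ≤ (bx S T).card := by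
    rw [one_div, inv_mul_eq_div, le_div_iff₀ (by positivity)] at h2
    rw [mul_comm]
    refine le_trans (le_of_eq ?_) h2
    congr!
  have h4 : (k + 1) * ((bx S T).filter fun w => (fun i => (w i : ℝ) / T) ∈ C R).card ≤ (bx S T).card := by
    exact_mod_cast h3
  calc k * ((bx S T).filter fun w => ¬ (k : ℕ∞) ≤ (zs (cn w) R).encard).card ≤
        (k + 1) * ((bx S T).filter fun w => (fun i => (w i : ℝ) / T) ∈ C R).card := Nat.mul_le_mul (by omega) h1
    _ ≤ _ := h4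

/-- many nondegenerate zeros in a ball without relations -/
def GoodE (ξ : ℕ → ℂ) (k R : ℕ) (T : ℝ) (w : S → ℤ) : Prop :=
  (k : ℕ∞) ≤ (zs (cn w) R).encard ∧ (∀ z : Fin n → ℂ, ‖z‖ ≤ R → Ph (cn w) z = 0 → (JJ (cn w) z (ez z)).det ≠ 0) ∧
  NoRel ξ k T fun q : {z : Fin n → ℂ // ‖z‖ ≤ R ∧ Ph (cn w) z = 0} × Fin n => (q.1 : Fin n → ℂ) q.2

open scoped Classical in
/-- **All zeros in balls.** -/
theorem int_all (hS : Four S) (hn : 0 < n) : ∃ R : ℕ → ℕ, (∀ k, k ≤ R k) ∧ ∀ ξ : ℕ → ℂ, ∃ ω : ℕ → ℕ,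
    Tendsto ω atTop atTop ∧ Monotone ω ∧ ∀ T : ℕ,
      ω T * ((bx S T).filter fun w => ¬ GoodE ξ (ω T) (R (ω T)) T w).card ≤ (bx S T).card := by
  have h1 : ∀ k : ℕ, ∃ R T₀ : ℕ, k ≤ R ∧ ∀ T : ℕ, T₀ ≤ T →
      (2 * k) * ((bx S T).filter fun w => ¬ (k : ℕ∞) ≤ (zs (cn w) R).encard).card ≤ (bx S T).card := by
    intro k
    obtain ⟨R, T₀, hR⟩ := int_many hS hn (2 * k)
    refine ⟨max R k, T₀, le_max_right _ _, fun T hT => le_trans (Nat.mul_le_mul_left _ (Finset.card_le_card ?_)) (hR T hT)⟩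
    intro w hw
    rw [Finset.mem_filter] at hw ⊢
    refine ⟨hw.1, fun h2 => hw.2 ?_⟩
    refine le_trans ?_ (h2.trans (Set.encard_le_encard (zs_mono _ (by exact_mod_cast le_max_left R k))))
    exact_mod_cast (by omega : k ≤ 2 * k)
  choose R T₁ hR hT₁ using h1
  refine ⟨R, hR, fun ξ => Pool.Agent.V8H73.AZ.diag
    (fun k T => ((bx S T).filter fun w => ¬ GoodE ξ k (R k) T w).card) (fun T => (bx S T).card) fun k => ?_⟩
  obtain ⟨T₂, hT₂⟩ := Pool.Agent.V8H73.AN.fixed hS ξ (2 * k + R k)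
  refine ⟨max (max (T₁ k) T₂) 1, fun T hT => ?_⟩
  simp only [max_le_iff] at hT
  obtain ⟨⟨hTa, hTb⟩, hTc⟩ := hT
  have hTr : (1 : ℝ) ≤ T := by exact_mod_cast hTc
  have hsub : ((bx S T).filter fun w => ¬ GoodE ξ k (R k) T w) ⊆
      ((bx S T).filter fun w => ¬ (k : ℕ∞) ≤ (zs (cn w) (R k)).encard) ∪
      ((bx S T).filter fun w => ¬ GoodS ξ (2 * k + R k) T w) := by
    intro w hw
    rw [Finset.mem_filter] at hw
    rw [Finset.mem_union, Finset.mem_filter, Finset.mem_filter]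
    by_cases h2 : (k : ℕ∞) ≤ (zs (cn w) (R k)).encard
    · refine Or.inr ⟨hw.1, fun h3 => hw.2 ⟨h2, fun z hz hz0 => h3.1 z (hz.trans ?_) hz0, ?_⟩⟩
      · exact_mod_cast (by omega : R k ≤ 2 * k + R k)
      · have hle : (R k : ℝ) ≤ ((2 * k + R k : ℕ) : ℝ) := by exact_mod_cast (by omega : R k ≤ 2 * k + R k)
        have h4 := Pool.Agent.V8H73.AZ.norel_mono (by omega : k ≤ 2 * k + R k) hTr h3.2
        exact Pool.Agent.V8H73.AZ.norel_comp (by linarith) h4
          (fun q : {z : Fin n → ℂ // ‖z‖ ≤ R k ∧ Ph (cn w) z = 0} × Fin n =>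
            ((⟨q.1.1, q.1.2.1.trans hle, q.1.2.2⟩ : {z : Fin n → ℂ // ‖z‖ ≤ ((2 * k + R k : ℕ) : ℝ) ∧ Ph (cn w) z = 0}), q.2))
          (by
            rintro ⟨⟨z, hz⟩, l⟩ ⟨⟨z', hz'⟩, l'⟩ h
            simp only [Prod.mk.injEq, Subtype.mk.injEq] at h
            obtain ⟨rfl, rfl⟩ := h
            rfl)
    · exact Or.inl ⟨hw.1, h2⟩
  have h2 := hT₁ k T hTa
  have h3 := hT₂ T hTb
  have h4 := (Finset.card_le_card hsub).trans (Finset.card_union_le _ _)
  have h5 : (2 * k) * ((bx S T).filter fun w => ¬ GoodS ξ (2 * k + R k) T w).card ≤ (bx S T).card :=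
    le_trans (Nat.mul_le_mul_right _ (by omega)) h3
  have h6 : 2 * (k * ((bx S T).filter fun w => ¬ GoodE ξ k (R k) T w).card) ≤ 2 * (bx S T).card := by
    calc 2 * (k * ((bx S T).filter fun w => ¬ GoodE ξ k (R k) T w).card) =
          (2 * k) * ((bx S T).filter fun w => ¬ GoodE ξ k (R k) T w).card := by ring
      _ ≤ (2 * k) * (_ + _) := Nat.mul_le_mul_left _ h4
      _ = _ + _ := Nat.mul_add _ _ _
      _ ≤ (bx S T).card + (bx S T).card := Nat.add_le_add h2 h5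
      _ = _ := by ring
  exact Nat.le_of_mul_le_mul_left h6 (by omega)

end Pool.Agent.V8H73.SE
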