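import Pool.Agent.V8H73.SE.Hom

/-!
# Fields of definition
-/

set_option autoImplicit false
set_option linter.unusedSectionVars false

open MvPolynomial

namespace Pool.Agent.V8H73.SE

/-- numbers fixed by all automorphisms over a countable field -/
theorem fix_mem {E : Subfield ℂ} [Countable E] {x : ℂ} (h : ∀ σ : ℂ ≃+* ℂ, (∀ a ∈ E, σ a = a) → σ x = x) :
    x ∈ E := by
  classical
  by_contra hx
  by_cases hal : IsAlgebraic E x
  · have hint := hal.isIntegral
    have hdeg : 1 < (minpoly E x).natDegree := by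
      have h1 := minpoly.natDegree_pos hint
      have h2 : (minpoly E x).natDegree ≠ 1 := by
        intro h3
        obtain ⟨a, ha⟩ := minpoly.natDegree_eq_one_iff.1 h3
        exact hx (by rw [← ha]; exact a.2)
      omega
    have hsep : (minpoly E x).Separable := (minpoly.irreducible hint).separable
    have hcard := Polynomial.card_rootSet_eq_natDegree (K := ℂ) hsep (IsAlgClosed.splits _)
    have hxr : x ∈ (minpoly E x).rootSet ℂ := by
      rw [Polynomial.mem_rootSet]
      exact ⟨minpoly.ne_zero hint, minpoly.aeval E x⟩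
    obtain ⟨⟨x', hx'⟩, hne⟩ := Fintype.exists_ne_of_one_lt_card (by rw [hcard]; exact hdeg)
      (⟨x, hxr⟩ : (minpoly E x).rootSet ℂ)
    have hne' : x' ≠ x := fun h1 => hne (Subtype.ext h1)
    have hmp : minpoly E x = minpoly E x' :=
      minpoly.eq_of_irreducible_of_monic (minpoly.irreducible hint) (Polynomial.mem_rootSet.1 hx').2
        (minpoly.monic hint)
    have hrel : ∀ f : MvPolynomial Unit E, aeval (fun _ : Unit => x) f = 0 ↔ aeval (fun _ : Unit => x') f = 0 := by
      have h1 : ∀ (y : ℂ) (f : MvPolynomial Unit E), aeval (fun _ : Unit => y) f =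
          Polynomial.aeval y (MvPolynomial.pUnitAlgEquiv E f) := by
        intro y f
        have h2 : (aeval (fun _ : Unit => y) : MvPolynomial Unit E →ₐ[E] ℂ) =
            (Polynomial.aeval y).comp (MvPolynomial.pUnitAlgEquiv E).toAlgHom := by
          refine MvPolynomial.algHom_ext fun i => ?_
          simp
        rw [h2]
        rfl
      intro f
      rw [h1, h1, ← minpoly.dvd_iff, ← minpoly.dvd_iff, hmp]
    obtain ⟨σ, h1, h2⟩ := same_rel (E := E) hrel
    exact hne' (by rw [← h2 ()]; exact h σ fun a ha => h1 ⟨a, ha⟩)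
  · have h1 : AlgebraicIndependent E (fun _ : Unit => x) := algebraicIndependent_unique_type_iff.2 hal
    have h2 : AlgebraicIndependent E (fun _ : Unit => x + 1) := by
      refine algebraicIndependent_unique_type_iff.2 fun h3 => hal ?_
      have h4 := h3.sub (isAlgebraic_one (R := E) (A := ℂ))
      rwa [add_sub_cancel_right] at h4
    obtain ⟨σ, h3, h4⟩ := exists_sigma h1 h2
    have h5 := h σ fun a ha => h3 ⟨a, ha⟩
    rw [h4 ()] at h5
    simp at h5

/-- **Descent.** -/
theorem descent {E : Subfield ℂ} [Countable E] {κ : Type} {P : Ideal (MvPolynomial κ ℂ)}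
    (h : ∀ σ : ℂ ≃+* ℂ, (∀ a ∈ E, σ a = a) → ∀ f ∈ P, map (σ : ℂ →+* ℂ) f ∈ P) :
    P = Ideal.span {f : MvPolynomial κ ℂ | f ∈ P ∧ ∀ mo, f.coeff mo ∈ E} := by
  classical
  refine le_antisymm (fun f hf => ?_) (Ideal.span_le.2 fun f hf => hf.1)
  suffices key : ∀ (N : ℕ) (f : MvPolynomial κ ℂ), f ∈ P → f.support.card = N →
      f ∈ Ideal.span {f : MvPolynomial κ ℂ | f ∈ P ∧ ∀ mo, f.coeff mo ∈ E} from key _ f hf rfl
  intro N
  induction N using Nat.strong_induction_on with
  | _ N ih =>
    intro f hf hN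
    by_cases hf0 : f = 0
    · rw [hf0]
      exact Ideal.zero_mem _
    by_cases hcase : ∃ g ∈ P, g ≠ 0 ∧ g.support ⊂ f.support
    · obtain ⟨g, hg, hg0, hgs⟩ := hcase
      have h1 := ih _ (hN ▸ Finset.card_lt_card hgs) g hg rfl
      obtain ⟨m, hm⟩ := Finset.nonempty_iff_ne_empty.2 fun h2 => hg0 (support_eq_empty.1 h2)
      have hgm : g.coeff m ≠ 0 := mem_support_iff.1 hm
      have h2 : f - C (f.coeff m / g.coeff m) * g ∈ P := P.sub_mem hf (P.mul_mem_left _ hg)
      have h3 : (f - C (f.coeff m / g.coeff m) * g).support ⊂ f.support := by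
        refine Finset.ssubset_iff_subset_ne.2 ⟨fun m' hm' => ?_, fun h4 => ?_⟩
        · by_contra h5
          have h6 : f.coeff m' = 0 := notMem_support_iff.1 h5
          have h7 : g.coeff m' = 0 := notMem_support_iff.1 fun h8 => h5 (hgs.1 h8)
          rw [mem_support_iff, coeff_sub, coeff_C_mul, h6, h7, mul_zero, sub_zero] at hm'
          exact hm' rfl
        · have h5 : m ∈ (f - C (f.coeff m / g.coeff m) * g).support := by
            rw [h4]
            exact hgs.1 hm
          rw [mem_support_iff, coeff_sub, coeff_C_mul, div_mul_cancel₀ _ hgm, sub_self] at h5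
          exact h5 rfl
      have h4 := ih _ (hN ▸ Finset.card_lt_card h3) _ h2 rfl
      have h5 : f = (f - C (f.coeff m / g.coeff m) * g) + C (f.coeff m / g.coeff m) * g := by ring
      rw [h5]
      exact Ideal.add_mem _ h4 (Ideal.mul_mem_left _ _ h1)
    · push Not at hcase
      obtain ⟨m, hm⟩ := Finset.nonempty_iff_ne_empty.2 fun h2 => hf0 (support_eq_empty.1 h2)
      have hfm : f.coeff m ≠ 0 := mem_support_iff.1 hm
      set f1 : MvPolynomial κ ℂ := C (f.coeff m)⁻¹ * f with hf1
      have h1 : f1 ∈ P := P.mul_mem_left _ hf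
      have hc1 : f1.coeff m = 1 := by rw [hf1, coeff_C_mul, inv_mul_cancel₀ hfm]
      have hs1 : ∀ m', f.coeff m' = 0 → f1.coeff m' = 0 := fun m' hm' => by rw [hf1, coeff_C_mul, hm', mul_zero]
      have h2 : ∀ σ : ℂ ≃+* ℂ, (∀ a ∈ E, σ a = a) → map (σ : ℂ →+* ℂ) f1 = f1 := by
        intro σ hσ
        by_contra hne
        have h3 : map (σ : ℂ →+* ℂ) f1 - f1 ∈ P := P.sub_mem (h σ hσ f1 h1) h1
        refine hcase _ h3 (sub_ne_zero.2 hne) (Finset.ssubset_iff_subset_ne.2 ⟨fun m' hm' => ?_, fun h4 => ?_⟩)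
        · by_contra h5
          have h6 := hs1 m' (notMem_support_iff.1 h5)
          rw [mem_support_iff, coeff_sub, coeff_map, h6, map_zero, sub_zero] at hm'
          exact hm' rfl
        · have h5 : m ∈ (map (σ : ℂ →+* ℂ) f1 - f1).support := by
            rw [h4]
            exact hm
          rw [mem_support_iff, coeff_sub, coeff_map, hc1, map_one, sub_self] at h5
          exact h5 rfl
      have h3 : ∀ mo, f1.coeff mo ∈ E := by
        intro mo
        refine fix_mem fun σ hσ => ?_
        have h4 := congrArg (coeff mo) (h2 σ hσ)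
        rw [coeff_map] at h4
        exact h4
      have h4 : f = C (f.coeff m) * f1 := by
        rw [hf1, ← mul_assoc, ← C_mul, mul_inv_cancel₀ hfm, C_1, one_mul]
      rw [h4]
      exact Ideal.mul_mem_left _ _ (Ideal.subset_span ⟨h1, h3⟩)

end Pool.Agent.V8H73.SE
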