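import Pool.Agent.V8H73.AN.Blk

/-!
# Genericity over finitely generated extensions
-/

set_option autoImplicit false
set_option linter.unusedSectionVars false

namespace Pool.Agent.V8H73.SE

variable {K L : Type*} [Field K] [Field L] [Algebra K L]

/-- a derivation which kills a set is a derivation over the generated field -/
theorem der_adjoin (s : Set L) (δ : Derivation K L L) (h : ∀ x ∈ s, δ x = 0) :
    ∀ x : IntermediateField.adjoin K s, δ (x : L) = 0 := by
  let A : IntermediateField K L :=
    { carrier := {x | δ x = 0}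
      mul_mem' := fun {a b} ha hb => by
        change δ (a * b) = 0
        rw [Derivation.leibniz, show δ a = 0 from ha, show δ b = 0 from hb, smul_zero, smul_zero, add_zero]
      add_mem' := fun {a b} ha hb => by
        change δ (a + b) = 0
        rw [map_add, show δ a = 0 from ha, show δ b = 0 from hb, add_zero]
      algebraMap_mem' := fun r => Derivation.map_algebraMap δ r
      inv_mem' := fun a ha => by
        change δ a⁻¹ = 0
        rw [Derivation.leibniz_inv, show δ a = 0 from ha, smul_zero] }
  have h1 : IntermediateField.adjoin K s ≤ A := IntermediateField.adjoin_le_iff.2 h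
  exact fun x => h1 x.2

/-- the derivation over the generated field -/
noncomputable def derA (s : Set L) (δ : Derivation K L L) (h : ∀ x ∈ s, δ x = 0) :
    Derivation (IntermediateField.adjoin K s) L L where
  toFun := δ
  map_add' := fun a b => map_add δ a b
  map_smul' := fun a b => by
    have h1 := der_adjoin s δ h a
    have h2 : a • b = (a : L) * b := rfl
    rw [h2, Derivation.leibniz, h1, smul_zero, add_zero]
    rfl
  map_one_eq_zero' := Derivation.map_one_eq_zero δ
  leibniz' := fun a b => Derivation.leibniz δ a b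

theorem derA_apply (s : Set L) (δ : Derivation K L L) (h : ∀ x ∈ s, δ x = 0) (x : L) : derA s δ h x = δ x := rfl

/-- a dependent family has a relation between the derivatives -/
theorem exists_rel [CharZero K] {n : ℕ} {z : Fin n → L} (h : ¬ AlgebraicIndependent K z) :
    ∃ a : Fin n → L, a ≠ 0 ∧ ∀ δ : Derivation K L L, ∑ l, a l * δ (z l) = 0 := by
  let LZ : Derivation K L L →ₗ[L] (Fin n → L) :=
    { toFun := fun δ l => δ (z l), map_add' := fun _ _ => rfl, map_smul' := fun _ _ => rfl }
  have h1 : LinearMap.range LZ ≠ ⊤ := fun h2 => h (Pool.Agent.H135R2.VS.algInd_of_der fun v => by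
    obtain ⟨D, hD⟩ := LinearMap.range_eq_top.1 h2 v
    exact ⟨D, fun s => congrFun hD s⟩)
  obtain ⟨f, hf0, hf⟩ := Submodule.exists_le_ker_of_lt_top _ (lt_top_iff_ne_top.2 h1)
  refine ⟨fun l => f (Pi.single l 1), fun h0 => hf0 ?_, fun δ => ?_⟩
  · refine LinearMap.pi_ext' fun l => LinearMap.ext_ring ?_
    exact congrFun h0 l
  · have h2 : f (LZ δ) = 0 := hf ⟨δ, rfl⟩
    have h3 : LZ δ = ∑ l, (δ (z l)) • (Pi.single l 1 : Fin n → L) := by
      funext i
      rw [Finset.sum_apply, Finset.sum_eq_single i]
      · simp [LZ]
      · intro l _ hl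
        simp [Pi.single_eq_of_ne (Ne.symm hl)]
      · intro h
        exact absurd (Finset.mem_univ _) h
    rw [h3, map_sum] at h2
    rw [← h2]
    exact Finset.sum_congr rfl fun l _ => by rw [map_smul, smul_eq_mul, mul_comm]

/-- **Over an extension with `m` generators all but `m` of the points are generic.** -/
theorem fg [CharZero K] {S : Type*} [Fintype S] {n : ℕ} (c : S → L) (Z : Set (Fin n → L))
    (h : AlgebraicIndependent K (Sum.elim c fun q : Z × Fin n => (q.1 : Fin n → L) q.2)) (m : ℕ) (t : Fin m → L) :
    {z | z ∈ Z ∧ ¬ AlgebraicIndependent (IntermediateField.adjoin K (Set.range c ∪ Set.range t)) z}.encard ≤ m := by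
  classical
  by_contra hcon
  rw [not_le] at hcon
  obtain ⟨A, hA, hAc⟩ := Set.exists_subset_encard_eq (Order.add_one_le_of_lt hcon)
  have hfin : A.Finite := Set.finite_of_encard_eq_coe (k := m + 1) (by rw [hAc]; push_cast; rfl)
  have hfT : Fintype A := hfin.fintype
  have hcard : Fintype.card A = m + 1 := by
    have h1 : A.encard = Fintype.card A := by
      rw [Set.encard_eq_coe_toFinset_card, Set.toFinset_card]
    rw [h1] at hAc
    exact_mod_cast hAc
  have hrel := fun z : A => exists_rel (K := IntermediateField.adjoin K (Set.range c ∪ Set.range t)) (hA z.2).2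
  choose a ha0 ha using hrel
  have hl : ∀ z : A, ∃ l, a z l ≠ 0 := fun z => Function.ne_iff.1 (ha0 z)
  choose l hl using hl
  -- the families
  let W : S ⊕ (A × Fin n) → L := Sum.elim c fun q => (q.1 : Fin n → L) q.2
  let Zf : S ⊕ (Fin m ⊕ {q : A × Fin n // q.2 ≠ l q.1}) → L :=
    Sum.elim c (Sum.elim t fun q => (q.1.1 : Fin n → L) q.1.2)
  have hW : AlgebraicIndependent K W := by
    have h1 := h.comp (Sum.map id (Prod.map (fun z : A => (⟨z.1, (hA z.2).1⟩ : Z)) id))
      (Function.injective_id.sumMap (Function.Injective.prodMap (fun z z' hz => Subtype.ext (congrArg (fun u : Z => (u : Fin n → L)) hz))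
        Function.injective_id))
    have h2 : (Sum.elim c fun q : Z × Fin n => (q.1 : Fin n → L) q.2) ∘
        (Sum.map id (Prod.map (fun z : A => (⟨z.1, (hA z.2).1⟩ : Z)) id)) = W := by
      funext o
      rcases o with q | q <;> rfl
    rwa [h2] at h1
  have h3 := (Pool.Agent.V8H73.AN.count hW (Z := Zf) fun δ hδ => ?_).1
  · have e1 : Fintype.card {q : A × Fin n // q.2 ≠ l q.1} = Fintype.card (A × Fin n) - Fintype.card A := by
      have e2 : Fintype.card {q : A × Fin n // q.2 = l q.1} = Fintype.card A := by
        refine Fintype.card_congr ⟨fun q => q.1.1, fun z => ⟨(z, l z), rfl⟩, fun q => ?_, fun z => rfl⟩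
        rcases q with ⟨⟨z, i⟩, hq⟩
        change i = l z at hq
        subst hq
        rfl
      rw [← e2]
      exact Fintype.card_subtype_compl fun q : A × Fin n => q.2 = l q.1
    have e3 : 1 ≤ n := by
      have : 0 < Fintype.card A := by omega
      obtain ⟨z⟩ := Fintype.card_pos_iff.1 this
      exact (l z).pos
    rw [Fintype.card_sum, Fintype.card_sum, Fintype.card_sum, e1, Fintype.card_prod, Fintype.card_fin,
      Fintype.card_fin, hcard] at h3
    have e4 : m + 1 ≤ (m + 1) * n := Nat.le_mul_of_pos_right _ e3
    omega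
  · have hc : ∀ x ∈ Set.range c ∪ Set.range t, δ x = 0 := by
      rintro x (⟨s, rfl⟩ | ⟨i, rfl⟩)
      · exact hδ (Sum.inl s)
      · exact hδ (Sum.inr (Sum.inl i))
    rintro (s | ⟨z, i⟩)
    · exact hδ (Sum.inl s)
    · by_cases hi : i = l z
      · subst hi
        have h4 := ha z (derA _ δ hc)
        rw [Finset.sum_eq_single (l z)] at h4
        · exact (mul_eq_zero.1 h4).resolve_left (hl z)
        · intro j _ hj
          have h5 : δ ((z : Fin n → L) j) = 0 := hδ (Sum.inr (Sum.inr ⟨(z, j), hj⟩))
          rw [derA_apply, h5, mul_zero]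
        · intro h5
          exact absurd (Finset.mem_univ _) h5
      · exact hδ (Sum.inr (Sum.inr ⟨(z, i), hi⟩))

end Pool.Agent.V8H73.SE
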