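import Pool.Agent.V8H73.SE.Lead
import Pool.Agent.V8H73.SE.Fg

/-!
# Torus zeros of generic systems are nondegenerate
-/

set_option autoImplicit false
set_option linter.unusedSectionVars false

namespace Pool.Agent.V8H73.SE

open Pool.Agent.V8H73.AN (Ex)

section tools

variable {K L : Type*} [Field K] [Field L] [Algebra K L]

/-- counting, the converse direction -/
theorem count' [CharZero K] {τ σ : Type*} [Fintype τ] [Fintype σ] {W : τ → L} (hW : AlgebraicIndependent K W)
    {Z : σ → L} (hc : Fintype.card τ = Fintype.card σ)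
    (h : ∀ δ : Derivation K L L, (∀ s, δ (Z s) = 0) → ∀ t, δ (W t) = 0) (δ : Derivation K L L)
    (hδ : ∀ t, δ (W t) = 0) : ∀ s, δ (Z s) = 0 := by
  classical
  let LW : Derivation K L L →ₗ[L] (τ → L) :=
    { toFun := fun δ t => δ (W t), map_add' := fun _ _ => rfl, map_smul' := fun _ _ => rfl }
  let LZ : Derivation K L L →ₗ[L] (σ → L) :=
    { toFun := fun δ t => δ (Z t), map_add' := fun _ _ => rfl, map_smul' := fun _ _ => rfl }
  have hsur : Function.Surjective LW := fun v => by
    obtain ⟨D, hD⟩ := Pool.Agent.H135R2.VS.exists_der hW v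
    exact ⟨D, funext hD⟩
  have hker : LinearMap.ker LZ ≤ LinearMap.ker LW := by
    intro δ hδ
    rw [LinearMap.mem_ker] at hδ ⊢
    exact funext fun t => h δ (fun s => congrFun hδ s) t
  let g : (Derivation K L L ⧸ LinearMap.ker LZ) →ₗ[L] (τ → L) := (LinearMap.ker LZ).liftQ LW hker
  have hg : Function.Surjective g := by
    intro v
    obtain ⟨δ, hδ⟩ := hsur v
    exact ⟨Submodule.Quotient.mk δ, hδ⟩
  let e : (Derivation K L L ⧸ LinearMap.ker LZ) ≃ₗ[L] LinearMap.range LZ := LZ.quotKerEquivRange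
  have hfd : Module.Finite L (Derivation K L L ⧸ LinearMap.ker LZ) := Module.Finite.equiv e.symm
  have h1 : Fintype.card τ ≤ Module.finrank L (Derivation K L L ⧸ LinearMap.ker LZ) := by
    rw [← Module.finrank_fintype_fun_eq_card L]
    exact LinearMap.finrank_le_finrank_of_surjective hg
  have h2 : Module.finrank L (Derivation K L L ⧸ LinearMap.ker LZ) ≤ Fintype.card σ := by
    rw [e.finrank_eq, ← Module.finrank_fintype_fun_eq_card L (η := σ)]
    exact Submodule.finrank_le _
  have h3 : Module.finrank L (Derivation K L L ⧸ LinearMap.ker LZ) = Module.finrank L (τ → L) := by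
    rw [Module.finrank_fintype_fun_eq_card]
    omega
  have hinj : Function.Injective g := (LinearMap.injective_iff_surjective_of_finrank_eq_finrank h3).2 hg
  have h4 : g (Submodule.Quotient.mk δ) = 0 := funext fun t => hδ t
  have h5 : (Submodule.Quotient.mk δ : Derivation K L L ⧸ LinearMap.ker LZ) = 0 := hinj (by rw [h4, map_zero])
  have h6 : δ ∈ LinearMap.ker LZ := (Submodule.Quotient.mk_eq_zero _).1 h5
  exact fun s => congrFun (LinearMap.mem_ker.1 h6) s

/-- killed elements are algebraic -/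
theorem alg_of_kill [CharZero K] {x : L} (h : ∀ δ : Derivation K L L, δ x = 0) : IsAlgebraic K x := by
  by_contra hx
  have h1 : AlgebraicIndependent K (fun _ : Unit => x) := algebraicIndependent_unique_type_iff.2 hx
  obtain ⟨D, hD⟩ := Pool.Agent.H135R2.VS.exists_der h1 fun _ => 1
  have h2 := hD ()
  rw [h D] at h2
  exact zero_ne_one h2

end tools

variable {n : ℕ} {S : Finset (Fin n × Ex n)} {κ : Fin n ⊕ Fin n → ℤ} {h : Fin n → ℤ}
  {K L : Type*} [Field K] [Field L] [Algebra K L]

theorem der_prod (δ : Derivation K L L) {y : Fin n → L} (hy : ∀ l, y l ≠ 0) (e : Fin n → ℕ) (s : Finset (Fin n)) :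
    δ (∏ l ∈ s, y l ^ e l) = (∏ l ∈ s, y l ^ e l) * ∑ l ∈ s, (δ (y l) / y l) * (e l : L) := by
  classical
  induction s using Finset.induction_on with
  | empty => simp
  | insert l s hl ih =>
    rw [Finset.prod_insert hl, Finset.sum_insert hl, Derivation.leibniz, ih, Derivation.leibniz_pow]
    simp only [smul_eq_mul, nsmul_eq_mul]
    rcases Nat.eq_zero_or_pos (e l) with h0 | h0
    · rw [h0]
      simp
    · obtain ⟨m, hm⟩ : ∃ m, e l = m + 1 := ⟨e l - 1, by omega⟩
      rw [hm, Nat.add_sub_cancel]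
      have h1 := hy l
      field_simp
      ring

theorem der_mon (δ : Derivation K L L) {τ : L} (hτ : δ τ = 0) {y : Fin n → L} (hy : ∀ l, y l ≠ 0) (e : Ex n) :
    δ (mon τ y e) = mon τ y e * ∑ l, (δ (y l) / y l) * (e (Sum.inr l) : L) := by
  unfold mon
  rw [Derivation.leibniz, Derivation.leibniz_pow, hτ, der_prod δ hy (fun l => e (Sum.inr l))]
  simp only [smul_eq_mul]
  simp
  ring

theorem der_Lp (δ : Derivation K L L) {τ : L} (hτ : δ τ = 0) {y : Fin n → L} (hy : ∀ l, y l ≠ 0) (c : S → L)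
    (j : Fin n) : δ (Lp κ h c τ y j) =
      (∑ q : S, if q.1.1 = j ∧ wt κ q.1.2 = h j then δ (c q) * mon τ y q.1.2 else 0) +
      ∑ l, Dp κ h c τ y j l * (δ (y l) / y l) := by
  unfold Lp Dp
  simp only [Matrix.of_apply, Finset.sum_mul]
  rw [map_sum, Finset.sum_comm, ← Finset.sum_add_distrib]
  refine Finset.sum_congr rfl fun q _ => ?_
  split_ifs
  · rw [Derivation.leibniz, der_mon δ hτ hy, smul_eq_mul, smul_eq_mul, Finset.mul_sum, Finset.mul_sum, add_comm,
      mul_comm (mon τ y q.1.2)]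
    congr 1
    exact Finset.sum_congr rfl fun l _ => by ring
  · simp

/-- **Torus zeros of generic systems are nondegenerate.** -/
theorem nondeg [CharZero K] (q0 : Fin n → S) (hq : ∀ j, (q0 j).1.1 = j ∧ wt κ (q0 j).1.2 = h j) {τ : L}
    (hτ : ∃ a, algebraMap K L a = τ) (hτ0 : τ ≠ 0) {c : S → L} (hc : AlgebraicIndependent K c) {y : Fin n → L}
    (hy : ∀ l, y l ≠ 0) (h0 : ∀ j, Lp κ h c τ y j = 0) : (Dp κ h c τ y).det ≠ 0 := by
  classical
  have hinj : Function.Injective q0 := fun i j hij => by rw [← (hq i).1, ← (hq j).1, hij]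
  have hkτ : ∀ δ : Derivation K L L, δ τ = 0 := by
    obtain ⟨a, rfl⟩ := hτ
    exact fun δ => Derivation.map_algebraMap δ a
  have hm : ∀ e : Ex n, mon τ y e ≠ 0 := fun e =>
    mul_ne_zero (pow_ne_zero _ hτ0) (Finset.prod_ne_zero_iff.2 fun l _ => pow_ne_zero _ (hy l))
  -- the last coefficients
  have hlast : ∀ δ : Derivation K L L, (∀ q : S, (∀ j, q ≠ q0 j) → δ (c q) = 0) →
      (∀ j, ∑ l, Dp κ h c τ y j l * (δ (y l) / y l) = 0) → ∀ q, δ (c q) = 0 := by
    intro δ h1 h2 q
    by_cases hqj : ∃ j, q = q0 j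
    · obtain ⟨j, rfl⟩ := hqj
      have h3 := der_Lp (κ := κ) (h := h) δ (hkτ δ) hy c j
      rw [h0 j, map_zero, h2 j, add_zero, Finset.sum_eq_single (q0 j)] at h3
      · rw [if_pos (hq j)] at h3
        exact (mul_eq_zero.1 h3.symm).resolve_right (hm _)
      · intro q _ hqne
        split_ifs with h4
        · have h5 : ∀ i, q ≠ q0 i := by
            intro i hi
            have h6 : i = j := by rw [← (hq i).1, ← hi]; exact h4.1
            exact hqne (by rw [hi, h6])
          rw [h1 q h5, zero_mul]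
        · rfl
      · intro h4
        exact absurd (Finset.mem_univ _) h4
    · exact h1 q fun j hj => hqj ⟨j, hj⟩
  let Z : {q : S // ∀ j, q ≠ q0 j} ⊕ Fin n → L := Sum.elim (fun q => c q.1) y
  have hcard : Fintype.card S = Fintype.card ({q : S // ∀ j, q ≠ q0 j} ⊕ Fin n) := by
    have e1 : {q : S // ∀ j, q ≠ q0 j} ⊕ Fin n ≃ S :=
      (Equiv.sumCongr (Equiv.subtypeEquivRight fun q => by simp [eq_comm]) (Equiv.ofInjective q0 hinj)).trans
        ((Equiv.sumComm _ _).trans (Equiv.Set.sumCompl (Set.range q0)))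
    exact (Fintype.card_congr e1).symm
  have hkill : ∀ δ : Derivation K L L, (∀ s, δ (Z s) = 0) → ∀ t, δ (c t) = 0 := by
    intro δ hδ
    refine hlast δ (fun q hq => hδ (Sum.inl ⟨q, hq⟩)) fun j => Finset.sum_eq_zero fun l _ => ?_
    have h1 : δ (y l) = 0 := hδ (Sum.inr l)
    rw [h1, zero_div, mul_zero]
  have hZ : AlgebraicIndependent K Z := (Pool.Agent.V8H73.AN.count hc hkill).2 hcard
  intro hdet
  obtain ⟨v, hv, hv'⟩ := Matrix.exists_mulVec_eq_zero_iff.2 hdet
  obtain ⟨D, hD⟩ := Pool.Agent.H135R2.VS.exists_der hZ (Sum.elim (fun _ => 0) fun l => y l * v l)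
  have h1 : ∀ l, D (y l) = y l * v l := fun l => hD (Sum.inr l)
  have h2 : ∀ q, D (c q) = 0 := by
    refine hlast D (fun q hq => hD (Sum.inl ⟨q, hq⟩)) fun j => ?_
    have h3 := congrFun hv' j
    refine Eq.trans (Finset.sum_congr rfl fun l _ => ?_) h3
    rw [h1 l, mul_div_assoc, mul_comm (y l), div_mul_cancel₀ _ (hy l)]
  have h3 := count' hc hcard hkill D h2
  apply hv
  funext l
  have h4 : D (y l) = 0 := h3 (Sum.inr l)
  rw [h1 l] at h4
  exact (mul_eq_zero.1 h4).resolve_left (hy l)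

end Pool.Agent.V8H73.SE
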