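import Pool.Agent.V8H73.SE.Lead
import Pool.Agent.V8H73.AN.AeR

/-!
# Existence of infinitely many solutions
-/

set_option autoImplicit false
set_option linter.unusedSectionVars false

open Set Filter
open scoped Topology

namespace Pool.Agent.V8H73.SE

open Pool.Agent.V8H73.AN (Ex one_zero)

variable {n : ℕ} {S : Finset (Fin n × Ex n)} {κ : Fin n ⊕ Fin n → ℤ} {h : Fin n → ℤ}

/-- `2 π i` -/
noncomputable def tp : ℂ := 2 * Real.pi * Complex.I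

theorem tp_ne : tp ≠ 0 := Complex.two_pi_I_ne_zero

/-- the equations near infinity -/
noncomputable def Fn (κ : Fin n ⊕ Fin n → ℤ) (h : Fin n → ℤ) (x : (S → ℂ) × (ℂ × ℂ)) (w : Fin n → ℂ) (j : Fin n) : ℂ :=
  ∑ q : S, if q.1.1 = j then x.1 q * (x.2.1 ^ (h j - wt κ q.1.2).toNat *
    ((∏ l, (tp + κ (Sum.inr l) * (x.2.2 * x.2.1 ^ ((κ (Sum.inl l)).toNat - 1)) +
      x.2.1 ^ (κ (Sum.inl l)).toNat * w l) ^ q.1.2 (Sum.inl l)) * ∏ l, Complex.exp (w l) ^ q.1.2 (Sum.inr l))) else 0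

theorem Fn_an (v : ((S → ℂ) × (ℂ × ℂ)) × (Fin n → ℂ)) :
    AnalyticAt ℂ (fun v : ((S → ℂ) × (ℂ × ℂ)) × (Fin n → ℂ) => Fn κ h v.1 v.2) v := by
  have hc : ∀ q : S, AnalyticAt ℂ (fun v : ((S → ℂ) × (ℂ × ℂ)) × (Fin n → ℂ) => v.1.1 q) v := fun q =>
    ((ContinuousLinearMap.proj (R := ℂ) (φ := fun _ : S => ℂ) q).comp
      ((ContinuousLinearMap.fst ℂ (S → ℂ) (ℂ × ℂ)).comp
        (ContinuousLinearMap.fst ℂ ((S → ℂ) × (ℂ × ℂ)) (Fin n → ℂ)))).analyticAt v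
  have he : AnalyticAt ℂ (fun v : ((S → ℂ) × (ℂ × ℂ)) × (Fin n → ℂ) => v.1.2.1) v :=
    ((ContinuousLinearMap.fst ℂ ℂ ℂ).comp ((ContinuousLinearMap.snd ℂ (S → ℂ) (ℂ × ℂ)).comp
        (ContinuousLinearMap.fst ℂ ((S → ℂ) × (ℂ × ℂ)) (Fin n → ℂ)))).analyticAt v
  have hd : AnalyticAt ℂ (fun v : ((S → ℂ) × (ℂ × ℂ)) × (Fin n → ℂ) => v.1.2.2) v :=
    ((ContinuousLinearMap.snd ℂ ℂ ℂ).comp ((ContinuousLinearMap.snd ℂ (S → ℂ) (ℂ × ℂ)).comp
        (ContinuousLinearMap.fst ℂ ((S → ℂ) × (ℂ × ℂ)) (Fin n → ℂ)))).analyticAt v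
  have hw : ∀ l, AnalyticAt ℂ (fun v : ((S → ℂ) × (ℂ × ℂ)) × (Fin n → ℂ) => v.2 l) v := fun l =>
    ((ContinuousLinearMap.proj (R := ℂ) (φ := fun _ : Fin n => ℂ) l).comp
        (ContinuousLinearMap.snd ℂ ((S → ℂ) × (ℂ × ℂ)) (Fin n → ℂ))).analyticAt v
  rw [analyticAt_pi_iff]
  intro j
  refine Finset.analyticAt_fun_sum _ fun q _ => ?_
  by_cases hq : q.1.1 = j
  · simp only [if_pos hq]
    refine (hc q).mul ((he.pow _).mul ((Finset.analyticAt_fun_prod _ fun l _ => ?_).mul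
      (Finset.analyticAt_fun_prod _ fun l _ => ?_)))
    · exact ((analyticAt_const.add (analyticAt_const.mul (hd.mul (he.pow _)))).add ((he.pow _).mul (hw l))).pow _
    · exact (hw l).cexp.pow _
  · simp only [if_neg hq]
    exact analyticAt_const

theorem Fn_zero (hκ : ∀ l, 1 ≤ κ (Sum.inl l)) (hh : ∀ q ∈ S, wt κ q.2 ≤ h q.1) (c : S → ℂ) (w : Fin n → ℂ) :
    Fn κ h (c, 0, 0) w = Lp κ h c tp fun l => Complex.exp (w l) := by
  funext j
  have hr : ∀ l, (κ (Sum.inl l)).toNat ≠ 0 := fun l h1 => by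
    have h2 := hκ l
    rw [Int.toNat_eq_zero] at h1
    omega
  unfold Fn Lp
  refine Finset.sum_congr rfl fun q _ => ?_
  by_cases hj : q.1.1 = j
  · have h1 := hh q.1 q.2
    rw [hj] at h1
    rw [if_pos hj]
    by_cases hw : wt κ q.1.2 = h j
    · rw [if_pos ⟨hj, hw⟩, hw, sub_self]
      unfold mon
      simp only [Int.toNat_zero, pow_zero, one_mul, mul_zero, zero_mul, add_zero, zero_pow (hr _)]
      rw [Finset.prod_pow_eq_pow_sum]
    · rw [if_neg fun h2 => hw h2.2]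
      have h2 : (h j - wt κ q.1.2).toNat ≠ 0 := by
        intro h3
        rw [Int.toNat_eq_zero] at h3
        omega
      simp only [zero_pow h2, zero_mul, mul_zero]
  · rw [if_neg hj, if_neg fun h2 => hj h2.1]

/-- the derivative of the leading parts -/
noncomputable def DL (κ : Fin n ⊕ Fin n → ℤ) (h : Fin n → ℤ) (c : S → ℂ) (τ : ℂ) (w : Fin n → ℂ) : (Fin n → ℂ) →L[ℂ] (Fin n → ℂ) :=
  LinearMap.toContinuousLinearMap (Dp κ h c τ fun l => Complex.exp (w l)).mulVecLin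

theorem DL_apply (c : S → ℂ) (τ : ℂ) (w v : Fin n → ℂ) :
    DL κ h c τ w v = (Dp κ h c τ fun l => Complex.exp (w l)).mulVec v := rfl

theorem DL_inv {c : S → ℂ} {τ : ℂ} {w : Fin n → ℂ} (hd : (Dp κ h c τ fun l => Complex.exp (w l)).det ≠ 0) :
    (DL κ h c τ w).IsInvertible := by
  have hinj : Function.Injective (DL κ h c τ w : (Fin n → ℂ) →ₗ[ℂ] (Fin n → ℂ)) := by
    rw [injective_iff_map_eq_zero]
    intro v hv
    exact Matrix.eq_zero_of_mulVec_eq_zero hd hv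
  refine ⟨(LinearEquiv.ofInjectiveEndo _ hinj).toContinuousLinearEquiv, ?_⟩
  ext v
  rfl

theorem mon_exp (τ : ℂ) (w : Fin n → ℂ) (e : Ex n) : mon τ (fun l => Complex.exp (w l)) e =
    τ ^ (∑ l, e (Sum.inl l)) * Complex.exp (∑ l, (e (Sum.inr l) : ℂ) * w l) := by
  unfold mon
  rw [Complex.exp_sum]
  congr 1
  refine Finset.prod_congr rfl fun l _ => ?_
  rw [Complex.exp_nat_mul]

theorem mon_deriv (τ : ℂ) (w : Fin n → ℂ) (e : Ex n) :
    HasFDerivAt (fun w : Fin n → ℂ => mon τ (fun l => Complex.exp (w l)) e)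
      (mon τ (fun l => Complex.exp (w l)) e • ∑ l, (e (Sum.inr l) : ℂ) •
        (ContinuousLinearMap.proj l : (Fin n → ℂ) →L[ℂ] ℂ)) w := by
  have h1 : HasFDerivAt (fun w : Fin n → ℂ => ∑ l, (e (Sum.inr l) : ℂ) * w l)
      (∑ l, (e (Sum.inr l) : ℂ) • (ContinuousLinearMap.proj l : (Fin n → ℂ) →L[ℂ] ℂ)) w :=
    HasFDerivAt.fun_sum fun l _ => (hasFDerivAt_apply l w).const_mul _
  have h2 := h1.cexp.const_mul (τ ^ (∑ l, e (Sum.inl l)))
  simp only [mon_exp]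
  rw [mul_smul]
  exact h2

theorem Lp_deriv (c : S → ℂ) (τ : ℂ) (w : Fin n → ℂ) :
    HasFDerivAt (fun w : Fin n → ℂ => Lp κ h c τ fun l => Complex.exp (w l)) (DL κ h c τ w) w := by
  rw [hasFDerivAt_pi']
  intro j
  have h1 : HasFDerivAt (fun w : Fin n → ℂ => Lp κ h c τ (fun l => Complex.exp (w l)) j)
      (∑ q : S, if q.1.1 = j ∧ wt κ q.1.2 = h j then c q • (mon τ (fun l => Complex.exp (w l)) q.1.2 •
        ∑ l, (q.1.2 (Sum.inr l) : ℂ) • (ContinuousLinearMap.proj l : (Fin n → ℂ) →L[ℂ] ℂ)) else 0) w := by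
    unfold Lp
    refine HasFDerivAt.fun_sum fun q _ => ?_
    split_ifs
    · exact (mon_deriv τ w q.1.2).const_mul (c q)
    · exact hasFDerivAt_const _ _
  refine h1.congr_fderiv ?_
  refine ContinuousLinearMap.ext fun v => ?_
  rw [sum_apply]
  change _ = (Dp κ h c τ fun l => Complex.exp (w l)).mulVec v j
  unfold Matrix.mulVec dotProduct Dp
  simp only [Matrix.of_apply, Finset.sum_mul]
  rw [Finset.sum_comm]
  refine Finset.sum_congr rfl fun q _ => ?_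
  split_ifs
  · simp only [smul_apply, sum_apply, ContinuousLinearMap.proj_apply,
      smul_eq_mul, Finset.mul_sum]
    exact Finset.sum_congr rfl fun l _ => by ring
  · simp

/-- the implicit functions -/
theorem imp (hκ : ∀ l, 1 ≤ κ (Sum.inl l)) (hh : ∀ q ∈ S, wt κ q.2 ≤ h q.1) {c : S → ℂ} {w : Fin n → ℂ}
    (h1 : ∀ j, Lp κ h c tp (fun l => Complex.exp (w l)) j = 0)
    (h2 : (Dp κ h c tp fun l => Complex.exp (w l)).det ≠ 0) :
    ∃ ψ : (S → ℂ) × (ℂ × ℂ) → Fin n → ℂ, ψ (c, 0, 0) = w ∧ ContinuousAt ψ (c, 0, 0) ∧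
      ∀ᶠ x in 𝓝 ((c, 0, 0) : (S → ℂ) × (ℂ × ℂ)), Fn κ h x (ψ x) = 0 := by
  obtain ⟨ψ, e1, e2, e3, -⟩ := one_zero (E := (S → ℂ) × (ℂ × ℂ)) (V := Fin n → ℂ)
    (Φ := fun v => Fn κ h v.1 v.2) (x0 := (c, 0, 0)) (z0 := w) (Fn_an _) (by
      change Fn κ h (c, 0, 0) w = 0
      rw [Fn_zero hκ hh]
      exact funext h1) (d := DL κ h c tp w) (by
      have h3 := Lp_deriv (κ := κ) (h := h) c tp w
      refine h3.congr_of_eventuallyEq (Eventually.of_forall fun w' => ?_)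
      exact Fn_zero hκ hh c w') (DL_inv h2)
  exact ⟨ψ, e1, e2.continuousAt, e3⟩

end Pool.Agent.V8H73.SE
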