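import Pool.Agent.V8H73.SE.Fin

/-!
# The component of the exponential points is invariant
-/

set_option autoImplicit false
set_option linter.unusedSectionVars false

open MvPolynomial

namespace Pool.Agent.V8H73.SE

open Pool.Agent.V8H73.AN (Ex Four Ph ez mo JJ Pj ιX ev_map Pj_map)

variable {n : ℕ} {S : Finset (Fin n × Ex n)}

/-- the exponential point -/
noncomputable def ep (z : Fin n → ℂ) : Fin n ⊕ Fin n → ℂ := Sum.elim z fun l => Complex.exp (z l)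

/-- the values of the equations at a point -/
noncomputable def Pv (a : S → ℂ) (p : Fin n ⊕ Fin n → ℂ) (j : Fin n) : ℂ := eval p (Pj a j)

theorem Pv_sum (a : S → ℂ) (p : Fin n ⊕ Fin n → ℂ) (j : Fin n) :
    Pv a p j = ∑ q : S, if q.1.1 = j then a q * eval p (monomial q.1.2 1) else 0 := by
  unfold Pv Pj
  rw [map_sum]
  refine Finset.sum_congr rfl fun q _ => ?_
  split_ifs
  · rw [eval_monomial, eval_monomial, one_mul]
  · exact map_zero _

theorem Pv_ep (a : S → ℂ) (z : Fin n → ℂ) : Pv a (ep z) = val a z := by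
  funext j
  rw [val_ev]
  rfl

theorem Pv_two (hS : Four S) (l0 : Fin n) {a : S → ℂ} (ha : ∀ q, (∀ o, q ≠ qq hS l0 o) → a q = 0)
    (p : Fin n ⊕ Fin n → ℂ) (j : Fin n) :
    Pv a p j = a (qq hS l0 (Sum.inl j)) + a (qq hS l0 (Sum.inr j)) * p (Sum.inl l0) := by
  classical
  rw [Pv_sum, Finset.sum_eq_add (qq hS l0 (Sum.inl j)) (qq hS l0 (Sum.inr j))
      (fun h => by simpa using qq_inj hS l0 h)]
  · have e1 : (qq hS l0 (Sum.inl j)).1.1 = j := rfl
    have e2 : (qq hS l0 (Sum.inr j)).1.1 = j := rfl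
    rw [if_pos e1, if_pos e2]
    have e3 : (qq hS l0 (Sum.inl j)).1.2 = 0 := rfl
    have e4 : (qq hS l0 (Sum.inr j)).1.2 = Finsupp.single (Sum.inl l0) 1 := rfl
    rw [e3, e4, monomial_zero', map_one, map_one, ← X, eval_X, mul_one]
  · rintro q - ⟨h1, h2⟩
    split_ifs with h3
    · rw [ha q, zero_mul]
      rintro (o | o) ho
      · have h4 : o = j := by rw [← h3, ho]; rfl
        exact h1 (by rw [ho, h4])
      · have h4 : o = j := by rw [← h3, ho]; rfl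
        exact h2 (by rw [ho, h4])
    · rfl
  · exact fun h => absurd (Finset.mem_univ _) h
  · exact fun h => absurd (Finset.mem_univ _) h

theorem Pv_zero (hS : Four S) {l0 : Fin n} {a : S → ℂ} (ha : ∀ q, (∀ o, q ≠ qq hS l0 o) → a q = 0)
    {p p' : Fin n ⊕ Fin n → ℂ} (hp : Pv a p = 0) (hp' : Pv a p' = 0) (hne : p (Sum.inl l0) ≠ p' (Sum.inl l0))
    (q : S) : a q = 0 := by
  classical
  have h1 : ∀ j, a (qq hS l0 (Sum.inr j)) = 0 := by
    intro j
    have h2 := congrFun hp j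
    have h3 := congrFun hp' j
    rw [Pv_two hS l0 ha] at h2 h3
    have h4 : a (qq hS l0 (Sum.inr j)) * (p (Sum.inl l0) - p' (Sum.inl l0)) = 0 := by
      have h5 : a (qq hS l0 (Sum.inl j)) + a (qq hS l0 (Sum.inr j)) * p (Sum.inl l0) =
        a (qq hS l0 (Sum.inl j)) + a (qq hS l0 (Sum.inr j)) * p' (Sum.inl l0) := h2.trans h3.symm
      linear_combination h5
    exact (mul_eq_zero.1 h4).resolve_right (sub_ne_zero.2 hne)
  have h2 : ∀ j, a (qq hS l0 (Sum.inl j)) = 0 := by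
    intro j
    have h3 := congrFun hp j
    rw [Pv_two hS l0 ha, h1, zero_mul, add_zero] at h3
    exact h3
  by_cases h3 : ∃ o, q = qq hS l0 o
  · obtain ⟨o | o, rfl⟩ := h3
    · exact h2 o
    · exact h1 o
  · push Not at h3
    exact ha q h3

theorem der_Pv {c : S → ℂ} {p : Fin n ⊕ Fin n → ℂ} {K : Subfield ℂ} (δ : Derivation K ℂ ℂ) (hp : ∀ o, δ (p o) = 0)
    (j : Fin n) : δ (Pv c p j) = Pv (fun q => δ (c q)) p j := by
  have hm : ∀ e : Ex n, δ (eval p (monomial e (1 : ℂ))) = 0 := by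
    intro e
    rw [eval_monomial, one_mul]
    have h1 : (e.prod fun i k => p i ^ k) ∈ kf (δ.restrictScalars ℤ) := prod_mem fun i _ => pow_mem (hp i) _
    exact h1
  rw [Pv_sum, Pv_sum, map_sum]
  refine Finset.sum_congr rfl fun q _ => ?_
  split_ifs
  · rw [Derivation.leibniz, hm, smul_zero, zero_add, smul_eq_mul, mul_comm]
  · exact map_zero δ

theorem map_Pv (σ : ℂ ≃+* ℂ) (c : S → ℂ) (p : Fin n ⊕ Fin n → ℂ) (j : Fin n) :
    σ (Pv c p j) = Pv (fun q => σ (c q)) (fun o => σ (p o)) j := by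
  have h1 := ev_map (σ : ℂ →+* ℂ) p (Pj c j)
  rw [Pj_map] at h1
  exact h1

theorem Pv_sub (a b : S → ℂ) (p : Fin n ⊕ Fin n → ℂ) : Pv (fun q => a q - b q) p = Pv a p - Pv b p := by
  funext j
  rw [Pi.sub_apply, Pv_sum, Pv_sum, Pv_sum, ← Finset.sum_sub_distrib]
  refine Finset.sum_congr rfl fun q _ => ?_
  split_ifs
  · ring
  · rw [sub_zero]

/-- an independent pair of points -/
structure Ip (K : Subfield ℂ) (c : S → ℂ) (p p' : Fin n ⊕ Fin n → ℂ) : Prop where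
  z : Pv c p = 0
  z' : Pv c p' = 0
  i : AlgebraicIndependent K (Sum.elim c (Sum.elim (fun l => p (Sum.inl l)) fun l => p' (Sum.inl l)))

theorem Ip.ne {K : Subfield ℂ} {c : S → ℂ} {p p' : Fin n ⊕ Fin n → ℂ} (h : Ip K c p p') (l0 : Fin n) :
    p (Sum.inl l0) ≠ p' (Sum.inl l0) := by
  intro h5
  have h6 := h.i.injective (show (Sum.elim c (Sum.elim (fun l => p (Sum.inl l)) fun l => p' (Sum.inl l)))
    (Sum.inr (Sum.inl l0)) = (Sum.elim c (Sum.elim (fun l => p (Sum.inl l)) fun l => p' (Sum.inl l)))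
      (Sum.inr (Sum.inr l0)) from h5)
  simp at h6

/-- the family of independent elements given by two points -/
noncomputable def fm (hS : Four S) (l0 : Fin n) (c : S → ℂ) (p p' : Fin n ⊕ Fin n → ℂ) :
    {q : S // ∀ o, q ≠ qq hS l0 o} ⊕ ((Fin n ⊕ Fin n) ⊕ (Fin n ⊕ Fin n)) → ℂ :=
  Sum.elim (fun q => c q.1) (Sum.elim p p')

theorem fm_ind (hS : Four S) (l0 : Fin n) {K : Subfield ℂ} {c : S → ℂ} {p p' : Fin n ⊕ Fin n → ℂ}
    (h : Ip K c p p') : AlgebraicIndependent K (fm hS l0 c p p') := by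
  classical
  have hcard : Fintype.card (S ⊕ (Fin n ⊕ Fin n)) =
      Fintype.card ({q : S // ∀ o, q ≠ qq hS l0 o} ⊕ ((Fin n ⊕ Fin n) ⊕ (Fin n ⊕ Fin n))) := by
    have e1 : {q : S // ∀ o, q ≠ qq hS l0 o} ⊕ (Fin n ⊕ Fin n) ≃ S :=
      (Equiv.sumCongr (Equiv.subtypeEquivRight fun q => by simp only [Set.mem_compl_iff, Set.mem_range, not_exists, ne_eq, eq_comm])
        (Equiv.ofInjective (qq hS l0) (qq_inj hS l0))).trans
        ((Equiv.sumComm _ _).trans (Equiv.Set.sumCompl (Set.range (qq hS l0))))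
    exact Fintype.card_congr ((Equiv.sumCongr e1.symm (Equiv.refl _)).trans (Equiv.sumAssoc _ _ _))
  refine (Pool.Agent.V8H73.AN.count h.i fun δ hδ => ?_).2 hcard
  have h1 : ∀ o, δ (p o) = 0 := fun o => hδ (Sum.inr (Sum.inl o))
  have h2 : ∀ o, δ (p' o) = 0 := fun o => hδ (Sum.inr (Sum.inr o))
  have h5 : ∀ q, (∀ o, q ≠ qq hS l0 o) → δ (c q) = 0 := fun q hq => hδ (Sum.inl ⟨q, hq⟩)
  have h6 : Pv (fun q => δ (c q)) p = 0 := funext fun j => by
    rw [← der_Pv δ h1, h.z]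
    exact map_zero δ
  have h7 : Pv (fun q => δ (c q)) p' = 0 := funext fun j => by
    rw [← der_Pv δ h2, h.z']
    exact map_zero δ
  rintro (q | (l | l))
  · exact Pv_zero hS h5 h6 h7 (h.ne l0) q
  · exact h1 _
  · exact h2 _

/-- **Independent pairs of points are conjugate.** -/
theorem conj2 (hS : Four S) (l0 : Fin n) {K : Subfield ℂ} [Countable K] {c : S → ℂ}
    {p₁ p₂ p₃ p₄ : Fin n ⊕ Fin n → ℂ} (h : Ip K c p₁ p₂) (h' : Ip K c p₃ p₄) : ∃ σ : ℂ ≃+* ℂ,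
      (∀ a : K, σ a = a) ∧ (∀ q, σ (c q) = c q) ∧ (∀ o, σ (p₁ o) = p₃ o) ∧ ∀ o, σ (p₂ o) = p₄ o := by
  obtain ⟨σ, hK, hσ⟩ := exists_sigma (fm_ind hS l0 h) (fm_ind hS l0 h')
  have e1 : ∀ o, σ (p₁ o) = p₃ o := fun o => hσ (Sum.inr (Sum.inl o))
  have e2 : ∀ o, σ (p₂ o) = p₄ o := fun o => hσ (Sum.inr (Sum.inr o))
  have e5 : ∀ q, (∀ o, q ≠ qq hS l0 o) → σ (c q) - c q = 0 := fun q hq => sub_eq_zero.2 (hσ (Sum.inl ⟨q, hq⟩))
  have e6 : Pv (fun q => σ (c q) - c q) p₃ = 0 := by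
    rw [Pv_sub, h'.z, sub_zero]
    funext j
    have h1 := map_Pv σ c p₁ j
    rw [h.z] at h1
    rw [show p₃ = fun o => σ (p₁ o) from (funext e1).symm, ← h1]
    exact map_zero σ
  have e7 : Pv (fun q => σ (c q) - c q) p₄ = 0 := by
    rw [Pv_sub, h'.z', sub_zero]
    funext j
    have h1 := map_Pv σ c p₂ j
    rw [h.z'] at h1
    rw [show p₄ = fun o => σ (p₂ o) from (funext e2).symm, ← h1]
    exact map_zero σ
  exact ⟨σ, hK, fun q => sub_eq_zero.1 (Pv_zero hS e5 e6 e7 (h'.ne l0) q), e1, e2⟩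

/-- the minimal primes through a point -/
def Cq (c : S → ℂ) (p : Fin n ⊕ Fin n → ℂ) : Set (Ideal (MvPolynomial (Fin n ⊕ Fin n) ℂ)) :=
  {P | P ∈ (Ideal.span (Set.range (Pj c))).minimalPrimes ∧ ∀ f ∈ P, eval p f = 0}

theorem act_Cq {σ : ℂ ≃+* ℂ} {c : S → ℂ} (hσ : ∀ q, σ (c q) = c q) {p p' : Fin n ⊕ Fin n → ℂ}
    (h : ∀ o, σ (p o) = p' o) : act σ '' Cq c p = Cq c p' := by
  have hev : ∀ f, σ (eval p f) = eval p' (mapEquiv (Fin n ⊕ Fin n) σ f) := by
    intro f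
    have h1 := ev_map (σ : ℂ →+* ℂ) p f
    rw [show (fun o => (σ : ℂ →+* ℂ) (p o)) = p' from funext h] at h1
    exact h1
  have hiff : ∀ P : Ideal (MvPolynomial (Fin n ⊕ Fin n) ℂ), (∀ f ∈ P, eval p f = 0) ↔
      ∀ f ∈ act σ P, eval p' f = 0 := by
    intro P
    constructor
    · intro hz f hf
      have h1 := hev ((mapEquiv (Fin n ⊕ Fin n) σ).symm f)
      rw [hz _ (mem_act.1 hf), map_zero, RingEquiv.apply_symm_apply] at h1
      exact h1.symm
    · intro hz f hf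
      have h1 := hev f
      rw [hz _ (mem_act.2 (by rwa [RingEquiv.symm_apply_apply]))] at h1
      exact (map_eq_zero σ).1 h1
  ext P'
  constructor
  · rintro ⟨P, ⟨hP, hz⟩, rfl⟩
    refine ⟨?_, (hiff P).1 hz⟩
    rw [← act_min hσ]
    exact ⟨P, hP, rfl⟩
  · rintro ⟨hP, hz⟩
    rw [← act_min hσ] at hP
    obtain ⟨P, hP, rfl⟩ := hP
    exact ⟨P, ⟨hP, (hiff P).2 hz⟩, rfl⟩

end Pool.Agent.V8H73.SE
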