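import Pool.Agent.V8H73.SE.Exi

/-!
# Generic systems with a nondegenerate torus zero
-/

set_option autoImplicit false
set_option linter.unusedSectionVars false

open Set Filter MeasureTheory
open scoped Topology

namespace Pool.Agent.V8H73.SE

open Pool.Agent.V8H73.AN (Ex Four one_zero)

variable {n : ℕ} {S : Finset (Fin n × Ex n)} {κ : Fin n ⊕ Fin n → ℤ} {h : Fin n → ℤ} {p p' : Fin n → Ex n}

/-- two monomials of maximal weight in each equation -/
structure Dom (S : Finset (Fin n × Ex n)) (κ : Fin n ⊕ Fin n → ℤ) (h : Fin n → ℤ) (p p' : Fin n → Ex n) : Prop where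
  le : ∀ q ∈ S, wt κ q.2 ≤ h q.1
  mem : ∀ j, (j, p j) ∈ S
  mem' : ∀ j, (j, p' j) ∈ S
  eq : ∀ j, wt κ (p j) = h j
  eq' : ∀ j, wt κ (p' j) = h j
  det : (Matrix.of fun j l : Fin n => ((p j (Sum.inr l) : ℂ) - (p' j (Sum.inr l) : ℂ))).det ≠ 0

theorem Dom.ne (hD : Dom S κ h p p') (j : Fin n) : p j ≠ p' j := by
  intro h1
  apply hD.det
  refine Matrix.det_eq_zero_of_row_eq_zero j fun l => ?_
  rw [Matrix.of_apply, h1, sub_self]

/-- a sum over two exponents -/
theorem Dom.two (hD : Dom S κ h p p') (a b : Fin n → ℂ) (g : Ex n → ℂ) (j : Fin n) :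
    (∑ q : S, if q.1.1 = j ∧ wt κ q.1.2 = h j then
      (if q.1.2 = p q.1.1 then a q.1.1 else if q.1.2 = p' q.1.1 then b q.1.1 else 0) * g q.1.2 else 0) =
      a j * g (p j) + b j * g (p' j) := by
  have h1 : ∀ q : S, (if q.1.1 = j ∧ wt κ q.1.2 = h j then
      (if q.1.2 = p q.1.1 then a q.1.1 else if q.1.2 = p' q.1.1 then b q.1.1 else 0) * g q.1.2 else 0) =
      (if q = ⟨(j, p j), hD.mem j⟩ then a j * g (p j) else 0) +
      (if q = ⟨(j, p' j), hD.mem' j⟩ then b j * g (p' j) else 0) := by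
    rintro ⟨⟨i, e⟩, hq⟩
    by_cases hj : i = j
    · subst hj
      by_cases h1 : e = p i
      · subst h1
        have h2 : (⟨(i, p i), hq⟩ : S) ≠ ⟨(i, p' i), hD.mem' i⟩ := fun h3 =>
          hD.ne i (congrArg (fun u : S => u.1.2) h3)
        rw [if_pos ⟨rfl, hD.eq i⟩, if_pos rfl, if_pos rfl, if_neg h2, add_zero]
      · have h2 : (⟨(i, e), hq⟩ : S) ≠ ⟨(i, p i), hD.mem i⟩ := fun h3 => h1 (congrArg (fun u : S => u.1.2) h3)
        rw [if_neg h2, zero_add]
        by_cases h3 : e = p' i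
        · subst h3
          rw [if_pos ⟨rfl, hD.eq' i⟩, if_neg h1, if_pos rfl, if_pos rfl]
        · have h4 : (⟨(i, e), hq⟩ : S) ≠ ⟨(i, p' i), hD.mem' i⟩ := fun h3' => h3 (congrArg (fun u : S => u.1.2) h3')
          rw [if_neg h4, if_neg h1, if_neg h3, zero_mul, ite_self]
    · have h2 : (⟨(i, e), hq⟩ : S) ≠ ⟨(j, p j), hD.mem j⟩ := fun h3 => hj (congrArg (fun u : S => u.1.1) h3)
      have h3 : (⟨(i, e), hq⟩ : S) ≠ ⟨(j, p' j), hD.mem' j⟩ := fun h3 => hj (congrArg (fun u : S => u.1.1) h3)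
      rw [if_neg h2, if_neg h3, if_neg fun h4 => hj h4.1, add_zero]
  rw [Finset.sum_congr rfl fun q _ => h1 q, Finset.sum_add_distrib, Finset.sum_ite_eq', Finset.sum_ite_eq',
    if_pos (Finset.mem_univ _), if_pos (Finset.mem_univ _)]

/-- a system with a nondegenerate zero -/
theorem Dom.base (hD : Dom S κ h p p') {τ : ℂ} (hτ : τ ≠ 0) : ∃ c : S → ℂ,
    (∀ j, Lp κ h c τ (fun l : Fin n => Complex.exp ((0 : Fin n → ℂ) l)) j = 0) ∧
    (Dp κ h c τ fun l : Fin n => Complex.exp ((0 : Fin n → ℂ) l)).det ≠ 0 := by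
  let N : Ex n → ℕ := fun e => ∑ l, e (Sum.inl l)
  have hm : ∀ e : Ex n, mon τ (fun l : Fin n => Complex.exp ((0 : Fin n → ℂ) l)) e = τ ^ N e := by
    intro e
    unfold mon
    simp [N]
  have hN : ∀ e : Ex n, τ ^ N e ≠ 0 := fun e => pow_ne_zero _ hτ
  refine ⟨fun q => if q.1.2 = p q.1.1 then (τ ^ N (p q.1.1))⁻¹ else
    if q.1.2 = p' q.1.1 then - (τ ^ N (p' q.1.1))⁻¹ else 0, fun j => ?_, ?_⟩
  · have h1 := hD.two (fun j => (τ ^ N (p j))⁻¹) (fun j => - (τ ^ N (p' j))⁻¹)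
      (fun e => mon τ (fun l : Fin n => Complex.exp ((0 : Fin n → ℂ) l)) e) j
    unfold Lp
    refine h1.trans ?_
    simp only [hm]
    rw [inv_mul_cancel₀ (hN _), neg_mul, inv_mul_cancel₀ (hN _), add_neg_cancel]
  · have h2 := hD.det
    convert h2 using 2
    ext j l
    unfold Dp
    rw [Matrix.of_apply, Matrix.of_apply]
    have h1 := hD.two (fun j => (τ ^ N (p j))⁻¹) (fun j => - (τ ^ N (p' j))⁻¹)
      (fun e => mon τ (fun l : Fin n => Complex.exp ((0 : Fin n → ℂ) l)) e * (e (Sum.inr l) : ℂ)) j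
    refine h1.trans ?_
    simp only [hm]
    rw [← mul_assoc, inv_mul_cancel₀ (hN _), one_mul, ← mul_assoc, neg_mul, inv_mul_cancel₀ (hN _), neg_one_mul,
      ← sub_eq_add_neg]

theorem det_cont {τ : ℂ} : Continuous fun v : (S → ℂ) × (Fin n → ℂ) =>
    (Dp κ h v.1 τ fun l => Complex.exp (v.2 l)).det := by
  refine Continuous.matrix_det ?_
  refine continuous_matrix fun j l => ?_
  unfold Dp
  simp only [Matrix.of_apply]
  refine continuous_finsetSum _ fun q _ => ?_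
  split_ifs
  · unfold mon
    refine Continuous.mul ((continuous_apply q).comp continuous_fst) ((continuous_const.mul ?_).mul continuous_const)
    exact continuous_finsetProd _ fun l _ => (Complex.continuous_exp.comp ((continuous_apply l).comp continuous_snd)).pow _
  · exact continuous_const

theorem Lp_an {τ : ℂ} (v : (S → ℂ) × (Fin n → ℂ)) :
    AnalyticAt ℂ (fun v : (S → ℂ) × (Fin n → ℂ) => Lp κ h v.1 τ fun l => Complex.exp (v.2 l)) v := by
  have hc : ∀ q : S, AnalyticAt ℂ (fun v : (S → ℂ) × (Fin n → ℂ) => v.1 q) v := fun q =>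
    ((ContinuousLinearMap.proj (R := ℂ) (φ := fun _ : S => ℂ) q).comp
      (ContinuousLinearMap.fst ℂ (S → ℂ) (Fin n → ℂ))).analyticAt v
  have hw : ∀ l, AnalyticAt ℂ (fun v : (S → ℂ) × (Fin n → ℂ) => v.2 l) v := fun l =>
    ((ContinuousLinearMap.proj (R := ℂ) (φ := fun _ : Fin n => ℂ) l).comp
        (ContinuousLinearMap.snd ℂ (S → ℂ) (Fin n → ℂ))).analyticAt v
  rw [analyticAt_pi_iff]
  intro j
  unfold Lp mon
  refine Finset.analyticAt_fun_sum _ fun q _ => ?_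
  by_cases hq : q.1.1 = j ∧ wt κ q.1.2 = h j
  · simp only [if_pos hq]
    exact (hc q).mul (analyticAt_const.mul (Finset.analyticAt_fun_prod _ fun l _ => (hw l).cexp.pow _))
  · simp only [if_neg hq]
    exact analyticAt_const

/-- a generic system with a nondegenerate zero -/
theorem Dom.gen (hD : Dom S κ h p p') (hS : Four S) {τ : ℂ} (hτ : τ ≠ 0) (K : Subfield ℂ) [Countable K] :
    ∃ c : S → ℂ, AlgebraicIndependent K c ∧ ∃ y : Fin n → ℂ, (∀ j, Lp κ h c τ y j = 0) ∧ (∀ l, y l ≠ 0) ∧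
      (Dp κ h c τ y).det ≠ 0 := by
  obtain ⟨c0, h1, h2⟩ := hD.base hτ
  obtain ⟨ψ, e1, e2, e3, -⟩ := one_zero (E := S → ℂ) (V := Fin n → ℂ)
    (Φ := fun v => Lp κ h v.1 τ fun l => Complex.exp (v.2 l)) (x0 := c0) (z0 := 0) (Lp_an _) (funext h1)
    (d := DL κ h c0 τ 0) (Lp_deriv c0 τ 0) (DL_inv h2)
  have h4 : Tendsto (fun c : S → ℂ => (c, ψ c)) (𝓝 c0) (𝓝 (c0, 0)) := by
    refine tendsto_id.prodMk_nhds ?_
    have h5 := e2.continuousAt.tendsto
    rwa [e1] at h5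
  have h5 : ∀ᶠ c in 𝓝 c0, (Dp κ h c τ fun l => Complex.exp (ψ c l)).det ≠ 0 := by
    have h6 : ContinuousAt (fun v : (S → ℂ) × (Fin n → ℂ) => (Dp κ h v.1 τ fun l => Complex.exp (v.2 l)).det)
        (c0, 0) := det_cont.continuousAt
    exact h4.eventually (h6.eventually_ne h2)
  have h6 : ∀ᵐ c : S → ℂ, AlgebraicIndependent K c := by
    filter_upwards [Pool.Agent.V8H73.AN.ae_all hS K] with c hc
    exact hc.2.comp Sum.inl Sum.inl_injective
  have h7 : Dense {c : S → ℂ | AlgebraicIndependent K c} := Measure.dense_of_ae h6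
  obtain ⟨c, ⟨hc1, hc2⟩, hc3⟩ := mem_closure_iff_nhds.1 (h7 c0) _ (e3.and h5)
  exact ⟨c, hc3, fun l => Complex.exp (ψ c l), fun j => congrFun hc1 j, fun l => Complex.exp_ne_zero _, hc2⟩

theorem dom_zero (hS : Four S) : Dom S 0 0 (fun j => Finsupp.single (Sum.inr j) 1) fun _ => 0 := by
  have hw : ∀ e : Ex n, wt 0 e = 0 := fun e => by simp [wt]
  refine ⟨fun q _ => (hw q.2).le, fun j => hS.hy j j, hS.h0, fun j => hw _, fun j => hw _, ?_⟩
  have h1 : (Matrix.of fun j l : Fin n => ((((Finsupp.single (Sum.inr j) 1 : Ex n) (Sum.inr l) : ℕ) : ℂ) -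
      (((0 : Ex n) (Sum.inr l) : ℕ) : ℂ))) = 1 := by
    ext j l
    rw [Matrix.of_apply, Matrix.one_apply, Finsupp.single_apply]
    simp
  rw [h1, Matrix.det_one]
  exact one_ne_zero

end Pool.Agent.V8H73.SE
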