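import Pool.Agent.V8H73.SE.Exi

/-!
# Existence of infinitely many solutions
-/

set_option autoImplicit false
set_option linter.unusedSectionVars false

open Set Filter MeasureTheory
open scoped Topology

namespace Pool.Agent.V8H73.SE

open Pool.Agent.V8H73.AN (Ex Four ιX ιX_apply)

variable {n : ℕ} {S : Finset (Fin n × Ex n)} {κ : Fin n ⊕ Fin n → ℤ} {h : Fin n → ℤ}

/-- the values of the equations -/
noncomputable def val (c : S → ℂ) (z : Fin n → ℂ) (j : Fin n) : ℂ :=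
  ∑ q : S, if q.1.1 = j then
    c q * ∏ l, z l ^ q.1.2 (Sum.inl l) * Complex.exp (z l) ^ q.1.2 (Sum.inr l) else 0

/-- a point near infinity -/
noncomputable def zN (κ : Fin n ⊕ Fin n → ℤ) (N : ℕ) (w : Fin n → ℂ) (l : Fin n) : ℂ :=
  (N ^ (κ (Sum.inl l)).toNat : ℕ) * tp + κ (Sum.inr l) * (Real.log N : ℂ) + w l

/-- the parameters near infinity -/
noncomputable def uN (c : S → ℂ) (N : ℕ) : (S → ℂ) × (ℂ × ℂ) :=
  (c, ((N : ℝ)⁻¹ : ℝ), (Real.log N / N : ℝ))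

theorem uN_tendsto (c : S → ℂ) : Tendsto (uN c) atTop (𝓝 (c, 0, 0)) := by
  have h1 : Tendsto (fun N : ℕ => ((N : ℝ)⁻¹ : ℝ)) atTop (𝓝 0) := tendsto_inv_atTop_nhds_zero_nat
  have h2 : Tendsto (fun x : ℝ => Real.log x / x) atTop (𝓝 0) := Real.isLittleO_log_id_atTop.tendsto_div_nhds_zero
  have h3 : Tendsto (fun N : ℕ => (Real.log N / N : ℝ)) atTop (𝓝 0) := h2.comp tendsto_natCast_atTop_atTop
  have h4 := (Complex.continuous_ofReal.tendsto 0).comp h1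
  have h5 := (Complex.continuous_ofReal.tendsto 0).comp h3
  rw [Complex.ofReal_zero] at h4 h5
  exact tendsto_const_nhds.prodMk_nhds (h4.prodMk_nhds h5)

theorem exp_zN (N : ℕ) (hN : 0 < N) (w : Fin n → ℂ) (l : Fin n) :
    Complex.exp (zN κ N w l) = (N : ℂ) ^ (κ (Sum.inr l)) * Complex.exp (w l) := by
  unfold zN
  have h1 : Complex.exp (((N ^ (κ (Sum.inl l)).toNat : ℕ) : ℂ) * tp) = 1 := Complex.exp_nat_mul_two_pi_mul_I _
  have h2 : Complex.exp (Real.log N : ℂ) = N := by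
    rw [← Complex.ofReal_exp, Real.exp_log (by exact_mod_cast hN)]
    norm_cast
  rw [Complex.exp_add, Complex.exp_add, h1, one_mul, Complex.exp_int_mul, h2]

theorem zN_eq (hκ : ∀ l, 1 ≤ κ (Sum.inl l)) (N : ℕ) (hN : 0 < N) (w : Fin n → ℂ) (l : Fin n) :
    zN κ N w l = (N : ℂ) ^ (κ (Sum.inl l)) * (tp + κ (Sum.inr l) * (((Real.log N / N : ℝ) : ℂ) *
      (((N : ℝ)⁻¹ : ℝ) : ℂ) ^ ((κ (Sum.inl l)).toNat - 1)) + (((N : ℝ)⁻¹ : ℝ) : ℂ) ^ (κ (Sum.inl l)).toNat * w l) := by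
  unfold zN
  have h1 : (N : ℂ) ≠ 0 := by exact_mod_cast hN.ne'
  obtain ⟨r, hr⟩ : ∃ r : ℕ, κ (Sum.inl l) = (r + 1 : ℕ) := ⟨(κ (Sum.inl l) - 1).toNat, by have := hκ l; omega⟩
  rw [hr, Int.toNat_natCast, Nat.add_sub_cancel, zpow_natCast]
  have e1 : (N : ℂ) ^ (r + 1) * ((N : ℂ)⁻¹) ^ (r + 1) = 1 := by rw [← mul_pow, mul_inv_cancel₀ h1, one_pow]
  have e2 : (((N : ℝ)⁻¹ : ℝ) : ℂ) = (N : ℂ)⁻¹ := by rw [Complex.ofReal_inv, Complex.ofReal_natCast]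
  have e3 : ((Real.log N / N : ℝ) : ℂ) = (Real.log N : ℂ) * (N : ℂ)⁻¹ := by
    rw [Complex.ofReal_div, Complex.ofReal_natCast, div_eq_mul_inv]
  rw [e2, e3, Nat.cast_pow]
  linear_combination (-(κ (Sum.inr l) * (Real.log N : ℂ) + w l)) * e1

theorem prod_zpow' {a : ℂ} (ha : a ≠ 0) (f : Fin n → ℤ) (s : Finset (Fin n)) :
    ∏ l ∈ s, a ^ (f l) = a ^ (∑ l ∈ s, f l) := by
  classical
  induction s using Finset.induction_on with
  | empty => simp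
  | insert l s hl ih => rw [Finset.prod_insert hl, Finset.sum_insert hl, ih, zpow_add₀ ha]

theorem val_eq (hκ : ∀ l, 1 ≤ κ (Sum.inl l)) (hh : ∀ q ∈ S, wt κ q.2 ≤ h q.1) (c : S → ℂ) (N : ℕ) (hN : 0 < N) (w : Fin n → ℂ) (j : Fin n) :
    val c (zN κ N w) j = (N : ℂ) ^ (h j) * Fn κ h (uN c N) w j := by
  have hN0 : (N : ℂ) ≠ 0 := by exact_mod_cast hN.ne'
  unfold val Fn
  rw [Finset.mul_sum]
  refine Finset.sum_congr rfl fun q _ => ?_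
  by_cases hj : q.1.1 = j
  · rw [if_pos hj, if_pos hj]
    have h1 := hh q.1 q.2
    rw [hj] at h1
    have h2 : ∏ l, zN κ N w l ^ q.1.2 (Sum.inl l) * Complex.exp (zN κ N w l) ^ q.1.2 (Sum.inr l) =
        (N : ℂ) ^ (wt κ q.1.2) * ((∏ l, (tp + κ (Sum.inr l) * (((Real.log N / N : ℝ) : ℂ) *
          (((N : ℝ)⁻¹ : ℝ) : ℂ) ^ ((κ (Sum.inl l)).toNat - 1)) + (((N : ℝ)⁻¹ : ℝ) : ℂ) ^ (κ (Sum.inl l)).toNat * w l) ^
            q.1.2 (Sum.inl l)) * ∏ l, Complex.exp (w l) ^ q.1.2 (Sum.inr l)) := by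
      have e1 : ∀ l, zN κ N w l ^ q.1.2 (Sum.inl l) * Complex.exp (zN κ N w l) ^ q.1.2 (Sum.inr l) =
          ((N : ℂ) ^ (κ (Sum.inl l) * (q.1.2 (Sum.inl l) : ℤ)) * (N : ℂ) ^ (κ (Sum.inr l) * (q.1.2 (Sum.inr l) : ℤ))) *
          ((tp + κ (Sum.inr l) * (((Real.log N / N : ℝ) : ℂ) *
          (((N : ℝ)⁻¹ : ℝ) : ℂ) ^ ((κ (Sum.inl l)).toNat - 1)) + (((N : ℝ)⁻¹ : ℝ) : ℂ) ^ (κ (Sum.inl l)).toNat * w l) ^
            q.1.2 (Sum.inl l) * Complex.exp (w l) ^ q.1.2 (Sum.inr l)) := by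
        intro l
        rw [exp_zN N hN, zN_eq hκ N hN, mul_pow, mul_pow, zpow_mul, zpow_natCast, zpow_mul, zpow_natCast]
        ring
      rw [Finset.prod_congr rfl fun l _ => e1 l, Finset.prod_mul_distrib, Finset.prod_mul_distrib,
        Finset.prod_mul_distrib]
      congr 1
      unfold wt
      rw [zpow_add₀ hN0]
      congr 1
      · exact prod_zpow' hN0 _ _
      · exact prod_zpow' hN0 _ _
    rw [h2]
    have h3 : (N : ℂ) ^ (wt κ q.1.2) = (N : ℂ) ^ (h j) * ((((N : ℝ)⁻¹ : ℝ) : ℂ)) ^ (h j - wt κ q.1.2).toNat := by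
      have e2 : ((((N : ℝ)⁻¹ : ℝ) : ℂ)) = (N : ℂ)⁻¹ := by push_cast; rfl
      rw [e2, inv_pow, ← zpow_natCast, Int.toNat_of_nonneg (by omega), ← zpow_neg, ← zpow_add₀ hN0]
      congr 1
      ring
    rw [h3]
    unfold uN
    ring
  · rw [if_neg hj, if_neg hj, mul_zero]

/-- **Infinitely many solutions.** -/
theorem inf (hn : 0 < n) (hκ : ∀ l, 1 ≤ κ (Sum.inl l)) (hh : ∀ q ∈ S, wt κ q.2 ≤ h q.1) {c : S → ℂ} {y : Fin n → ℂ}
    (h1 : ∀ j, Lp κ h c tp y j = 0) (h2 : ∀ l, y l ≠ 0) (h3 : (Dp κ h c tp y).det ≠ 0) :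
    {z : Fin n → ℂ | val c z = 0}.Infinite := by
  have hy : (fun l => Complex.exp (Complex.log (y l))) = y := funext fun l => Complex.exp_log (h2 l)
  obtain ⟨ψ, e1, e2, e3⟩ := imp (w := fun l => Complex.log (y l)) hκ hh (by rw [hy]; exact h1) (by rw [hy]; exact h3)
  have hu := uN_tendsto c
  have k1 : ∀ᶠ N : ℕ in atTop, Fn κ h (uN c N) (ψ (uN c N)) = 0 := hu.eventually e3
  have k2 : ∀ᶠ N : ℕ in atTop, ‖ψ (uN c N)‖ < ‖ψ (c, 0, 0)‖ + 1 := by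
    have h4 : Tendsto (fun N : ℕ => ‖ψ (uN c N)‖) atTop (𝓝 ‖ψ (c, 0, 0)‖) := (e2.tendsto.comp hu).norm
    exact h4.eventually (gt_mem_nhds (lt_add_one _))
  intro hfin
  obtain ⟨R, hR⟩ := hfin.isBounded.exists_norm_le
  obtain ⟨M, hM⟩ := exists_nat_gt (R + (‖ψ (c, 0, 0)‖ + 1))
  obtain ⟨N, ⟨k1, k2⟩, hN⟩ := ((k1.and k2).and (eventually_ge_atTop (max M 1))).exists
  have hN1 : 0 < N := lt_of_lt_of_le (by omega) ((le_max_right M 1).trans hN)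
  have hNM : M ≤ N := (le_max_left M 1).trans hN
  set w := ψ (uN c N) with hw
  have hz : val c (zN κ N w) = 0 := by
    funext j
    rw [val_eq hκ hh c N hN1, k1]
    exact mul_zero _
  have h4 := hR _ hz
  have h5 := (norm_le_pi_norm (zN κ N w) ⟨0, hn⟩).trans h4
  have h6 := (norm_le_pi_norm w ⟨0, hn⟩)
  have h7 : (zN κ N w ⟨0, hn⟩).im = (N ^ (κ (Sum.inl ⟨0, hn⟩)).toNat : ℕ) * (2 * Real.pi) + (w ⟨0, hn⟩).im := by
    unfold zN tp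
    have e1 : ((κ (Sum.inr ⟨0, hn⟩) : ℂ) * ((Real.log N : ℝ) : ℂ)).im = 0 := by
      rw [← Complex.ofReal_intCast, ← Complex.ofReal_mul, Complex.ofReal_im]
    rw [Complex.add_im, Complex.add_im, e1, add_zero]
    congr 1
    rw [Complex.mul_im, Complex.natCast_im, zero_mul, add_zero, Complex.natCast_re]
    simp
  have h8 := Complex.abs_im_le_norm (zN κ N w ⟨0, hn⟩)
  have h9 := Complex.abs_im_le_norm (w ⟨0, hn⟩)
  rw [h7] at h8
  have hNr : (N : ℝ) ≤ (N ^ (κ (Sum.inl ⟨0, hn⟩)).toNat : ℕ) := by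
    have e1 : N ≤ N ^ (κ (Sum.inl ⟨0, hn⟩)).toNat := Nat.le_self_pow (by
      intro e2
      have := hκ ⟨0, hn⟩
      rw [Int.toNat_eq_zero] at e2
      omega) N
    exact_mod_cast e1
  have h10 := le_abs_self (((N ^ (κ (Sum.inl ⟨0, hn⟩)).toNat : ℕ) : ℝ) * (2 * Real.pi) + (w ⟨0, hn⟩).im)
  have h11 := neg_abs_le (w ⟨0, hn⟩).im
  have h12 : (N : ℝ) ≤ (N ^ (κ (Sum.inl ⟨0, hn⟩)).toNat : ℕ) * (2 * Real.pi) := by
    have := Real.pi_gt_three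
    have h13 : (0 : ℝ) ≤ N := Nat.cast_nonneg N
    nlinarith
  have h14 : (M : ℝ) ≤ N := by exact_mod_cast hNM
  linarith

end Pool.Agent.V8H73.SE
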