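import Pool.Agent.V8H73.SE.Gal

/-!
# The component of the exponential points is invariant
-/

set_option autoImplicit false
set_option linter.unusedSectionVars false

open MvPolynomial

namespace Pool.Agent.V8H73.SE

open Pool.Agent.V8H73.AN (Ex Four Ph ez mo JJ Pj ιX ev_map Pj_map)

/-- towers -/
theorem ai_tower {K : Subfield ℂ} {ι κ : Type} {x : ι → ℂ} (hx : AlgebraicIndependent K x) {s : Set ℂ}
    (hs : Set.range x ⊆ s) {z : κ → ℂ} (hz : AlgebraicIndependent (IntermediateField.adjoin K s) z) :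
    AlgebraicIndependent K (Sum.elim x z) := by
  refine Pool.Agent.H135R2.VS.algInd_of_der fun v => ?_
  obtain ⟨D1, hD1⟩ := Pool.Agent.H135R2.VS.exists_der hx fun i => v (Sum.inl i)
  obtain ⟨D2, hD2⟩ := Pool.Agent.H135R2.VS.exists_der hz fun i => v (Sum.inr i) - D1 (z i)
  have h2 : ∀ x ∈ IntermediateField.adjoin K s, D2 x = 0 := fun x hx =>
    Derivation.map_algebraMap D2 (⟨x, hx⟩ : IntermediateField.adjoin K s)
  let D : Derivation ℤ ℂ ℂ := D1.restrictScalars ℤ + D2.restrictScalars ℤ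
  have hD : ∀ x, D x = D1 x + D2 x := fun x => rfl
  refine ⟨ofD K D fun x hx => ?_, ?_⟩
  · change D x = 0
    rw [hD, h2 x ((IntermediateField.adjoin K s).algebraMap_mem (⟨x, hx⟩ : K)), add_zero]
    exact Derivation.map_algebraMap D1 (⟨x, hx⟩ : K)
  · rintro (i | i)
    · rw [ofD_apply, hD]
      change D1 (x i) + D2 (x i) = _
      rw [hD1, h2 _ (IntermediateField.subset_adjoin _ _ (hs ⟨i, rfl⟩)), add_zero]
    · rw [ofD_apply, hD]
      change D1 (z i) + D2 (z i) = _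
      rw [hD2, add_sub_cancel]

/-- automorphisms preserve independence -/
theorem ai_map {K : Subfield ℂ} {ι : Type} {x : ι → ℂ} (hx : AlgebraicIndependent K x) {τ : ℂ ≃+* ℂ}
    (hτ : ∀ a : K, τ a = a) : AlgebraicIndependent K fun i => τ (x i) := by
  let f : ℂ →ₐ[K] ℂ := { (τ : ℂ →+* ℂ) with commutes' := hτ }
  exact hx.map' (f := f) τ.injective

variable {n : ℕ} {S : Finset (Fin n × Ex n)}

theorem sub1 {K : Subfield ℂ} {c : S → ℂ}
    (h : AlgebraicIndependent K (Sum.elim c fun q : {z : Fin n → ℂ // val c z = 0} × Fin n => (q.1 : Fin n → ℂ) q.2))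
    {z : Fin n → ℂ} (hz : val c z = 0) : AlgebraicIndependent K (Sum.elim c z) := by
  have h6 := h.comp (Sum.map id fun l : Fin n => ((⟨z, hz⟩ : {z : Fin n → ℂ // val c z = 0}), l))
    (Function.injective_id.sumMap fun l l' hl => congrArg Prod.snd hl)
  have h7 : (Sum.elim c fun q : {z : Fin n → ℂ // val c z = 0} × Fin n => (q.1 : Fin n → ℂ) q.2) ∘
      (Sum.map id fun l : Fin n => ((⟨z, hz⟩ : {z : Fin n → ℂ // val c z = 0}), l)) = Sum.elim c z := by
    funext o
    rcases o with q | l <;> rfl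
  rwa [h7] at h6

theorem sub2 {K : Subfield ℂ} {c : S → ℂ}
    (h : AlgebraicIndependent K (Sum.elim c fun q : {z : Fin n → ℂ // val c z = 0} × Fin n => (q.1 : Fin n → ℂ) q.2))
    {z z' : Fin n → ℂ} (hz : val c z = 0) (hz' : val c z' = 0) (hne : z ≠ z') : Ip K c (ep z) (ep z') := by
  refine ⟨by rw [Pv_ep, hz], by rw [Pv_ep, hz'], ?_⟩
  have e1 := h.comp (Sum.map id (Sum.elim (fun l : Fin n => ((⟨z, hz⟩ : {z : Fin n → ℂ // val c z = 0}), l))
    fun l : Fin n => ((⟨z', hz'⟩ : {z : Fin n → ℂ // val c z = 0}), l)))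
    (Function.injective_id.sumMap (by
      rintro (l | l) (l' | l') hl
      · exact congrArg Sum.inl (congrArg Prod.snd hl)
      · exact absurd (congrArg (fun u : {z : Fin n → ℂ // val c z = 0} × Fin n => (u.1 : Fin n → ℂ)) hl) hne
      · exact absurd (congrArg (fun u : {z : Fin n → ℂ // val c z = 0} × Fin n => (u.1 : Fin n → ℂ)) hl) hne.symm
      · exact congrArg Sum.inr (congrArg Prod.snd hl)))
  have e2 : (Sum.elim c fun q : {z : Fin n → ℂ // val c z = 0} × Fin n => (q.1 : Fin n → ℂ) q.2) ∘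
      (Sum.map id (Sum.elim (fun l : Fin n => ((⟨z, hz⟩ : {z : Fin n → ℂ // val c z = 0}), l))
        fun l : Fin n => ((⟨z', hz'⟩ : {z : Fin n → ℂ // val c z = 0}), l))) =
      Sum.elim c (Sum.elim (fun l => ep z (Sum.inl l)) fun l => ep z' (Sum.inl l)) := by
    funext o
    rcases o with q | (l | l) <;> rfl
  rwa [e2] at e1

/-- the components through an exponential point -/
theorem Cq_ep (hS : Four S) (l0 : Fin n) {K : Subfield ℂ} [Countable K] {c : S → ℂ} (hc : Cm K c)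
    (h : AlgebraicIndependent K (Sum.elim c fun q : {z : Fin n → ℂ // val c z = 0} × Fin n => (q.1 : Fin n → ℂ) q.2))
    {z : Fin n → ℂ} (hz : val c z = 0) : Cq c (ep z) = {Vi c} := by
  classical
  have hfin := (Ideal.span (Set.range (Pj c))).finite_minimalPrimes_of_isNoetherianRing
    (MvPolynomial (Fin n ⊕ Fin n) ℂ)
  obtain ⟨z₁, h1, z₂, h2, h12, hC⟩ := hc.inf.exists_ne_map_eq_of_mapsTo (f := fun z => Cq c (ep z))
    (t := {s | s ⊆ (Ideal.span (Set.range (Pj c))).minimalPrimes}) (fun z _ P hP => hP.1) hfin.finite_subsets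
  have hall : ∀ z', val c z' = 0 → Cq c (ep z) = Cq c (ep z') := by
    intro z' hz'
    by_cases hne : z = z'
    · rw [hne]
    · obtain ⟨σ, -, hσ, e1, e2⟩ := conj2 hS l0 (sub2 h h1 h2 h12) (sub2 h hz hz' hne)
      rw [← act_Cq hσ e1, ← act_Cq hσ e2]
      exact congrArg _ hC
  obtain ⟨m1, m2, m3⟩ := Vi_main hS l0 hc h
  ext P
  constructor
  · intro hP
    have hPz : ∀ z', val c z' = 0 → z' ∈ Zp P := fun z' hz' => by
      rw [hall z' hz'] at hP
      exact hP.2
    exact m3 P hP.1.1.1 (fun j => hP.1.1.2 (Ideal.subset_span ⟨j, rfl⟩)) (hc.inf.mono fun z' hz' => hPz z' hz')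
  · rintro rfl
    exact ⟨m2, fun f hf => hf z hz⟩

theorem act_single {σ : ℂ ≃+* ℂ} {P Q : Ideal (MvPolynomial (Fin n ⊕ Fin n) ℂ)}
    (h : act σ '' {P} = {Q}) : act σ P = Q := by
  rw [Set.image_singleton] at h
  exact Set.singleton_injective h

/-- **The component of the exponential points is invariant.** -/
theorem inv (hS : Four S) (l0 : Fin n) {K : Subfield ℂ} [Countable K] {c : S → ℂ} (hc : Cm K c)
    (h : AlgebraicIndependent K (Sum.elim c fun q : {z : Fin n → ℂ // val c z = 0} × Fin n => (q.1 : Fin n → ℂ) q.2))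
    {τ : ℂ ≃+* ℂ} (hK : ∀ a : K, τ a = a) (hτ : ∀ q, τ (c q) = c q) : act τ (Vi c) = Vi c := by
  classical
  obtain ⟨m1, m2, m3⟩ := Vi_main hS l0 hc h
  obtain ⟨z₁, h1⟩ := hc.inf.nonempty
  obtain ⟨z₂, h2, h21⟩ := hc.inf.exists_notMem_finite (Set.finite_singleton z₁)
  have h12 : z₁ ≠ z₂ := fun e => h21 e.symm
  let t : Fin (n + n) → ℂ := fun i => τ.symm (ep z₁ (finSumFinEquiv.symm i))
  have ht : ∀ o, τ.symm (ep z₁ o) ∈ Set.range t := fun o => ⟨finSumFinEquiv o, by simp [t]⟩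
  have hinf : (Zp (Vi c)).Infinite := by
    rw [Zp_Vi]
    exact hc.inf
  obtain ⟨z₄, hz₄, h4I⟩ := many hc (fun j => m2.1.2 (Ideal.subset_span ⟨j, rfl⟩)) hinf t
  have h4 : val c z₄ = 0 := by
    rw [Zp_Vi] at hz₄
    exact hz₄
  have hK' : ∀ a : K, τ.symm a = a := fun a => by rw [RingEquiv.symm_apply_eq, hK]
  have hτ' : ∀ q, τ.symm (c q) = c q := fun q => by rw [RingEquiv.symm_apply_eq, hτ]
  have a1 : AlgebraicIndependent K (Sum.elim c fun l => τ.symm (z₁ l)) := by
    have e1 := ai_map (sub1 h h1) hK'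
    have e2 : (fun i => τ.symm ((Sum.elim c z₁ : S ⊕ Fin n → ℂ) i)) = Sum.elim c fun l => τ.symm (z₁ l) := by
      funext o
      rcases o with q | l
      · exact hτ' q
      · rfl
    rwa [e2] at e1
  have a2 := ai_tower a1 (s := Set.range c ∪ Set.range t) (by
    rintro _ ⟨q | l, rfl⟩
    · exact Or.inl ⟨q, rfl⟩
    · exact Or.inr (ht (Sum.inl l))) h4I
  have a3 := (ai_map a2 hK).comp (Equiv.sumAssoc S (Fin n) (Fin n)).symm (Equiv.injective _)
  have a4 : (fun i => τ ((Sum.elim (Sum.elim c fun l => τ.symm (z₁ l)) z₄ : (S ⊕ Fin n) ⊕ Fin n → ℂ) i)) ∘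
      (Equiv.sumAssoc S (Fin n) (Fin n)).symm =
      Sum.elim c (Sum.elim (fun l => ep z₁ (Sum.inl l)) fun l => (fun o => τ (ep z₄ o)) (Sum.inl l)) := by
    funext o
    rcases o with q | (l | l)
    · exact hτ q
    · exact τ.apply_symm_apply _
    · rfl
  rw [a4] at a3
  have hIp : Ip K c (ep z₁) fun o => τ (ep z₄ o) := by
    refine ⟨by rw [Pv_ep, h1], ?_, a3⟩
    funext j
    have e1 := map_Pv τ c (ep z₄) j
    rw [Pv_ep, h4, show (fun q => τ (c q)) = c from funext hτ] at e1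
    rw [← e1]
    exact map_zero τ
  obtain ⟨σ, -, hσ, e1, e2⟩ := conj2 hS l0 (sub2 h h1 h2 h12) hIp
  have f1 := act_Cq hσ e1
  have f2 := act_Cq hσ e2
  have f3 := act_Cq hτ (p := ep z₄) (p' := fun o => τ (ep z₄ o)) fun _ => rfl
  rw [Cq_ep hS l0 hc h h1] at f1
  rw [Cq_ep hS l0 hc h h2, ← f3, Cq_ep hS l0 hc h h4, f1] at f2
  exact act_single f2.symm

end Pool.Agent.V8H73.SE
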