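import Pool.Agent.V8H73.SE.Ji
import Pool.Agent.V8H73.SE.Def

/-!
# Some of the equations: dimension, freeness, generic exponential points
-/

set_option autoImplicit false
set_option linter.unusedSectionVars false

open MvPolynomial MeasureTheory Filter Topology

namespace Pool.Agent.V8H73.SE

open Pool.Agent.V8H73.AN (Ex Four Ph ez mo JJ Pj ιX ev_map Pj_map der_ev null_rel)

variable {n : ℕ} {S : Finset (Fin n × Ex n)}

/-- vectors with equal coordinates outside of the minor are equal -/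
theorem mat_zero {F ι ρ : Type} [Field F] [Fintype ι] [DecidableEq ι] [Fintype ρ] {R : ι → ρ}
    (hRi : Function.Injective R) {v : ι → ρ → F} (hR : (Matrix.of fun i j => v j (R i)).det ≠ 0) {w : ρ → F}
    (h1 : ∀ j, ∑ o, v j o * w o = 0) (h2 : ∀ o, (∀ i, R i ≠ o) → w o = 0) : w = 0 := by
  classical
  have h3 : (Matrix.of fun i j => v j (R i)).transpose.mulVec (fun i => w (R i)) = 0 := by
    funext j
    have h4 : ∑ i, v j (R i) * w (R i) = ∑ o, v j o * w o := by
      rw [← Finset.sum_subset (Finset.subset_univ (Finset.univ.image R)) fun o _ ho => ?_,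
        Finset.sum_image fun i _ i' _ h => hRi h]
      rw [h2 o fun i hi => ho (Finset.mem_image.2 ⟨i, Finset.mem_univ _, hi⟩), mul_zero]
    exact h4.trans (h1 j)
  have h6 := Matrix.eq_zero_of_mulVec_eq_zero (by rw [Matrix.det_transpose]; exact hR) h3
  funext o
  by_cases ho : ∀ i, R i ≠ o
  · exact h2 o ho
  · push Not at ho
    obtain ⟨i, rfl⟩ := ho
    exact congrFun h6 i

section one

variable {K : Subfield ℂ} {c : S → ℂ} {J : Finset (Fin n)} {L : Type} [Field L] [Algebra ℂ L] {p : Fin n ⊕ Fin n → L}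

theorem vi_poly (c' : S → ℂ) (j : Fin n) : Pj c' j ∈ Vi c' := by
  intro z hz
  rw [← val_ev]
  exact congrFun hz j

theorem vi_inf {c' : S → ℂ} (h : Cm K c') : (Zp (Vi c')).Infinite := by
  rw [Zp_Vi]
  exact h.inf

/-- the first coordinates are independent -/
theorem ind_xJ (hS : Four S) (hn : 0 < n) [Countable K] (hg : GJ K c J) (hp : Gp (IJ c J).radical p) :
    AlgebraicIndependent ℂ (fun l : Fin n => p (Sum.inl l)) := by
  obtain ⟨c', h⟩ := hg K inferInstance
  have := (h.vi hS hn).1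
  have h1 := ind_x (gp_frac (Vi c')) h.cm (vi_poly c') (vi_inf h.cm)
  rw [algebraicIndependent_iff] at h1 ⊢
  intro g hg'
  refine h1 g ?_
  have h2 : rename Sum.inl g ∈ (IJ c J).radical := by
    rw [← hp.ev, aeval_rename]
    exact hg'
  have h3 := ((gp_frac (Vi c')).ev _).2 (h.rad_le hS hn h2)
  rw [aeval_rename] at h3
  exact h3

theorem addfreeJ (hx : AlgebraicIndependent ℂ (fun l : Fin n => p (Sum.inl l))) (m : Fin n → ℤ) (hm : m ≠ 0) (b : ℂ) :
    (∑ i, (m i : L) * p (Sum.inl i)) ≠ algebraMap ℂ L b := by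
  intro h0
  have h1 : LinearIndependent ℤ (fun _ : Fin 1 => m) := LinearIndependent.of_subsingleton 0 hm
  have h2 := ind_forms hx h1
  have h3 := h2.transcendental 0
  rw [h0] at h3
  exact h3 (isAlgebraic_algebraMap b)

theorem rotundJ (hx : AlgebraicIndependent ℂ (fun l : Fin n => p (Sum.inl l))) (k : ℕ) (M : Fin k → Fin n → ℤ)
    (hM : LinearIndependent ℤ M) : ∃ s : Finset (Fin k ⊕ Fin k), s.card = k ∧
      AlgebraicIndependent ℂ (fun j : s => Sum.elim
        (fun r : Fin k => ∑ i, (M r i : L) * p (Sum.inl i))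
        (fun r : Fin k => ∏ i, p (Sum.inr i) ^ (M r i)) (j : Fin k ⊕ Fin k)) := by
  classical
  refine ⟨Finset.univ.map ⟨Sum.inl, Sum.inl_injective⟩, by rw [Finset.card_map, Finset.card_univ, Fintype.card_fin], ?_⟩
  have h1 : ∀ j : (Finset.univ.map ⟨Sum.inl, Sum.inl_injective⟩ : Finset (Fin k ⊕ Fin k)),
      ∃ r : Fin k, Sum.inl r = (j : Fin k ⊕ Fin k) := by
    rintro ⟨j, hj⟩
    obtain ⟨r, -, hr⟩ := Finset.mem_map.1 hj
    exact ⟨r, hr⟩
  choose ρ hρ using h1
  have h2 := (ind_forms hx hM).comp ρ fun j j' hj => Subtype.ext (by rw [← hρ j, ← hρ j', hj])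
  have h3 : (fun j : (Finset.univ.map ⟨Sum.inl, Sum.inl_injective⟩ : Finset (Fin k ⊕ Fin k)) => Sum.elim
      (fun r : Fin k => ∑ i, (M r i : L) * p (Sum.inl i))
      (fun r : Fin k => ∏ i, p (Sum.inr i) ^ (M r i)) (j : Fin k ⊕ Fin k)) =
      (fun r : Fin k => ∑ i, (M r i : L) * p (Sum.inl i)) ∘ ρ := by
    funext j
    rw [← hρ j]
    rfl
  rw [h3]
  exact h2

theorem mulfreeJ (hS : Four S) (hn : 0 < n) [Countable K] (hg : GJ K c J) (hp : Gp (IJ c J).radical p)
    (m : Fin n → ℤ) (hm : m ≠ 0) (b : ℂ) : (∏ i, p (Sum.inr i) ^ (m i)) ≠ algebraMap ℂ L b := by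
  classical
  obtain ⟨c', h⟩ := hg K inferInstance
  have := (h.vi hS hn).1
  intro h0
  have hgp := gp_frac (Vi c')
  have hX : ∀ i : Fin n, (X (Sum.inr i) : MvPolynomial (Fin n ⊕ Fin n) ℂ) ∉ Vi c' := by
    intro i hi
    obtain ⟨z, hz⟩ := (vi_inf h.cm).nonempty
    have h2 := hz _ hi
    rw [eval_X] at h2
    exact Complex.exp_ne_zero _ h2
  have hy : ∀ i, p (Sum.inr i) ≠ 0 := by
    intro i hi
    refine hX i (h.rad_le hS hn ?_)
    rw [← hp.ev, aeval_X]
    exact hi
  let f : MvPolynomial (Fin n ⊕ Fin n) ℂ := ∏ i, X (Sum.inr i) ^ (m i).toNat - C b * ∏ i, X (Sum.inr i) ^ (-m i).toNat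
  have hz1 : ∀ (E : Type) [Field E] (y : Fin n → E), (∀ i, y i ≠ 0) →
      (∏ i, y i ^ (m i)) * ∏ i, y i ^ (-m i).toNat = ∏ i, y i ^ (m i).toNat := by
    intro E _ y hy
    rw [← Finset.prod_mul_distrib]
    refine Finset.prod_congr rfl fun i _ => ?_
    rw [← zpow_natCast, ← zpow_add₀ (hy i), ← zpow_natCast]
    congr 1
    omega
  have hf : f ∈ (IJ c J).radical := by
    rw [← hp.ev]
    simp only [f, map_sub, map_mul, map_prod, map_pow, aeval_X, aeval_C]
    rw [← h0, hz1 _ _ hy, sub_self]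
  refine mulfree hgp h.cm (vi_poly c') (vi_inf h.cm) m hm b ?_
  have h1 := (hgp.ev f).2 (h.rad_le hS hn hf)
  have hy' : ∀ i : Fin n, (fun o => algebraMap (MvPolynomial (Fin n ⊕ Fin n) ℂ ⧸ Vi c')
      (FractionRing (MvPolynomial (Fin n ⊕ Fin n) ℂ ⧸ Vi c')) (Ideal.Quotient.mk (Vi c') (X o))) (Sum.inr i) ≠ 0 := by
    intro i hi
    refine hX i ?_
    rw [← hgp.ev, aeval_X]
    exact hi
  simp only [f, map_sub, map_mul, map_prod, map_pow, aeval_X, aeval_C] at h1
  rw [← hz1 _ _ hy', ← sub_mul] at h1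
  have h2 := Finset.prod_ne_zero_iff.2 fun (i : Fin n) (_ : i ∈ Finset.univ) => pow_ne_zero (-m i).toNat (hy' i)
  exact sub_eq_zero.1 ((mul_eq_zero.1 h1).resolve_right h2)

/-- **The dimension.** -/
theorem dimJ (hS : Four S) [Countable K]
    (hAJ : AlgebraicIndependent K (fun s : {s : S // s.1.1 ∈ J} => c s)) (hg : GJ K c J)
    (hp : Gp (IJ c J).radical p) : Algebra.trdeg ℂ L = (n + n - J.card : ℕ) := by
  classical
  obtain ⟨c', h⟩ := hg K inferInstance
  obtain ⟨z, hz⟩ := h.cm.inf.nonempty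
  have hq : ∀ j ∈ J, Pv c (ep z) j = 0 := by
    intro j hj
    unfold Pv
    rw [← Pj_congr (c := c) (c' := c') fun s hs => h.eq s (by rw [hs]; exact hj)]
    have h1 := congrFun (Pv_ep c' z) j
    rw [show val c' z = 0 from hz] at h1
    exact h1
  obtain ⟨R, hRi, hR, hRA⟩ := exists_R hS hAJ hq
  have hcard := card_compl hRi
  have hcard' : Fintype.card {o // ∀ i, R i ≠ o} = n + n - J.card := by omega
  refine le_antisymm ?_ ?_
  · have h1 : Algebra.trdeg ℂ (⊤ : IntermediateField ℂ L) ≤ (n + n - J.card : ℕ) := by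
      let e : Fin (n + n - J.card) ≃ {o // ∀ i, R i ≠ o} := (Fintype.equivFinOfCardEq hcard').symm
      let LZ : Derivation ℂ L L →ₗ[L] (Fin (n + n - J.card) → L) :=
        { toFun := fun δ i => δ (p (e i))
          map_add' := fun _ _ => rfl
          map_smul' := fun _ _ => rfl }
      refine trdeg_le_of_kill LZ _ fun δ hδ e' _ => der_pt hp δ ?_ e'
      have hdet : (Matrix.of fun i j : J => eval p (map (algebraMap ℂ L) (pderiv (R i) (Pj c j)))).det ≠ 0 := by
        intro h0
        have h2 : (Matrix.of fun i j : J => pderiv (R i) (Pj c j)).det ∈ (IJ c J).radical := by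
          rw [← hp.ev]
          have h3 := RingHom.map_det (aeval (R := ℂ) p).toRingHom (Matrix.of fun i j : J => pderiv (R i) (Pj c j))
          refine h3.trans (Eq.trans ?_ h0)
          congr 1
          ext i j
          change aeval p (pderiv (R i) (Pj c j)) = _
          rw [aeval_def, Matrix.of_apply, eval_map]
        have h3 := zeros_J' hq _ h2
        rw [RingHom.map_det] at h3
        exact hR h3
      have h2 : (fun o => δ (p o)) = 0 := by
        refine mat_zero hRi (v := fun (j : J) o => eval p (map (algebraMap ℂ L) (pderiv o (Pj c j)))) hdet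
          (fun j => ?_) fun o ho => ?_
        · have h4 := der_ev δ p (Pj c j)
          have h5 : eval p (map (algebraMap ℂ L) (Pj c j)) = 0 := by
            rw [eval_map, ← aeval_def, hp.ev]
            exact Ideal.le_radical (Ideal.subset_span ⟨j, j.2, rfl⟩)
          rw [h5, map_zero] at h4
          exact h4.symm
        · have h5 := congrFun hδ (e.symm ⟨o, ho⟩)
          change δ (p (e (e.symm ⟨o, ho⟩) : {o // ∀ i, R i ≠ o})) = 0 at h5
          rwa [Equiv.apply_symm_apply] at h5
      exact fun o => congrFun h2 o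
    rwa [AlgEquiv.trdeg_eq IntermediateField.topEquiv] at h1
  · have h2 : AlgebraicIndependent ℂ (fun o : {o // ∀ i, R i ≠ o} => p o) := by
      rw [algebraicIndependent_iff]
      intro g hg'
      have h3 : rename Subtype.val g ∈ (IJ c J).radical := by
        rw [← hp.ev, aeval_rename]
        exact hg'
      have hAc : Countable (Subfield.closure ((K : Set ℂ) ∪ Set.range g.coeff)) := cl_countable (Set.countable_range _)
      obtain ⟨p', -, hp', -, hpI⟩ := hRA (Subfield.closure ((K : Set ℂ) ∪ Set.range g.coeff)) hAc 1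
        (by rw [map_one]; exact one_ne_zero)
      have h4 := zeros_J' hp' _ h3
      rw [eval_rename] at h4
      obtain ⟨g0, hg0⟩ : g ∈ Set.range (map (algebraMap (Subfield.closure ((K : Set ℂ) ∪ Set.range g.coeff)) ℂ) :
          MvPolynomial {o // ∀ i, R i ≠ o} _ → MvPolynomial {o // ∀ i, R i ≠ o} ℂ) := by
        rw [mem_range_map_iff_coeffs_subset]
        intro x hx
        obtain ⟨mo, -, rfl⟩ := mem_coeffs_iff.1 hx
        exact ⟨⟨_, Subfield.subset_closure (Or.inr ⟨mo, rfl⟩)⟩, rfl⟩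
      have h5 : g0 = 0 := by
        refine (algebraicIndependent_iff.1 hpI) g0 ?_
        rw [← hg0, eval_map] at h4
        rw [aeval_def]
        exact h4
      rw [← hg0, h5, map_zero]
    have h3 := h2.cardinalMk_le_trdeg
    rw [Cardinal.mk_fintype, hcard'] at h3
    exact h3

end one

end Pool.Agent.V8H73.SE
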