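import Pool.Agent.V8H73.SE.Jr

/-!
# Some of the equations: irreducibility
-/

set_option autoImplicit false
set_option linter.unusedSectionVars false

open MvPolynomial MeasureTheory Filter Topology

namespace Pool.Agent.V8H73.SE

open Pool.Agent.V8H73.AN (Ex Four Ph ez mo JJ Pj ιX ev_map Pj_map der_ev null_rel)

variable {n : ℕ} {S : Finset (Fin n × Ex n)}

/-- the field generated by a point -/
noncomputable def Ep (E : Subfield ℂ) (p : Fin n ⊕ Fin n → ℂ) : Subfield ℂ :=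
  Subfield.closure ((E : Set ℂ) ∪ Set.range p)

theorem cl_countable {E : Subfield ℂ} [Countable E] {s : Set ℂ} (hs : s.Countable) :
    Countable (Subfield.closure ((E : Set ℂ) ∪ s)) := by
  have h1 : (Cardinal.mk (Subfield.closure ((E : Set ℂ) ∪ s))) ≤ Cardinal.aleph0 := by
    refine (Subfield.cardinalMk_closure_le_max _).trans ?_
    rw [max_le_iff]
    refine ⟨?_, le_rfl⟩
    rw [Cardinal.le_aleph0_iff_set_countable]
    exact Set.Countable.union (Set.countable_coe_iff.1 (inferInstanceAs (Countable E))) hs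
  exact Cardinal.mk_le_aleph0_iff.1 h1

/-- **New coefficients are independent.** -/
theorem cc_ind (hS : Four S) (hn : 0 < n) {J : Finset (Fin n)} {c : S → ℂ} {p : Fin n ⊕ Fin n → ℂ} {E : Subfield ℂ}
    (hcE : ∀ s : S, s.1.1 ∈ J → c s ∈ E) (hp : ∀ j, Pv c p j = 0) {R : J → Fin n ⊕ Fin n}
    (hRi : Function.Injective R) (hR : (mn c R p).det ≠ 0)
    (hJ : LinearIndependent ℂ (fun j : J => fun o => eval p (pderiv o (Pj c j))))
    (ht : AlgebraicIndependent E (fun o : {o // ∀ i, R i ≠ o} => p o))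
    (hI : AlgebraicIndependent (Ep E p) (fun s : {s : S // s.1.1 ∉ J ∧ s.1.2 ≠ 0} => c s)) :
    AlgebraicIndependent E (fun s : {s : S // s.1.1 ∉ J} => c s) := by
  classical
  have hEp : E ≤ Ep E p := fun x hx => Subfield.subset_closure (Or.inl hx)
  have hpE : ∀ o, p o ∈ Ep E p := fun o => Subfield.subset_closure (Or.inr ⟨o, rfl⟩)
  have hrows := rows_full hS hn hJ (fun s hs => hEp (hcE s hs)) hpE hI
  refine Pool.Agent.H135R2.VS.algInd_of_der fun v => ?_
  let v' : S → ℂ := fun s => if h : s.1.1 ∉ J then v ⟨s, h⟩ else 0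
  obtain ⟨τ, hτ⟩ := surj_rows hrows fun j => -Pv v' p j
  have hT := ai_tower' ht hEp (fun o => hpE o) hI
  obtain ⟨D, hD⟩ := Pool.Agent.H135R2.VS.exists_der hT (Sum.elim (fun o => τ o) fun s => v' s)
  have hDt : ∀ o, (∀ i, R i ≠ o) → D (p o) = τ o := fun o ho => hD (Sum.inl ⟨o, ho⟩)
  have hDc : ∀ s : S, s.1.1 ∉ J → s.1.2 ≠ 0 → D (c s) = v' s := fun s h1 h2 => hD (Sum.inr ⟨s, h1, h2⟩)
  have hDE : ∀ x ∈ E, D x = 0 := fun x hx => Derivation.map_algebraMap D (⟨x, hx⟩ : E)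
  have hPvJ : ∀ (a : S → ℂ) (j : Fin n), j ∈ J → (∀ s : S, s.1.1 ∈ J → a s = 0) → Pv a p j = 0 := by
    intro a j hj ha
    rw [Pv_sum]
    refine Finset.sum_eq_zero fun s _ => ?_
    split_ifs with h
    · rw [ha s (by rw [h]; exact hj), zero_mul]
    · rfl
  have hv' : ∀ s : S, s.1.1 ∈ J → v' s = 0 := fun s hs => dif_neg (not_not.2 hs)
  have hpτ : ∀ o, D (p o) = τ o := by
    have h1 : (fun o => D (p o) - τ o) = 0 := by
      refine mn_zero hRi hR (fun j hj => ?_) fun o ho => sub_eq_zero.2 (hDt o ho)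
      have h2 := der_full D c p j
      rw [hp j, map_zero, hPvJ _ j hj fun s hs => hDE _ (hcE s hs), zero_add] at h2
      have h3 := hτ j
      rw [hPvJ _ j hj hv', neg_zero] at h3
      simp only [mul_sub, Finset.sum_sub_distrib]
      rw [← h2, h3, sub_zero]
    intro o
    exact sub_eq_zero.1 (congrFun h1 o)
  refine ⟨D, ?_⟩
  rintro ⟨s, hs⟩
  have hvs : v' s = v ⟨s, hs⟩ := dif_pos hs
  rw [← hvs]
  by_cases hs0 : s.1.2 = 0
  · have h2 := der_full D c p s.1.1
    rw [hp, map_zero] at h2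
    simp only [hpτ] at h2
    rw [hτ, ← sub_eq_add_neg] at h2
    have h3 : Pv (fun s => D (c s) - v' s) p s.1.1 = 0 := by
      rw [Pv_sub, Pi.sub_apply]
      exact h2.symm
    have h4 := Pv_one1 hS (a := fun s => D (c s) - v' s) (j := s.1.1) (fun s' h5 h6 => ?_) p
    · rw [h3] at h4
      have h5 : s = ⟨(s.1.1, 0), hS.h0 s.1.1⟩ := Subtype.ext (Prod.ext rfl hs0)
      rw [← h5] at h4
      exact sub_eq_zero.1 h4.symm
    · refine sub_eq_zero.2 (hDc s' (by rw [h5]; exact hs) fun h7 => h6 ?_)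
      exact Subtype.ext (Prod.ext h5 h7)
  · exact hDc s hs hs0

/-- the ideal of the equations in `J` -/
noncomputable def IJ (c : S → ℂ) (J : Finset (Fin n)) : Ideal (MvPolynomial (Fin n ⊕ Fin n) ℂ) :=
  Ideal.span (Pj c '' (J : Set (Fin n)))

/-- good completions -/
structure Gc (K A : Subfield ℂ) (c : S → ℂ) (J : Finset (Fin n)) (c' : S → ℂ) : Prop where
  eq : ∀ s : S, s.1.1 ∈ J → c' s = c s
  cm : Cm K c'
  ai : AlgebraicIndependent K (Sum.elim c' fun q : {z : Fin n → ℂ // val c' z = 0} × Fin n => (q.1 : Fin n → ℂ) q.2)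
  ind : AlgebraicIndependent A (fun s : {s : S // s.1.1 ∉ J} => c' s)

/-- what is used of the coefficients -/
def GJ (K : Subfield ℂ) (c : S → ℂ) (J : Finset (Fin n)) : Prop :=
  ∀ A : Subfield ℂ, Countable A → ∃ c' : S → ℂ, Gc K A c J c'

section key

variable {K A : Subfield ℂ} {c c' : S → ℂ} {J : Finset (Fin n)}

theorem Gc.le (h : Gc K A c J c') : IJ c J ≤ Ideal.span (Set.range (Pj c')) := by
  refine Ideal.span_le.2 ?_
  rintro _ ⟨j, hj, rfl⟩
  rw [← Pj_congr (c := c) (c' := c') fun s hs => h.eq s (by rw [hs]; exact hj)]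
  exact Ideal.subset_span ⟨j, rfl⟩

theorem Gc.vi [Countable K] (hS : Four S) (hn : 0 < n) (h : Gc K A c J c') :
    (Vi c').IsPrime ∧ (Ideal.span (Set.range (Pj c'))).radical = Vi c' :=
  ⟨(Vi_main hS ⟨0, hn⟩ h.cm h.ai).1, rad_eq hS ⟨0, hn⟩ h.cm h.ai⟩

theorem Gc.rad_le [Countable K] (hS : Four S) (hn : 0 < n) (h : Gc K A c J c') : (IJ c J).radical ≤ Vi c' := by
  rw [← (h.vi hS hn).2]
  exact Ideal.radical_mono h.le

theorem zeros_J {q : Fin n ⊕ Fin n → ℂ} (hq : ∀ f ∈ IJ c J, eval q f = 0) : ∀ j ∈ J, Pv c q j = 0 :=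
  fun j hj => hq _ (Ideal.subset_span ⟨j, hj, rfl⟩)

theorem zeros_J' {q : Fin n ⊕ Fin n → ℂ} (hq : ∀ j ∈ J, Pv c q j = 0) : ∀ f ∈ (IJ c J).radical, eval q f = 0 := by
  have h1 : ∀ f ∈ IJ c J, eval q f = 0 := by
    intro f hf
    have h2 : IJ c J ≤ RingHom.ker (eval q : MvPolynomial (Fin n ⊕ Fin n) ℂ →+* ℂ) := by
      refine Ideal.span_le.2 ?_
      rintro _ ⟨j, hj, rfl⟩
      exact hq j hj
    exact h2 hf
  rintro f ⟨k, hk⟩
  have h2 := h1 _ hk
  rw [map_pow] at h2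
  by_contra h3
  exact pow_ne_zero k h3 h2

/-- a point where a polynomial does not vanish -/
theorem exists_pt {f : MvPolynomial (Fin n ⊕ Fin n) ℂ} (hf : f ∉ (IJ c J).radical) :
    ∃ q : Fin n ⊕ Fin n → ℂ, (∀ j ∈ J, Pv c q j = 0) ∧ eval q f ≠ 0 := by
  by_contra hcon
  push Not at hcon
  apply hf
  rw [← MvPolynomial.vanishingIdeal_zeroLocus_eq_radical (K := ℂ), mem_vanishingIdeal_iff]
  intro x hx
  exact hcon x (zeros_J fun g hg => hx g hg)

/-- good points with the same free coordinates -/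
theorem exists_R (hS : Four S) (hAJ : AlgebraicIndependent K (fun s : {s : S // s.1.1 ∈ J} => c s))
    {q : Fin n ⊕ Fin n → ℂ} (hq : ∀ j ∈ J, Pv c q j = 0) :
    ∃ R : J → Fin n ⊕ Fin n, Function.Injective R ∧ (mn c R q).det ≠ 0 ∧
      ∀ (A : Subfield ℂ) (_ : Countable A) (f : MvPolynomial (Fin n ⊕ Fin n) ℂ), eval q f ≠ 0 →
        ∃ p : Fin n ⊕ Fin n → ℂ, (mn c R p).det ≠ 0 ∧ (∀ j ∈ J, Pv c p j = 0) ∧ eval p f ≠ 0 ∧
          AlgebraicIndependent A (fun o : {o // ∀ i, R i ≠ o} => p o) := by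
  classical
  obtain ⟨R, hRi, hR, hloc⟩ := loc_J hq (rows_J hS hAJ hq)
  refine ⟨R, hRi, hR, fun A hAc f hqf => ?_⟩
  have hdet : ∀ p : Fin n ⊕ Fin n → ℂ, (mn c R p).det =
      eval p (Matrix.of fun i j : J => pderiv (R i) (Pj c j)).det := by
    intro p
    rw [RingHom.map_det]
    rfl
  have hU : {p : Fin n ⊕ Fin n → ℂ | eval p f ≠ 0 ∧ (mn c R p).det ≠ 0} ∈ 𝓝 q := by
    refine Filter.inter_mem ((MvPolynomial.continuous_eval f).continuousAt.eventually_ne hqf) ?_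
    simp only [hdet]
    refine (MvPolynomial.continuous_eval _).continuousAt.eventually_ne ?_
    rw [← hdet]
    exact hR
  have h3 : Dense {t : {o // ∀ i, R i ≠ o} → ℂ | AlgebraicIndependent A t} := Measure.dense_of_ae ae_ai
  obtain ⟨t, ⟨p, hpU, hp0, hpt⟩, htI⟩ := mem_closure_iff_nhds.1 (h3 fun o : {o // ∀ i, R i ≠ o} => q o) _
    (hloc _ hU)
  refine ⟨p, hpU.2, hp0, hpU.1, ?_⟩
  have h5 : (fun o : {o // ∀ i, R i ≠ o} => p o) = t := funext hpt
  rw [h5]
  exact htI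

/-- **Polynomials vanishing for the completed system.** -/
theorem key_J (hS : Four S) (hn : 0 < n) [Countable K] [Countable A] (hA : ∀ s : S, s.1.1 ∈ J → c s ∈ A)
    (hAJ : AlgebraicIndependent K (fun s : {s : S // s.1.1 ∈ J} => c s)) (hg : Gc K A c J c')
    {f : MvPolynomial (Fin n ⊕ Fin n) ℂ} (hfA : ∀ mo, f.coeff mo ∈ A) (hf : f ∉ (IJ c J).radical) : f ∉ Vi c' := by
  classical
  intro hfv
  obtain ⟨q, hq, hqf⟩ := exists_pt hf
  obtain ⟨R, hRi, -, hRA⟩ := exists_R hS hAJ hq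
  obtain ⟨p, hR, hp, hpf, htI⟩ := hRA A inferInstance f hqf
  have hEc : Countable (Ep A p) := cl_countable (Set.finite_range p).countable
  obtain ⟨x, hx⟩ : ∃ x : {s : S // s.1.1 ∉ J ∧ s.1.2 ≠ 0} → ℂ, AlgebraicIndependent (Ep A p) x := by
    have h1 := ae_ai (F := Ep A p) (X := {s : S // s.1.1 ∉ J ∧ s.1.2 ≠ 0})
    exact h1.exists
  let a : S → ℂ := fun s => if s.1.1 ∈ J then c s else if h : s.1.1 ∉ J ∧ s.1.2 ≠ 0 then x ⟨s, h⟩ else 0
  let c₂ : S → ℂ := fun s => if s.1.1 ∉ J ∧ s.1.2 = 0 then a s - Pv a p s.1.1 else a s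
  have hc2J : ∀ s : S, s.1.1 ∈ J → c₂ s = c s := by
    intro s hs
    have h1 : c₂ s = a s := if_neg fun h => h.1 hs
    rw [h1]
    exact if_pos hs
  have hc2x : ∀ s : {s : S // s.1.1 ∉ J ∧ s.1.2 ≠ 0}, c₂ s = x s := by
    intro s
    have h1 : c₂ s = a s := if_neg fun h => s.2.2 h.2
    rw [h1]
    have h2 : a s = if h : (s : S).1.1 ∉ J ∧ (s : S).1.2 ≠ 0 then x ⟨s, h⟩ else 0 := if_neg s.2.1
    rw [h2, dif_pos s.2]
  have hPj : ∀ j ∈ J, Pj c₂ j = Pj c j := fun j hj => Pj_congr fun s hs => hc2J s (by rw [hs]; exact hj)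
  have hc2p : ∀ j, Pv c₂ p j = 0 := by
    intro j
    by_cases hj : j ∈ J
    · unfold Pv
      rw [hPj j hj]
      exact hp j hj
    · have h1 : Pv (fun s => c₂ s - a s) p j = -Pv a p j := by
        rw [Pv_one1 hS]
        · have h2 : c₂ ⟨(j, 0), hS.h0 j⟩ = a ⟨(j, 0), hS.h0 j⟩ - Pv a p j := if_pos ⟨hj, rfl⟩
          rw [h2]
          ring
        · intro s h2 h3
          refine sub_eq_zero.2 (if_neg fun h4 => h3 ?_)
          exact Subtype.ext (Prod.ext h2 h4.2)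
      rw [Pv_sub, Pi.sub_apply] at h1
      linear_combination h1
  have hmn : mn c₂ R p = mn c R p := by
    ext i j
    change eval p (pderiv (R i) (Pj c₂ j)) = eval p (pderiv (R i) (Pj c j))
    rw [hPj j j.2]
  have hI2 : AlgebraicIndependent (Ep A p) (fun s : {s : S // s.1.1 ∉ J ∧ s.1.2 ≠ 0} => c₂ s) := by
    have h1 : (fun s : {s : S // s.1.1 ∉ J ∧ s.1.2 ≠ 0} => c₂ s) = x := funext hc2x
    rw [h1]
    exact hx
  have hrJ : LinearIndependent ℂ (fun j : J => fun o => eval p (pderiv o (Pj c₂ j))) := by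
    have h1 : (fun j : J => fun o => eval p (pderiv o (Pj c₂ j))) = fun j : J => fun o => eval p (pderiv o (Pj c j)) :=
      funext fun j => by rw [hPj j j.2]
    rw [h1]
    exact rows_J hS hAJ hp
  have hind := cc_ind hS hn (fun s hs => by rw [hc2J s hs]; exact hA s hs) hc2p hRi (by rw [hmn]; exact hR) hrJ htI hI2
  obtain ⟨σ, hσA, hσ⟩ := exists_sigma hind hg.ind
  have hσc : ∀ s, σ (c₂ s) = c' s := by
    intro s
    by_cases hs : s.1.1 ∈ J
    · rw [hc2J s hs, hg.eq s hs]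
      exact hσA ⟨c s, hA s hs⟩
    · exact hσ ⟨s, hs⟩
  have h1 : ∀ j, Pv c' (fun o => σ (p o)) j = 0 := by
    intro j
    have h2 := map_Pv σ c₂ p j
    rw [hc2p, map_zero] at h2
    have h3 : (fun s => σ (c₂ s)) = c' := funext hσc
    rw [h3] at h2
    exact h2.symm
  have h2 : eval (fun o => σ (p o)) f = 0 := by
    rw [← (hg.vi hS hn).2] at hfv
    obtain ⟨k, hk⟩ := hfv
    have h3 : Ideal.span (Set.range (Pj c')) ≤ RingHom.ker (eval (fun o => σ (p o)) :
        MvPolynomial (Fin n ⊕ Fin n) ℂ →+* ℂ) := by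
      refine Ideal.span_le.2 ?_
      rintro _ ⟨j, rfl⟩
      exact h1 j
    have h4 : eval (fun o => σ (p o)) (f ^ k) = 0 := h3 hk
    rw [map_pow] at h4
    by_contra h5
    exact pow_ne_zero k h5 h4
  have h3 := ev_map (σ : ℂ →+* ℂ) p f
  have h4 : map (σ : ℂ →+* ℂ) f = f := by
    ext mo
    rw [coeff_map]
    exact hσA ⟨_, hfA mo⟩
  rw [h4] at h3
  have h5 : σ (eval p f) = 0 := h3.trans h2
  exact hpf ((map_eq_zero σ).1 h5)

/-- **The variety of the equations in `J` is irreducible.** -/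
theorem irr_J (hS : Four S) (hn : 0 < n) [Countable K]
    (hAJ : AlgebraicIndependent K (fun s : {s : S // s.1.1 ∈ J} => c s)) (hg : GJ K c J) :
    (IJ c J).radical.IsPrime := by
  classical
  constructor
  · intro htop
    obtain ⟨c', h⟩ := hg K inferInstance
    have h1 := h.rad_le hS hn
    rw [htop, top_le_iff] at h1
    exact (h.vi hS hn).1.ne_top h1
  · intro f g hfg
    by_contra hcon
    push Not at hcon
    let E : Subfield ℂ := Subfield.closure ((K : Set ℂ) ∪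
      (Set.range c ∪ (Set.range f.coeff ∪ Set.range g.coeff)))
    have hfin : ∀ f : MvPolynomial (Fin n ⊕ Fin n) ℂ, (Set.range f.coeff).Countable := by
      intro f
      exact Set.countable_range _
    have hEc : Countable E := cl_countable ((Set.finite_range c).countable.union ((hfin f).union (hfin g)))
    obtain ⟨c', h⟩ := hg E hEc
    have hA : ∀ s : S, s.1.1 ∈ J → c s ∈ E := fun s _ => Subfield.subset_closure (Or.inr (Or.inl ⟨s, rfl⟩))
    have h1 := key_J hS hn hA hAJ h (f := f)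
      (fun mo => Subfield.subset_closure (Or.inr (Or.inr (Or.inl ⟨mo, rfl⟩)))) hcon.1
    have h2 := key_J hS hn hA hAJ h (f := g)
      (fun mo => Subfield.subset_closure (Or.inr (Or.inr (Or.inr ⟨mo, rfl⟩)))) hcon.2
    rcases (h.vi hS hn).1.mem_or_mem (h.rad_le hS hn hfg) with h3 | h3
    · exact h1 h3
    · exact h2 h3

end key

end Pool.Agent.V8H73.SE
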