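import Pool.Agent.V8H73.SE.Ji

/-!
# Some of the equations: almost all coefficients
-/

set_option autoImplicit false
set_option linter.unusedSectionVars false

open MvPolynomial MeasureTheory Filter Topology

namespace Pool.Agent.V8H73.SE

open Pool.Agent.V8H73.AN (Ex Four Ph ez mo JJ Pj ιX ev_map Pj_map der_ev null_rel null_rel_R)

/-- almost all real points are independent -/
theorem ae_ai_R {F : Type} [Field F] [Algebra F ℂ] [Countable F] {X : Type} [Fintype X] :
    ∀ᵐ t : X → ℝ, AlgebraicIndependent F (fun x => (t x : ℂ)) := by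
  classical
  have hcount := Pool.Agent.Y563.SE.countable_mvPolynomial X F
  have hI : Pool.Agent.N207.AX.Ind (Set.univ : Set (X → ℂ)) (fun e : Empty => (e.elim : (X → ℂ) → ℂ)) := by
    intro p hp
    obtain ⟨r, rfl⟩ : ∃ r, p = C r := ⟨_, MvPolynomial.eq_C_of_isEmpty p⟩
    have h1 : r = 0 := MvPolynomial.funext fun z => by
      have h2 := hp z trivial
      rw [eval₂_C] at h2
      rw [h2, map_zero]
    rw [h1, map_zero]
  rw [ae_iff]
  refine measure_mono_null (t := ⋃ p : {p : MvPolynomial X F // p ≠ 0}, {t : X → ℝ | ιX X t ∈ Set.univ ∧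
    eval (Sum.elim (ιX X t) fun e : Empty => (e.elim : (X → ℂ) → ℂ) (ιX X t))
      (rename Sum.inl (map (algebraMap F ℂ) p.1)) = 0}) ?_ (measure_iUnion_null fun p => ?_)
  · intro t ht
    have ht' : ¬ AlgebraicIndependent F (fun x => (t x : ℂ)) := ht
    rw [algebraicIndependent_iff] at ht'
    push Not at ht'
    obtain ⟨p, hp1, hp2⟩ := ht'
    refine Set.mem_iUnion.2 ⟨⟨p, hp2⟩, trivial, ?_⟩
    rw [eval_rename]
    have h1 : (Sum.elim (ιX X t) fun e : Empty => (e.elim : (X → ℂ) → ℂ) (ιX X t)) ∘ Sum.inl =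
      fun x => (t x : ℂ) := rfl
    rw [h1, eval_map]
    exact hp1
  · refine null_rel_R isOpen_univ isPreconnected_univ (fun e => e.elim) hI fun h => p.2 ?_
    have h1 : map (algebraMap F ℂ) p.1 = 0 := rename_injective _ Sum.inl_injective (by rw [h, map_zero])
    exact map_injective _ (algebraMap F ℂ).injective (by rw [h1, map_zero])

/-- completions of almost all vectors -/
theorem split_ae {α : Type} [MeasureSpace α] [SigmaFinite (volume : Measure α)] {X : Type} [Fintype X] (p : X → Prop)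
    [DecidablePred p] {Q : (X → α) → Prop} (h : ∀ᵐ x : X → α, Q x) :
    ∀ᵐ x : X → α, ∀ᵐ y : {i // ¬ p i} → α, Q (fun i => if h : p i then x i else y ⟨i, h⟩) := by
  have he := volume_preserving_piEquivPiSubtypeProd (fun _ : X => α) p
  have h1 : ∀ᵐ z : ({i // p i} → α) × ({i // ¬ p i} → α), Q ((MeasurableEquiv.piEquivPiSubtypeProd (fun _ : X => α) p).symm z) :=
    (he.symm _).quasiMeasurePreserving.ae h
  have h2 : ∀ᵐ x : {i // p i} → α, ∀ᵐ y : {i // ¬ p i} → α,
      Q ((MeasurableEquiv.piEquivPiSubtypeProd (fun _ : X => α) p).symm (x, y)) := Measure.ae_ae_of_ae_prod h1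
  have h3 := (Measure.quasiMeasurePreserving_fst.comp he.quasiMeasurePreserving).ae h2
  exact h3

variable {n : ℕ} {S : Finset (Fin n × Ex n)}

/-- **Almost all coefficients.** -/
theorem ae_GJ (hS : Four S) (hn : 0 < n) (K : Subfield ℂ) [Countable K] (J : Finset (Fin n)) :
    (∀ᵐ c : S → ℂ, GJ K c J) ∧ ∀ᵐ u : S → ℝ, GJ K (ιX S u) J := by
  classical
  constructor
  · filter_upwards [split_ae (fun s : S => s.1.1 ∈ J) (ae_both hS hn K).1] with c hc
    intro A hA
    obtain ⟨y, hy, hyI⟩ := (hc.and (ae_ai (F := A) (X := {s : S // ¬ s.1.1 ∈ J}))).exists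
    refine ⟨_, ⟨fun s hs => dif_pos hs, hy.1, hy.2, ?_⟩⟩
    have h1 : (fun s : {s : S // s.1.1 ∉ J} => (fun i : S => if h : i.1.1 ∈ J then c i else y ⟨i, h⟩) s) = y :=
      funext fun s => dif_neg s.2
    rw [h1]
    exact hyI
  · filter_upwards [split_ae (fun s : S => s.1.1 ∈ J) (ae_both hS hn K).2] with u hc
    intro A hA
    obtain ⟨y, hy, hyI⟩ := (hc.and (ae_ai_R (F := A) (X := {s : S // ¬ s.1.1 ∈ J}))).exists
    refine ⟨_, ⟨fun s hs => ?_, hy.1, hy.2, ?_⟩⟩
    · rw [Pool.Agent.V8H73.AN.ιX_apply, Pool.Agent.V8H73.AN.ιX_apply]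
      congr 1
      exact dif_pos hs
    · have h1 : (fun s : {s : S // s.1.1 ∉ J} => (ιX S (fun i : S => if h : i.1.1 ∈ J then u i else y ⟨i, h⟩)) s) =
          fun s => (y s : ℂ) := by
        funext s
        rw [Pool.Agent.V8H73.AN.ιX_apply]
        congr 1
        exact dif_neg s.2
      rw [h1]
      exact hyI

end Pool.Agent.V8H73.SE
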