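import Pool.Agent.V8H73.SE.Irr

/-!
# Some of the equations: smooth points
-/

set_option autoImplicit false
set_option linter.unusedSectionVars false

open MvPolynomial MeasureTheory Filter Topology

namespace Pool.Agent.V8H73.SE

open Pool.Agent.V8H73.AN (Ex Four Ph ez mo JJ Pj ιX ev_map Pj_map der_ev null_rel)

variable {n : ℕ} {S : Finset (Fin n × Ex n)}

theorem Pv_one1 (hS : Four S) {a : S → ℂ} {j : Fin n} (ha : ∀ q : S, q.1.1 = j → q ≠ ⟨(j, 0), hS.h0 j⟩ → a q = 0)
    (p : Fin n ⊕ Fin n → ℂ) : Pv a p j = a ⟨(j, 0), hS.h0 j⟩ := by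
  classical
  rw [Pv_sum, Finset.sum_eq_single ⟨(j, 0), hS.h0 j⟩]
  · rw [if_pos rfl, monomial_zero', map_one, map_one, mul_one]
  · intro q _ hq
    split_ifs with h3
    · rw [ha q h3 hq, zero_mul]
    · rfl
  · exact fun h => absurd (Finset.mem_univ _) h

/-- equal coefficients -/
theorem Pj_congr {c c' : S → ℂ} {j : Fin n} (h : ∀ s : S, s.1.1 = j → c' s = c s) : Pj c' j = Pj c j := by
  unfold Pj
  refine Finset.sum_congr rfl fun s _ => ?_
  split_ifs with h1
  · rw [h s h1]
  · rfl

/-- the equations are independent -/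
theorem rows_J (hS : Four S) {J : Finset (Fin n)} {K : Subfield ℂ} {c : S → ℂ}
    (hc : AlgebraicIndependent K (fun s : {s : S // s.1.1 ∈ J} => c s)) {q : Fin n ⊕ Fin n → ℂ}
    (hq : ∀ j ∈ J, Pv c q j = 0) :
    LinearIndependent ℂ (fun j : J => fun o => eval q (pderiv o (Pj c j))) := by
  classical
  rw [Fintype.linearIndependent_iff]
  intro g hg j0
  obtain ⟨D, hD⟩ := Pool.Agent.H135R2.VS.exists_der hc fun s => if (s : S) = ⟨(j0, 0), hS.h0 j0⟩ then 1 else 0
  have h1 : ∀ j : J, Pv (fun s => D (c s)) q j = if j = j0 then 1 else 0 := by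
    intro j
    rw [Pv_one1 hS (fun s hs hs' => ?_)]
    · have h := hD ⟨⟨((j : Fin n), 0), hS.h0 j⟩, j.2⟩
      refine h.trans ?_
      by_cases hj : j = j0
      · subst hj
        rw [if_pos rfl, if_pos rfl]
      · rw [if_neg hj, if_neg]
        intro h2
        exact hj (Subtype.ext (congrArg (fun s : S => s.1.1) h2))
    · have h := hD ⟨s, by rw [hs]; exact j.2⟩
      refine h.trans (if_neg fun h2 => ?_)
      change s = ⟨((j0 : Fin n), 0), hS.h0 j0⟩ at h2
      have h3 : (j : Fin n) = j0 := by rw [← hs, h2]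
      exact hs' (by rw [h2, h3])
  have h2 : ∑ j : J, g j * D (Pv c q j) = g j0 := by
    simp only [der_full, h1, mul_add, Finset.sum_add_distrib]
    have h3 : ∑ j : J, g j * ∑ o, eval q (pderiv o (Pj c j)) * D (q o) = 0 := by
      simp only [Finset.mul_sum]
      rw [Finset.sum_comm]
      refine Finset.sum_eq_zero fun o _ => ?_
      have h4 := congrFun hg o
      rw [Finset.sum_apply] at h4
      simp only [Pi.smul_apply, smul_eq_mul, Pi.zero_apply] at h4
      have h5 : ∑ j : J, g j * (eval q (pderiv o (Pj c j)) * D (q o)) =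
          (∑ j : J, g j * eval q (pderiv o (Pj c j))) * D (q o) := by
        rw [Finset.sum_mul]
        exact Finset.sum_congr rfl fun j _ => by ring
      rw [h5, h4, zero_mul]
    rw [h3, add_zero]
    simp
  rw [← h2]
  refine Finset.sum_eq_zero fun j _ => ?_
  rw [hq j j.2, map_zero, mul_zero]

/-- **New equations are independent.** -/
theorem rows_full (hS : Four S) (hn : 0 < n) {J : Finset (Fin n)} {c : S → ℂ} {q : Fin n ⊕ Fin n → ℂ}
    (hJ : LinearIndependent ℂ (fun j : J => fun o => eval q (pderiv o (Pj c j))))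
    {F : Subfield ℂ} (hcF : ∀ s : S, s.1.1 ∈ J → c s ∈ F) (hqF : ∀ o, q o ∈ F)
    (hI : AlgebraicIndependent F (fun s : {s : S // s.1.1 ∉ J ∧ s.1.2 ≠ 0} => c s)) :
    LinearIndependent ℂ (fun j : Fin n => fun o => eval q (pderiv o (Pj c j))) := by
  classical
  rw [Fintype.linearIndependent_iff]
  intro g hg
  have hgJ : ∀ j, j ∉ J → g j = 0 := by
    intro j1 hj1
    by_contra hg1
    have hspan : ∀ o1 : Fin n ⊕ Fin n, (Pi.single o1 1 : Fin n ⊕ Fin n → ℂ) ∈
        Submodule.span ℂ (Set.range fun j : Fin n => fun o => eval q (pderiv o (Pj c j))) := by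
      intro o1
      have hs1 : ((j1, Finsupp.single o1 1) : Fin n × Ex n) ∈ S := by
        rcases o1 with l | l
        · exact hS.hx j1 l
        · exact hS.hy j1 l
      have h10 : (Finsupp.single o1 1 : Ex n) ≠ 0 := by
        intro h
        have := DFunLike.congr_fun h o1
        rw [Finsupp.single_eq_same] at this
        exact one_ne_zero this
      obtain ⟨D, hD⟩ := Pool.Agent.H135R2.VS.exists_der hI
        fun s => if (s : S) = ⟨(j1, Finsupp.single o1 1), hs1⟩ then 1 else 0
      have hDF : ∀ x ∈ F, D x = 0 := fun x hx => Derivation.map_algebraMap D (⟨x, hx⟩ : F)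
      have hDE : ∀ (e : Ex n) (o : Fin n ⊕ Fin n), D (eval q (pderiv o (monomial e (1 : ℂ)))) = 0 := by
        intro e o
        have h1 := der_ev D q (pderiv o (monomial e (1 : F)))
        rw [← pderiv_map, map_monomial, map_one] at h1
        rw [h1]
        exact Finset.sum_eq_zero fun o' _ => by rw [hDF _ (hqF o'), mul_zero]
      have hDv : ∀ (j : Fin n) (o : Fin n ⊕ Fin n), D (eval q (pderiv o (Pj c j))) =
          if j = j1 then (if o = o1 then 1 else 0) else 0 := by
        intro j o
        rw [dPj_sum', map_sum]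
        have h1 : ∀ s : S, D (if s.1.1 = j then c s * eval q (pderiv o (monomial s.1.2 1)) else 0) =
            if s = ⟨(j1, Finsupp.single o1 1), hs1⟩ then (if j = j1 then (if o = o1 then 1 else 0) else 0) else 0 := by
          intro s
          by_cases hs : s.1.1 = j
          · rw [if_pos hs, Derivation.leibniz, hDE, smul_zero, zero_add, smul_eq_mul]
            by_cases hsJ : s.1.1 ∈ J
            · rw [hDF _ (hcF s hsJ), mul_zero, if_neg]
              intro h
              rw [h] at hsJ
              exact hj1 hsJ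
            · by_cases hs0 : s.1.2 = 0
              · rw [hs0, monomial_zero', map_one, Derivation.map_one_eq_zero, map_zero, zero_mul, if_neg]
                intro h
                rw [h] at hs0
                exact h10 hs0
              · have h2 := hD ⟨s, hsJ, hs0⟩
                change D (c s) = _ at h2
                rw [h2]
                by_cases hs1' : s = ⟨(j1, Finsupp.single o1 1), hs1⟩
                · rw [if_pos hs1', if_pos hs1', mul_one]
                  have h3 : s.1.2 = Finsupp.single o1 1 := by rw [hs1']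
                  have h4 : j = j1 := by rw [← hs, hs1']
                  rw [h3, if_pos h4]
                  have h5 : (monomial (Finsupp.single o1 1) (1 : ℂ) : MvPolynomial (Fin n ⊕ Fin n) ℂ) = X o1 := rfl
                  rw [h5, pderiv_X]
                  by_cases ho : o = o1
                  · subst ho
                    simp
                  · rw [if_neg ho, Pi.single_eq_of_ne (Ne.symm ho), map_zero]
                · rw [if_neg hs1', if_neg hs1', mul_zero]
          · rw [if_neg hs, map_zero]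
            by_cases h : s = ⟨(j1, Finsupp.single o1 1), hs1⟩
            · rw [if_pos h, if_neg]
              intro h2
              apply hs
              rw [h, h2]
            · rw [if_neg h]
        rw [Finset.sum_congr rfl fun s _ => h1 s]
        simp
      have h6 : (Pi.single o1 1 : Fin n ⊕ Fin n → ℂ) = ∑ j, (-(g j1)⁻¹ * D (g j)) • fun o => eval q (pderiv o (Pj c j)) := by
        funext o
        have h7 := congrArg D (congrFun hg o)
        rw [Finset.sum_apply, Pi.zero_apply, map_zero, map_sum] at h7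
        simp only [Pi.smul_apply, smul_eq_mul, Derivation.leibniz, hDv] at h7
        rw [Finset.sum_add_distrib] at h7
        have h8 : ∑ j, g j * (if j = j1 then (if o = o1 then (1 : ℂ) else 0) else 0) =
            g j1 * (if o = o1 then 1 else 0) := by
          rw [Finset.sum_eq_single j1]
          · rw [if_pos rfl]
          · intro j _ hj
            rw [if_neg hj, mul_zero]
          · intro h
            exact absurd (Finset.mem_univ _) h
        rw [h8] at h7
        rw [Finset.sum_apply]
        simp only [Pi.smul_apply, smul_eq_mul]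
        have h9 : ∑ j, -(g j1)⁻¹ * D (g j) * eval q (pderiv o (Pj c j)) =
            -(g j1)⁻¹ * ∑ j, eval q (pderiv o (Pj c j)) * D (g j) := by
          rw [Finset.mul_sum]
          exact Finset.sum_congr rfl fun j _ => by ring
        rw [h9, show ∑ j, eval q (pderiv o (Pj c j)) * D (g j) = - (g j1 * (if o = o1 then 1 else 0)) from
          eq_neg_of_add_eq_zero_right h7]
        by_cases ho : o = o1
        · subst ho
          rw [Pi.single_eq_same, if_pos rfl]
          field_simp
        · rw [Pi.single_eq_of_ne ho, if_neg ho]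
          simp
      rw [h6]
      exact Submodule.sum_mem _ fun j _ => Submodule.smul_mem _ _ (Submodule.subset_span ⟨j, rfl⟩)
    have htop : Submodule.span ℂ (Set.range fun j : Fin n => fun o => eval q (pderiv o (Pj c j))) = ⊤ := by
      rw [eq_top_iff]
      intro w _
      have h1 : w = ∑ o, w o • (Pi.single o 1 : Fin n ⊕ Fin n → ℂ) := by
        funext o
        rw [Finset.sum_apply]
        simp [Pi.single_apply]
      rw [h1]
      exact Submodule.sum_mem _ fun o _ => Submodule.smul_mem _ _ (hspan o)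
    have h1 := finrank_range_le_card (R := ℂ) (b := fun j : Fin n => fun o => eval q (pderiv o (Pj c j)))
    unfold Set.finrank at h1
    rw [htop, finrank_top, Module.finrank_fintype_fun_eq_card, Fintype.card_sum, Fintype.card_fin] at h1
    omega
  intro j
  by_cases hj : j ∈ J
  · have h1 : ∑ j : J, g j • (fun o => eval q (pderiv o (Pj c j))) = 0 := by
      rw [← hg, Finset.sum_coe_sort J fun j => g j • (fun o => eval q (pderiv o (Pj c j)))]
      refine Finset.sum_subset (Finset.subset_univ J) fun j _ hj => ?_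
      rw [hgJ j hj, zero_smul]
    exact Fintype.linearIndependent_iff.1 hJ (fun j => g j) h1 ⟨j, hj⟩
  · exact hgJ j hj

/-- independent rows: the equations have solutions -/
theorem surj_rows {ι ρ : Type} [Fintype ι] [Fintype ρ] {v : ι → ρ → ℂ} (h : LinearIndependent ℂ v) (b : ι → ℂ) :
    ∃ τ : ρ → ℂ, ∀ j, ∑ o, v j o * τ o = b j := by
  classical
  let A : (ρ → ℂ) →ₗ[ℂ] (ι → ℂ) :=
    { toFun := fun τ j => ∑ o, v j o * τ o
      map_add' := fun τ τ' => by
        funext j
        simp only [Pi.add_apply, mul_add, Finset.sum_add_distrib]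
      map_smul' := fun a τ => by
        funext j
        simp only [Pi.smul_apply, smul_eq_mul, RingHom.id_apply, Finset.mul_sum]
        exact Finset.sum_congr rfl fun o _ => by ring }
  have h1 : LinearMap.range A = ⊤ := by
    by_contra hne
    obtain ⟨f, hf0, hf⟩ := Submodule.exists_le_ker_of_lt_top _ (lt_top_iff_ne_top.2 hne)
    have h2 : ∀ w : ι → ℂ, f w = ∑ j, f (Pi.single j 1) * w j := by
      intro w
      have h3 : w = ∑ j, w j • (Pi.single j 1 : ι → ℂ) := by
        funext j
        rw [Finset.sum_apply]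
        simp [Pi.single_apply]
      conv_lhs => rw [h3]
      rw [map_sum]
      refine Finset.sum_congr rfl fun j _ => ?_
      rw [map_smul, smul_eq_mul, mul_comm]
    have h3 : ∑ j, f (Pi.single j 1) • v j = 0 := by
      funext o
      rw [Finset.sum_apply, Pi.zero_apply]
      have h4 := hf ⟨Pi.single o 1, rfl⟩
      rw [LinearMap.mem_ker, h2] at h4
      rw [← h4]
      refine Finset.sum_congr rfl fun j _ => ?_
      change f (Pi.single j 1) * v j o = f (Pi.single j 1) * ∑ o', v j o' * (Pi.single o 1 : ρ → ℂ) o'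
      congr 1
      simp [Pi.single_apply]
    have h4 := Fintype.linearIndependent_iff.1 h _ h3
    refine hf0 (LinearMap.ext fun w => ?_)
    rw [h2 w]
    simp [h4]
  obtain ⟨τ, hτ⟩ := LinearMap.range_eq_top.1 h1 b
  exact ⟨τ, fun j => congrFun hτ j⟩

/-- independent columns -/
theorem exists_rows' {ρ ι : Type} [Fintype ρ] [Fintype ι] [DecidableEq ι] (A : Matrix ρ ι ℂ)
    (h : LinearIndependent ℂ (fun j : ι => (fun i => A i j : ρ → ℂ))) :
    ∃ R : ι → ρ, (A.submatrix R id).det ≠ 0 := by
  classical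
  let e := Fintype.equivFin ι
  obtain ⟨R, hR⟩ := exists_rows (A.submatrix id e.symm) (h.comp e.symm e.symm.injective)
  refine ⟨R ∘ e, ?_⟩
  have h1 : A.submatrix (R ∘ e) id = ((A.submatrix id e.symm).submatrix R id).submatrix e e := by
    ext i j
    simp
  rw [h1, Matrix.det_submatrix_equiv_self]
  exact hR

theorem card_compl {J : Finset (Fin n)} {R : J → Fin n ⊕ Fin n} (hR : Function.Injective R) :
    Fintype.card {o // ∀ i, R i ≠ o} + J.card = n + n := by
  classical
  have e1 : {o // ∀ i, R i ≠ o} ⊕ J ≃ Fin n ⊕ Fin n :=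
    (Equiv.sumCongr (Equiv.subtypeEquivRight fun q => by simp only [Set.mem_compl_iff, Set.mem_range, not_exists, ne_eq])
      (Equiv.ofInjective R hR)).trans
      ((Equiv.sumComm _ _).trans (Equiv.Set.sumCompl (Set.range R)))
  have e2 := Fintype.card_congr e1
  rw [Fintype.card_sum, Fintype.card_sum, Fintype.card_fin, Fintype.card_coe] at e2
  exact e2

/-- the minor of the Jacobian matrix -/
noncomputable def mn (c : S → ℂ) {J : Finset (Fin n)} (R : J → Fin n ⊕ Fin n) (p : Fin n ⊕ Fin n → ℂ) :
    Matrix J J ℂ := Matrix.of fun i j => eval p (pderiv (R i) (Pj c j))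

/-- vectors with equal coordinates outside of the minor are equal -/
theorem mn_zero {c : S → ℂ} {J : Finset (Fin n)} {R : J → Fin n ⊕ Fin n} (hRi : Function.Injective R)
    {p : Fin n ⊕ Fin n → ℂ} (hR : (mn c R p).det ≠ 0) {v : Fin n ⊕ Fin n → ℂ}
    (h1 : ∀ j ∈ J, ∑ o, eval p (pderiv o (Pj c j)) * v o = 0) (h2 : ∀ o, (∀ i, R i ≠ o) → v o = 0) : v = 0 := by
  classical
  have h3 : (mn c R p).transpose.mulVec (fun i => v (R i)) = 0 := by
    funext j
    have h4 : ∑ i, eval p (pderiv (R i) (Pj c j)) * v (R i) = ∑ o, eval p (pderiv o (Pj c j)) * v o := by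
      rw [← Finset.sum_subset (Finset.subset_univ (Finset.univ.image R)) fun o _ ho => ?_,
        Finset.sum_image fun i _ i' _ h => hRi h]
      rw [h2 o fun i hi => ho (Finset.mem_image.2 ⟨i, Finset.mem_univ _, hi⟩), mul_zero]
    exact h4.trans (h1 j j.2)
  have h6 := Matrix.eq_zero_of_mulVec_eq_zero (by rw [Matrix.det_transpose]; exact hR) h3
  funext o
  by_cases ho : ∀ i, R i ≠ o
  · exact h2 o ho
  · push Not at ho
    obtain ⟨i, rfl⟩ := ho
    exact congrFun h6 i

/-- **Points near a smooth point.** -/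
theorem loc_J {J : Finset (Fin n)} {c : S → ℂ} {q : Fin n ⊕ Fin n → ℂ} (hq : ∀ j ∈ J, Pv c q j = 0)
    (hB : LinearIndependent ℂ (fun j : J => fun o => eval q (pderiv o (Pj c j)))) :
    ∃ R : J → Fin n ⊕ Fin n, Function.Injective R ∧ (mn c R q).det ≠ 0 ∧ ∀ U ∈ 𝓝 q,
      ∀ᶠ t in 𝓝 (fun o : {o // ∀ i, R i ≠ o} => q o), ∃ p ∈ U, (∀ j ∈ J, Pv c p j = 0) ∧
        ∀ o : {o // ∀ i, R i ≠ o}, p o = t o := by
  classical
  obtain ⟨R, hR⟩ := exists_rows' (Matrix.of fun (o : Fin n ⊕ Fin n) (j : J) => eval q (pderiv o (Pj c j))) hB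
  have hRi : Function.Injective R := by
    intro i i' h
    by_contra hne
    refine hR (Matrix.det_zero_of_row_eq hne ?_)
    funext j
    simp only [Matrix.submatrix_apply, h]
  have hR' : (mn c R q).det ≠ 0 := hR
  refine ⟨R, hRi, hR', ?_⟩
  choose L hL hL' using fun j : J => ev_strict (Pj c j) q
  let Φ : (Fin n ⊕ Fin n → ℂ) → (J → ℂ) × ({o // ∀ i, R i ≠ o} → ℂ) := fun p => (fun j => Pv c p j, fun o => p o)
  let L2 : (Fin n ⊕ Fin n → ℂ) →L[ℂ] ({o // ∀ i, R i ≠ o} → ℂ) :=
    ContinuousLinearMap.pi fun o : {o // ∀ i, R i ≠ o} => ContinuousLinearMap.proj (o : Fin n ⊕ Fin n)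
  let Φ' : (Fin n ⊕ Fin n → ℂ) →L[ℂ] (J → ℂ) × ({o // ∀ i, R i ≠ o} → ℂ) := (ContinuousLinearMap.pi L).prod L2
  have hΦ : HasStrictFDerivAt Φ Φ' q :=
    (hasStrictFDerivAt_pi.2 fun j => hL' j).prodMk (ContinuousLinearMap.hasStrictFDerivAt L2)
  have hinj : Function.Injective (Φ' : (Fin n ⊕ Fin n → ℂ) →ₗ[ℂ] (J → ℂ) × ({o // ∀ i, R i ≠ o} → ℂ)) := by
    rw [injective_iff_map_eq_zero]
    intro v hv
    refine mn_zero hRi hR' (fun j hj => ?_) fun o ho => congrFun (congrArg Prod.snd hv) ⟨o, ho⟩
    rw [← hL ⟨j, hj⟩]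
    exact congrFun (congrArg Prod.fst hv) ⟨j, hj⟩
  have hcard := card_compl hRi
  have hfr : Module.finrank ℂ (Fin n ⊕ Fin n → ℂ) = Module.finrank ℂ ((J → ℂ) × ({o // ∀ i, R i ≠ o} → ℂ)) := by
    rw [Module.finrank_prod, Module.finrank_fintype_fun_eq_card, Module.finrank_fintype_fun_eq_card,
      Module.finrank_fintype_fun_eq_card, Fintype.card_sum, Fintype.card_fin, Fintype.card_coe]
    omega
  have hsur : (Φ' : (Fin n ⊕ Fin n → ℂ) →ₗ[ℂ] (J → ℂ) × ({o // ∀ i, R i ≠ o} → ℂ)).range = ⊤ :=
    LinearMap.range_eq_top.2 ((LinearMap.injective_iff_surjective_of_finrank_eq_finrank hfr).1 hinj)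
  have hmap := hΦ.map_nhds_eq_of_surj hsur
  intro U hU
  have h1 : Φ '' U ∈ 𝓝 (Φ q) := by
    rw [← hmap]
    exact Filter.image_mem_map hU
  have h2 : Tendsto (fun t : {o // ∀ i, R i ≠ o} → ℂ => ((0 : J → ℂ), t))
      (𝓝 fun o : {o // ∀ i, R i ≠ o} => q o) (𝓝 (Φ q)) := by
    have h3 : Φ q = ((0 : J → ℂ), fun o : {o // ∀ i, R i ≠ o} => q o) := by
      refine Prod.ext (funext fun j => hq j j.2) rfl
    rw [h3]
    exact tendsto_const_nhds.prodMk_nhds tendsto_id
  filter_upwards [h2.eventually h1] with t ht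
  obtain ⟨p, hp, hp'⟩ := ht
  exact ⟨p, hp, fun j hj => congrFun (congrArg Prod.fst hp') ⟨j, hj⟩,
    fun o => congrFun (congrArg Prod.snd hp') o⟩

end Pool.Agent.V8H73.SE
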