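import Pool.Agent.V8H73.AN.Sys

/-!
# The leading parts of systems of equations
-/

set_option autoImplicit false
set_option linter.unusedSectionVars false

open Set Filter MvPolynomial
open scoped Topology

namespace Pool.Agent.V8H73.SE

open Pool.Agent.V8H73.AN (Ex)

variable {n : ℕ} {S : Finset (Fin n × Ex n)}

/-- the weight of an exponent -/
def wt (κ : Fin n ⊕ Fin n → ℤ) (e : Ex n) : ℤ :=
  ∑ l, κ (Sum.inl l) * (e (Sum.inl l) : ℤ) + ∑ l, κ (Sum.inr l) * (e (Sum.inr l) : ℤ)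

section ring

variable {A B : Type*} [CommRing A] [CommRing B]

/-- the leading part of a monomial -/
def mon (τ : A) (y : Fin n → A) (e : Ex n) : A := τ ^ (∑ l, e (Sum.inl l)) * ∏ l, y l ^ e (Sum.inr l)

/-- the leading parts of the equations -/
def Lp (κ : Fin n ⊕ Fin n → ℤ) (h : Fin n → ℤ) (c : S → A) (τ : A) (y : Fin n → A) (j : Fin n) : A :=
  ∑ q : S, if q.1.1 = j ∧ wt κ q.1.2 = h j then c q * mon τ y q.1.2 else 0

/-- the logarithmic Jacobian matrix of the leading parts -/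
def Dp (κ : Fin n ⊕ Fin n → ℤ) (h : Fin n → ℤ) (c : S → A) (τ : A) (y : Fin n → A) : Matrix (Fin n) (Fin n) A := Matrix.of fun j l =>
  ∑ q : S, if q.1.1 = j ∧ wt κ q.1.2 = h j then c q * (mon τ y q.1.2 * (q.1.2 (Sum.inr l) : A)) else 0

theorem mon_map (φ : A →+* B) (τ : A) (y : Fin n → A) (e : Ex n) : φ (mon τ y e) = mon (φ τ) (fun l => φ (y l)) e := by
  unfold mon
  rw [map_mul, map_pow, map_prod]
  simp only [map_pow]

theorem Lp_map (φ : A →+* B) (κ : Fin n ⊕ Fin n → ℤ) (h : Fin n → ℤ) (c : S → A) (τ : A) (y : Fin n → A) (j : Fin n) :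
    φ (Lp κ h c τ y j) = Lp κ h (fun q => φ (c q)) (φ τ) (fun l => φ (y l)) j := by
  unfold Lp
  rw [map_sum]
  refine Finset.sum_congr rfl fun q _ => ?_
  split_ifs
  · rw [map_mul, mon_map]
  · exact map_zero φ

theorem Dp_map (φ : A →+* B) (κ : Fin n ⊕ Fin n → ℤ) (h : Fin n → ℤ) (c : S → A) (τ : A) (y : Fin n → A) :
    φ (Dp κ h c τ y).det = (Dp κ h (fun q => φ (c q)) (φ τ) (fun l => φ (y l))).det := by
  rw [RingHom.map_det]
  congr 1
  ext j l
  rw [RingHom.mapMatrix_apply, Matrix.map_apply]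
  unfold Dp
  rw [Matrix.of_apply, Matrix.of_apply, map_sum]
  refine Finset.sum_congr rfl fun q _ => ?_
  split_ifs
  · rw [map_mul, map_mul, mon_map, map_natCast]
  · exact map_zero φ

end ring

/-- **The transfer principle.** -/
theorem transfer {K : Type} [Field K] [Algebra K ℂ] (κ : Fin n ⊕ Fin n → ℤ) (h : Fin n → ℤ) (τ : K) {c' c : S → ℂ}
    (hc' : AlgebraicIndependent K c') (hc : AlgebraicIndependent K c) {y' : Fin n → ℂ}
    (h1 : ∀ j, Lp κ h c' (algebraMap K ℂ τ) y' j = 0) (h2 : ∀ l, y' l ≠ 0)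
    (h3 : (Dp κ h c' (algebraMap K ℂ τ) y').det ≠ 0) :
    ∃ y : Fin n → ℂ, (∀ j, Lp κ h c (algebraMap K ℂ τ) y j = 0) ∧ (∀ l, y l ≠ 0) ∧
      (Dp κ h c (algebraMap K ℂ τ) y).det ≠ 0 := by
  classical
  let A := MvPolynomial S K
  let K0 := FractionRing A
  let B := MvPolynomial (Option (Fin n)) K0
  let g : (S → ℂ) → A →+* ℂ := fun c => (aeval c : A →ₐ[K] ℂ).toRingHom
  let cB : S → B := fun q => C (algebraMap A K0 (X q))
  let τB : B := C (algebraMap A K0 (C τ))
  let yB : Fin n → B := fun l => X (some l)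
  let f : Option (Fin n) → B := fun o => o.elim (X none * (∏ l, yB l) * (Dp κ h cB τB yB).det - 1)
    fun j => Lp κ h cB τB yB j
  let I : Ideal B := Ideal.span (Set.range f)
  -- the homomorphisms to the complex numbers
  have key : ∀ (c : S → ℂ) (ρ : B →+* ℂ) (φ : K0 →+* ℂ), (∀ a, φ (algebraMap A K0 a) = g c a) →
      (∀ a, ρ (C a) = φ a) → (∀ j, ρ (Lp κ h cB τB yB j) = Lp κ h c (algebraMap K ℂ τ) (fun l => ρ (X (some l))) j) ∧
      ρ (Dp κ h cB τB yB).det = (Dp κ h c (algebraMap K ℂ τ) (fun l => ρ (X (some l)))).det := by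
    intro c ρ φ hφ hρ
    have e1 : (fun q => ρ (cB q)) = c := by
      funext q
      change ρ (C (algebraMap A K0 (X q))) = c q
      rw [hρ, hφ]
      exact aeval_X c q
    have e2 : ρ τB = algebraMap K ℂ τ := by
      change ρ (C (algebraMap A K0 (C τ))) = algebraMap K ℂ τ
      rw [hρ, hφ]
      exact aeval_C c τ
    constructor
    · intro j
      rw [Lp_map, e1, e2]
    · rw [Dp_map, e1, e2]
  have hI : I ≠ ⊤ := by
    intro hI
    let φ' : K0 →+* ℂ := IsFractionRing.lift (A := A) (K := K0) (g := g c') hc'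
    have hφ' : ∀ a, φ' (algebraMap A K0 a) = g c' a := fun a => IsFractionRing.lift_algebraMap (g := g c') hc' a
    let t' : ℂ := ((∏ l, y' l) * (Dp κ h c' (algebraMap K ℂ τ) y').det)⁻¹
    let ρ : B →+* ℂ := eval₂Hom φ' fun o => o.elim t' y'
    have hρX : (fun l => ρ (X (some l))) = y' := by
      funext l
      exact eval₂Hom_X' _ _ _
    obtain ⟨k1, k2⟩ := key c' ρ φ' hφ' fun a => eval₂Hom_C _ _ _
    rw [hρX] at k1 k2
    have h4 : I ≤ RingHom.ker ρ := by
      refine Ideal.span_le.2 ?_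
      rintro _ ⟨o, rfl⟩
      rcases o with _ | j
      · change ρ (X none * (∏ l, yB l) * (Dp κ h cB τB yB).det - 1) = 0
        rw [map_sub, map_mul, map_mul, map_prod, k2, map_one]
        have e3 : ρ (X none) = t' := eval₂Hom_X' _ _ _
        have e4 : ∏ l, ρ (yB l) = ∏ l, y' l := Finset.prod_congr rfl fun l _ => congrFun hρX l
        rw [e3, e4, mul_assoc, inv_mul_cancel₀, sub_self]
        exact mul_ne_zero (Finset.prod_ne_zero_iff.2 fun l _ => h2 l) h3
      · exact (k1 j).trans (h1 j)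
    have h5 : (1 : B) ∈ RingHom.ker ρ := h4 (hI ▸ Submodule.mem_top)
    rw [RingHom.mem_ker, map_one] at h5
    exact one_ne_zero h5
  obtain ⟨M, hM, hIM⟩ := Ideal.exists_le_maximal I hI
  let _ : Field (B ⧸ M) := Ideal.Quotient.field M
  have hft : Algebra.FiniteType K0 (B ⧸ M) := inferInstance
  have hfin : Module.Finite K0 (B ⧸ M) := finite_of_finite_type_of_isJacobsonRing K0 (B ⧸ M)
  have halg : Algebra.IsAlgebraic K0 (B ⧸ M) := Algebra.IsAlgebraic.of_finite _ _
  let φ : K0 →+* ℂ := IsFractionRing.lift (A := A) (K := K0) (g := g c) hc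
  have hφ : ∀ a, φ (algebraMap A K0 a) = g c a := fun a => IsFractionRing.lift_algebraMap (g := g c) hc a
  let _ : Algebra K0 ℂ := φ.toAlgebra
  let σ : (B ⧸ M) →ₐ[K0] ℂ := IsAlgClosed.lift
  let ρ : B →+* ℂ := σ.toRingHom.comp (Ideal.Quotient.mk M)
  obtain ⟨k1, k2⟩ := key c ρ φ hφ fun a => σ.commutes a
  have hker : ∀ o, ρ (f o) = 0 := by
    intro o
    have h4 : f o ∈ M := hIM (Ideal.subset_span ⟨o, rfl⟩)
    change σ (Ideal.Quotient.mk M (f o)) = 0
    rw [Ideal.Quotient.eq_zero_iff_mem.2 h4, map_zero]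
  have h4 := hker none
  change ρ (X none * (∏ l, yB l) * (Dp κ h cB τB yB).det - 1) = 0 at h4
  rw [map_sub, map_mul, map_mul, map_prod, k2, map_one, sub_eq_zero] at h4
  refine ⟨fun l => ρ (X (some l)), fun j => ?_, fun l hl => ?_, fun hd => ?_⟩
  · rw [← k1]
    exact hker (some j)
  · have h5 : ∏ l, ρ (yB l) = 0 := Finset.prod_eq_zero (Finset.mem_univ l) hl
    rw [h5, mul_zero, zero_mul] at h4
    exact zero_ne_one h4
  · rw [hd, mul_zero] at h4
    exact zero_ne_one h4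

end Pool.Agent.V8H73.SE
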