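import Pool.Agent.V8H73.SE.Hom

/-!
# Permutations of the exponential points
-/

set_option autoImplicit false
set_option linter.unusedSectionVars false

open MvPolynomial

namespace Pool.Agent.V8H73.SE

open Pool.Agent.V8H73.AN (Ex Four Ph ez mo JJ Pj ιX ev_map Pj_map Bad patch_S)

variable {n : ℕ} {S : Finset (Fin n × Ex n)}

theorem zeros_countable (hS : Four S) {c : S → ℂ} (hnd : ∀ z, val c z = 0 → (JJ c z (ez z)).det ≠ 0) :
    {z : Fin n → ℂ | val c z = 0}.Countable := by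
  have h1 : ∀ R : ℕ, {z : Fin n → ℂ | ‖z‖ ≤ R ∧ Ph c z = 0}.Finite := by
    intro R
    have hb : c ∉ Bad S (R : ℝ) := by
      rintro ⟨z, -, h2, h3⟩
      exact hnd z (by rw [val_eq_Ph]; exact h2) h3
    obtain ⟨δ, N, ζ, hδ, hB, -, hz⟩ := patch_S hS hb
    refine (Set.finite_range fun i => ζ i c).subset ?_
    rintro z ⟨hz1, hz2⟩
    obtain ⟨i, hi, -⟩ := hz c (Metric.mem_ball_self hδ) z hz1 hz2
    exact ⟨i, hi⟩
  refine (Set.countable_iUnion fun R : ℕ => (h1 R).countable).mono fun z hz => ?_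
  obtain ⟨R, hR⟩ := exists_nat_ge ‖z‖
  refine Set.mem_iUnion.2 ⟨R, hR, ?_⟩
  rw [← val_eq_Ph]
  exact hz

/-- **Permutations of the exponential points are induced by automorphisms.** -/
theorem perm (hS : Four S) (l0 : Fin n) {K : Subfield ℂ} [Countable K] {c : S → ℂ} (hc : Cm K c)
    (h : AlgebraicIndependent K (Sum.elim c fun q : {z : Fin n → ℂ // val c z = 0} × Fin n => (q.1 : Fin n → ℂ) q.2))
    (π : Equiv.Perm {z : Fin n → ℂ // val c z = 0}) : ∃ σ : ℂ ≃+* ℂ, (∀ a ∈ K, σ a = a) ∧ (∀ q, σ (c q) = c q) ∧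
      ∀ (z : {z : Fin n → ℂ // val c z = 0}) (l : Fin n), σ (z.1 l) = (π z).1 l ∧
        σ (Complex.exp (z.1 l)) = Complex.exp ((π z).1 l) := by
  classical
  have hcz : Countable {z : Fin n → ℂ // val c z = 0} := (zeros_countable hS hc.nd).to_subtype
  set E : Subfield ℂ := Ez K c (fun i : Fin 0 => (0 : Fin n → ℂ)) with hE
  have hEc : Countable E := Ez_count K c _
  have hKE : ∀ a ∈ K, a ∈ E := fun a ha => Subfield.subset_closure (Or.inl ha)
  have hcE : ∀ q, c q ∈ E := fun q => Subfield.subset_closure (Or.inr (Or.inl ⟨q, rfl⟩))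
  let p : {z : Fin n → ℂ // val c z = 0} × (Fin n ⊕ Fin n) → ℂ := fun v => ep v.1.1 v.2
  let p' : {z : Fin n → ℂ // val c z = 0} × (Fin n ⊕ Fin n) → ℂ := fun v => ep (π v.1).1 v.2
  have hrel : ∀ f : MvPolynomial ({z : Fin n → ℂ // val c z = 0} × (Fin n ⊕ Fin n)) E,
      aeval p f = 0 ↔ aeval p' f = 0 := by
    intro f
    obtain ⟨s, g, rfl⟩ := exists_finset_rename f
    let A : Finset {z : Fin n → ℂ // val c z = 0} := s.image Prod.fst
    let e := A.equivFin
    obtain ⟨σ, hK, hσ, hσz⟩ := homog hS l0 hc h A.card (fun i => (e.symm i).1.1) (fun i => (π (e.symm i).1).1)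
      (fun i i' hii => e.symm.injective (Subtype.ext (Subtype.ext hii)))
      (fun i i' hii => e.symm.injective (Subtype.ext (π.injective (Subtype.ext hii))))
      (fun i => (e.symm i).1.2) (fun i => (π (e.symm i).1).2)
    have hp : ∀ v : s, σ (p v) = p' v := by
      intro v
      have h1 := hσz (e ⟨v.1.1, Finset.mem_image_of_mem _ v.2⟩) v.1.2
      rw [Equiv.symm_apply_apply] at h1
      exact h1
    have hEσ : ∀ a : E, σ (a : ℂ) = a := by
      intro a
      have h1 : E ≤ (RingHom.eqLocusField (σ : ℂ →+* ℂ) (RingHom.id ℂ)) := by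
        rw [hE]
        refine Subfield.closure_le.2 ?_
        rintro x (hx | ⟨q, rfl⟩ | ⟨⟨i, o⟩, rfl⟩)
        · exact hK x hx
        · exact hσ q
        · exact Fin.elim0 i
      exact h1 a.2
    have h1 : σ (aeval p (rename Subtype.val g)) = aeval p' (rename Subtype.val g) := by
      rw [aeval_rename, aeval_rename]
      let τ : ℂ →ₐ[E] ℂ := { (σ : ℂ →+* ℂ) with commutes' := hEσ }
      have h2 := MvPolynomial.comp_aeval_apply (p ∘ (Subtype.val : s → _)) τ g
      refine (h2 : σ (aeval (p ∘ (Subtype.val : s → _)) g) = _).trans ?_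
      congr 2
      funext v
      exact hp v
    rw [← h1]
    exact (map_eq_zero σ).symm
  obtain ⟨σ, h1, h2⟩ := same_rel (E := E) hrel
  exact ⟨σ, fun a ha => h1 ⟨a, hKE a ha⟩, fun q => h1 ⟨c q, hcE q⟩, fun z l =>
    ⟨h2 (z, Sum.inl l), h2 (z, Sum.inr l)⟩⟩

end Pool.Agent.V8H73.SE
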