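import Pool.Agent.V8H73.SE.Pex
import Pool.Agent.V8H73.SE.Perm
import Pool.Agent.H340R2.LW

/-!
# Isomorphism with another exponential map on the exponential points
-/

set_option autoImplicit false
set_option linter.unusedSectionVars false

open MvPolynomial

namespace Pool.Agent.V8H73.SE

open Pool.Agent.V8H73.AN (Ex Four Ph ez mo JJ Pj ιX ev_map Pj_map)

theorem tpi_tr : Transcendental ℚ (2 * Real.pi * Complex.I : ℂ) := by
  intro h
  have hI : IsAlgebraic ℚ Complex.I := by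
    refine IsAlgebraic.of_pow two_pos ?_
    rw [Complex.I_sq]
    exact isAlgebraic_one.neg
  have h2 : IsAlgebraic ℚ (2 : ℂ) := isAlgebraic_algebraMap (A := ℂ) (2 : ℚ) |> fun h => by simpa using h
  have h3 : (Real.pi : ℂ) = (2 * Real.pi * Complex.I) * (2 * Complex.I)⁻¹ := by
    have := Complex.I_ne_zero
    field_simp
  apply Pool.Agent.H340R2.LW.transcendental_pi_complex
  rw [h3]
  exact h.mul (h2.mul hI).inv

theorem tr_ai {κ : ℂ} (hκ : Transcendental ℚ κ) :
    AlgebraicIndependent (Subfield.closure (∅ : Set ℂ)) (fun _ : Unit => κ) := by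
  refine Pool.Agent.H135R2.VS.algInd_of_der fun v => ?_
  have h1 : AlgebraicIndependent ℚ (fun _ : Unit => κ) := algebraicIndependent_unique_type_iff.2 hκ
  obtain ⟨D, hD⟩ := Pool.Agent.H135R2.VS.exists_der h1 v
  exact ⟨ofD _ (D.restrictScalars ℤ) (Subfield.closure_le.2 fun x hx => hx.elim), hD⟩

variable {n : ℕ} {S : Finset (Fin n × Ex n)}

/-- the point given by another map -/
def xp (ex : ℂ → ℂ) (x : Fin n → ℂ) : Fin n ⊕ Fin n → ℂ := Sum.elim x fun l => ex (x l)

/-- **Comparison of two exponential maps.** -/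
theorem pex_main (hS : Four S) (l0 : Fin n) {κ τ : ℂ} (hκ : Transcendental ℚ κ) (hτ : Transcendental ℚ τ) {c : S → ℂ}
    (hc : Cm (Subfield.closure {κ}) c)
    (h : AlgebraicIndependent (Subfield.closure {κ})
      (Sum.elim c fun q : {z : Fin n → ℂ // val c z = 0} × Fin n => (q.1 : Fin n → ℂ) q.2))
    (hc' : Cm (Subfield.closure {τ}) c)
    (h' : AlgebraicIndependent (Subfield.closure {τ})
      (Sum.elim c fun q : {z : Fin n → ℂ // val c z = 0} × Fin n => (q.1 : Fin n → ℂ) q.2))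
    {ex : ℂ → ℂ}
    (H : ∀ (m : ℕ) (a : Fin m → ℂ), (∀ s, c s ∈ Subfield.closure (Set.range a)) → ∃ x : Fin n → ℂ,
      Pv c (xp ex x) = 0 ∧ Algebra.trdeg (Subfield.closure (Set.range a))
        (IntermediateField.adjoin (Subfield.closure (Set.range a)) (Set.range (xp ex x))) = n) :
    ∃ σ : ℂ ≃+* ℂ, σ κ = τ ∧ (∀ s, σ (c s) = c s) ∧
      ∀ z, val c z = 0 → ∀ l, σ (Complex.exp (z l)) = ex (σ (z l)) := by
  classical
  have hE0 : Countable (Subfield.closure (∅ : Set ℂ)) := count_cl ∅ Set.finite_empty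
  have hKc : Countable (Subfield.closure ({κ} : Set ℂ)) := count_cl _ (Set.finite_singleton _)
  have hKc' : Countable (Subfield.closure ({τ} : Set ℂ)) := count_cl _ (Set.finite_singleton _)
  have hκK : κ ∈ Subfield.closure ({κ} : Set ℂ) := Subfield.subset_closure rfl
  have hτK : τ ∈ Subfield.closure ({τ} : Set ℂ) := Subfield.subset_closure rfl
  -- the first automorphism
  have f1 := ai_tower' (tr_ai hκ) (Subfield.closure_mono (Set.empty_subset {κ})) (fun _ => hκK)
    (h.comp Sum.inl Sum.inl_injective)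
  have f2 := ai_tower' (tr_ai hτ) (Subfield.closure_mono (Set.empty_subset {τ})) (fun _ => hτK)
    (h'.comp Sum.inl Sum.inl_injective)
  obtain ⟨σ0, -, hσ0⟩ := exists_sigma f1 f2
  have hσ1 : σ0 κ = τ := hσ0 (Sum.inl ())
  have hσ2 : ∀ s, σ0 (c s) = c s := fun s => hσ0 (Sum.inr s)
  have hσK : ∀ a ∈ Subfield.closure ({κ} : Set ℂ), σ0 a ∈ Subfield.closure ({τ} : Set ℂ) := by
    have h1 : Subfield.closure ({κ} : Set ℂ) ≤ (Subfield.closure ({τ} : Set ℂ)).comap (σ0 : ℂ →+* ℂ) := by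
      refine Subfield.closure_le.2 ?_
      rintro _ rfl
      change σ0 _ ∈ Subfield.closure ({τ} : Set ℂ)
      rw [hσ1]
      exact hτK
    exact h1
  -- the solutions
  have hcz : Countable {z : Fin n → ℂ // val c z = 0} := (zeros_countable hS hc.nd).to_subtype
  have hiz : Infinite {z : Fin n → ℂ // val c z = 0} := hc.inf.to_subtype
  obtain ⟨hden⟩ := nonempty_denumerable {z : Fin n → ℂ // val c z = 0}
  let e : {z : Fin n → ℂ // val c z = 0} ≃ ℕ := Denumerable.eqv _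
  let z : ℕ → Fin n → ℂ := fun i => (e.symm i).1
  have hzi : Function.Injective z := fun i j hij => e.symm.injective (Subtype.ext hij)
  have hz : ∀ i, val c (z i) = 0 := fun i => (e.symm i).2
  -- the points for the other map
  obtain ⟨x, hx⟩ := exists_seq (α := Fin n → ℂ) (Q := fun A x => Pv c (xp ex x) = 0 ∧
      AlgebraicIndependent (Subfield.closure ((Subfield.closure ({τ} : Set ℂ) : Set ℂ) ∪
        (Set.range c ∪ {y | ∃ x' ∈ A, ∃ o, xp ex x' o = y}))) x) (by
    intro A hA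
    have hB : (({τ} : Set ℂ) ∪ (Set.range c ∪ {y | ∃ x' ∈ A, ∃ o, xp ex x' o = y})).Finite := by
      refine (Set.finite_singleton τ).union ((Set.finite_range c).union ?_)
      have h1 : {y | ∃ x' ∈ A, ∃ o, xp ex x' o = y} = ⋃ x' ∈ A, Set.range (xp ex x') := by
        ext y
        simp only [Set.mem_ofPred_eq, Set.mem_iUnion, Set.mem_range, exists_prop]
      rw [h1]
      exact hA.biUnion fun x' _ => Set.finite_range _
    obtain ⟨m, a, -, ha⟩ := hB.fin_param
    have hca : ∀ s, c s ∈ Subfield.closure (Set.range a) := by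
      intro s
      rw [ha]
      exact Subfield.subset_closure (Or.inr (Or.inl ⟨s, rfl⟩))
    obtain ⟨x, hx0, hx1⟩ := H m a hca
    have hKa : Subfield.closure ({τ} : Set ℂ) ≤ Subfield.closure (Set.range a) := by
      rw [ha]
      exact Subfield.closure_mono Set.subset_union_left
    refine ⟨x, hx0, ?_⟩
    have h1 := gen_pt hS hc' h' hKa hca hx0 rfl hx1
    refine ind_mono (Subfield.closure_le.2 ?_) h1
    rintro y (hy | hy)
    · exact hKa hy
    · rw [ha]
      exact Subfield.subset_closure (Or.inr hy))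
  have hxI : ∀ k : ℕ, AlgebraicIndependent (Fq (Subfield.closure ({τ} : Set ℂ)) c fun i : Fin k => xp ex (x i))
      fun l => xp ex (x k) (Sum.inl l) := by
    intro k
    refine ind_mono (Subfield.closure_le.2 ?_) (hx k).2
    rintro y (hy | hy | ⟨⟨i, o⟩, rfl⟩)
    · exact Subfield.subset_closure (Or.inl hy)
    · exact Subfield.subset_closure (Or.inr (Or.inl hy))
    · exact Subfield.subset_closure (Or.inr (Or.inr ⟨x i, ⟨i, i.2, rfl⟩, o, rfl⟩))
  have hext := ext_fin hS l0 hc h σ0 hσK hσ2 hzi hz (fun i => (hx i).1) hxI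
  -- all points together
  let q : (Unit ⊕ S) ⊕ (ℕ × (Fin n ⊕ Fin n)) → ℂ := Sum.elim (Sum.elim (fun _ => κ) c) fun v => ep (z v.1) v.2
  let q' : (Unit ⊕ S) ⊕ (ℕ × (Fin n ⊕ Fin n)) → ℂ := Sum.elim (Sum.elim (fun _ => τ) c) fun v => xp ex (x v.1) v.2
  have hrel : ∀ f : MvPolynomial ((Unit ⊕ S) ⊕ (ℕ × (Fin n ⊕ Fin n))) ℚ, aeval q f = 0 ↔ aeval q' f = 0 := by
    intro f
    obtain ⟨s, g, rfl⟩ := exists_finset_rename f
    let bd : (Unit ⊕ S) ⊕ (ℕ × (Fin n ⊕ Fin n)) → ℕ := Sum.elim (fun _ => 0) fun v => v.1 + 1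
    obtain ⟨σ, hσa, hσb, hσc⟩ := hext (s.sup bd)
    have hp : ∀ v : s, σ (q v) = q' v := by
      rintro ⟨(u | s') | ⟨i, o⟩, hv⟩
      · exact (hσa κ hκK).trans hσ1
      · exact hσb s'
      · refine hσc i ?_ o
        have h1 : bd (Sum.inr (i, o)) ≤ s.sup bd := Finset.le_sup (f := bd) hv
        exact h1
    have h1 : σ (aeval q (rename Subtype.val g)) = aeval q' (rename Subtype.val g) := by
      rw [aeval_rename, aeval_rename]
      let τ' : ℂ →ₐ[ℚ] ℂ := (σ : ℂ →+* ℂ).toRatAlgHom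
      have h2 := MvPolynomial.comp_aeval_apply (q ∘ (Subtype.val : s → _)) τ' g
      refine (h2 : σ (aeval (q ∘ (Subtype.val : s → _)) g) = _).trans ?_
      congr 2
      funext v
      exact hp v
    rw [← h1]
    exact (map_eq_zero σ).symm
  obtain ⟨σ, -, h2⟩ := same_rel (E := ℚ) hrel
  refine ⟨σ, h2 (Sum.inl (Sum.inl ())), fun s => h2 (Sum.inl (Sum.inr s)), fun z1 hz1 l => ?_⟩
  obtain ⟨i, hi⟩ : ∃ i, z i = z1 := ⟨e ⟨z1, hz1⟩, by simp [z]⟩
  subst hi
  have h3 : σ (z i l) = x i l := h2 (Sum.inr (i, Sum.inl l))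
  have h4 : σ (Complex.exp (z i l)) = ex (x i l) := h2 (Sum.inr (i, Sum.inr l))
  rw [h3, h4]

theorem vi_poly' (c : S → ℂ) (j : Fin n) : Pj c j ∈ Vi c := by
  intro z hz
  rw [← val_ev]
  exact congrFun hz j

theorem vi_inf' {K : Subfield ℂ} {c : S → ℂ} (h : Cm K c) : (Zp (Vi c)).Infinite := by
  rw [Zp_Vi]
  exact h.inf

/-- fields of definition -/
theorem def_vi (hS : Four S) (l0 : Fin n) {K : Subfield ℂ} [Countable K] {c : S → ℂ} (hc : Cm K c)
    (h : AlgebraicIndependent K (Sum.elim c fun q : {z : Fin n → ℂ // val c z = 0} × Fin n => (q.1 : Fin n → ℂ) q.2))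
    {E : Subfield ℂ} [Countable E] (hE : ∀ s, c s ∈ E) :
    Vi c = Ideal.span {f : MvPolynomial (Fin n ⊕ Fin n) ℂ | f ∈ Vi c ∧ ∀ mo, f.coeff mo ∈ E} := by
  refine descent fun σ hσ f hf => ?_
  rw [← rad_eq hS l0 hc h] at hf ⊢
  obtain ⟨k, hk⟩ := hf
  refine ⟨k, ?_⟩
  rw [← map_pow]
  have h1 : Ideal.map (MvPolynomial.map (σ : ℂ →+* ℂ)) (Ideal.span (Set.range (Pj c))) ≤
      Ideal.span (Set.range (Pj c)) := by
    rw [Ideal.map_span, Ideal.span_le]
    rintro _ ⟨_, ⟨j, rfl⟩, rfl⟩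
    rw [Pj_map]
    have h2 : (fun q => (σ : ℂ →+* ℂ) (c q)) = c := funext fun s => hσ _ (hE s)
    rw [h2]
    exact Ideal.subset_span ⟨j, rfl⟩
  exact h1 (Ideal.mem_map_of_mem _ hk)

end Pool.Agent.V8H73.SE
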