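import Pool.Agent.V8H73.SE.Val
import Pool.Agent.V8H73.SE.Gen

/-!
# Leading parts with a nondegenerate torus zero
-/

set_option autoImplicit false
set_option linter.unusedSectionVars false

open MvPolynomial

namespace Pool.Agent.V8H73.SE

open Pool.Agent.V8H73.AN (Ex Four)

variable {n : ℕ} {S : Finset (Fin n × Ex n)}

/-- **The transfer principle, torus zeros over other fields.** -/
theorem nst {K : Type} [Field K] [Algebra K ℂ] (κ : Fin n ⊕ Fin n → ℤ) (h : Fin n → ℤ) (τ : K) {k' : Type} [Field k']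
    (θ : MvPolynomial S K →+* k') (hθ : Function.Injective θ) {c : S → ℂ} (hc : AlgebraicIndependent K c)
    {y' : Fin n → k'} (h1 : ∀ j, Lp κ h (fun q => θ (X q)) (θ (C τ)) y' j = 0) (h2 : ∀ l, y' l ≠ 0) :
    ∃ y : Fin n → ℂ, (∀ j, Lp κ h c (algebraMap K ℂ τ) y j = 0) ∧ ∀ l, y l ≠ 0 := by
  classical
  let A := MvPolynomial S K
  let K0 := FractionRing A
  let B := MvPolynomial (Option (Fin n)) K0
  let cB : S → B := fun q => C (algebraMap A K0 (X q))
  let τB : B := C (algebraMap A K0 (C τ))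
  let yB : Fin n → B := fun l => X (some l)
  let f : Option (Fin n) → B := fun o => o.elim (X none * (∏ l, yB l) - 1) fun j => Lp κ h cB τB yB j
  let I : Ideal B := Ideal.span (Set.range f)
  -- the homomorphisms to fields
  have key : ∀ {F : Type} [Field F] (g : A →+* F) (ρ : B →+* F) (φ : K0 →+* F), (∀ a, φ (algebraMap A K0 a) = g a) →
      (∀ a, ρ (C a) = φ a) → ∀ j, ρ (Lp κ h cB τB yB j) =
        Lp κ h (fun q => g (X q)) (g (C τ)) (fun l => ρ (X (some l))) j := by
    intro F _ g ρ φ hφ hρ j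
    have e1 : (fun q => ρ (cB q)) = fun q => g (X q) := by
      funext q
      change ρ (C (algebraMap A K0 (X q))) = g (X q)
      rw [hρ, hφ]
    have e2 : ρ τB = g (C τ) := by
      change ρ (C (algebraMap A K0 (C τ))) = g (C τ)
      rw [hρ, hφ]
    rw [Lp_map, e1, e2]
  have hI : I ≠ ⊤ := by
    intro hI
    let φ' : K0 →+* k' := IsFractionRing.lift (A := A) (K := K0) (g := θ) hθ
    have hφ' : ∀ a, φ' (algebraMap A K0 a) = θ a := fun a => IsFractionRing.lift_algebraMap (g := θ) hθ a
    let ρ : B →+* k' := eval₂Hom φ' fun o => o.elim (∏ l, y' l)⁻¹ y'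
    have hρX : (fun l => ρ (X (some l))) = y' := by
      funext l
      exact eval₂Hom_X' _ _ _
    have k1 := key θ ρ φ' hφ' fun a => eval₂Hom_C _ _ _
    rw [hρX] at k1
    have h4 : I ≤ RingHom.ker ρ := by
      refine Ideal.span_le.2 ?_
      rintro _ ⟨o, rfl⟩
      rcases o with _ | j
      · change ρ (X none * (∏ l, yB l) - 1) = 0
        rw [map_sub, map_mul, map_prod, map_one]
        have e3 : ρ (X none) = (∏ l, y' l)⁻¹ := eval₂Hom_X' _ _ _
        have e4 : ∏ l, ρ (yB l) = ∏ l, y' l := Finset.prod_congr rfl fun l _ => congrFun hρX l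
        rw [e3, e4, inv_mul_cancel₀, sub_self]
        exact Finset.prod_ne_zero_iff.2 fun l _ => h2 l
      · exact (k1 j).trans (h1 j)
    have h5 : (1 : B) ∈ RingHom.ker ρ := h4 (hI ▸ Submodule.mem_top)
    rw [RingHom.mem_ker, map_one] at h5
    exact one_ne_zero h5
  obtain ⟨M, hM, hIM⟩ := Ideal.exists_le_maximal I hI
  let _ : Field (B ⧸ M) := Ideal.Quotient.field M
  have hft : Algebra.FiniteType K0 (B ⧸ M) := inferInstance
  have hfin : Module.Finite K0 (B ⧸ M) := finite_of_finite_type_of_isJacobsonRing K0 (B ⧸ M)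
  have halg : Algebra.IsAlgebraic K0 (B ⧸ M) := Algebra.IsAlgebraic.of_finite _ _
  let g : A →+* ℂ := (aeval c : A →ₐ[K] ℂ).toRingHom
  let φ : K0 →+* ℂ := IsFractionRing.lift (A := A) (K := K0) (g := g) hc
  have hφ : ∀ a, φ (algebraMap A K0 a) = g a := fun a => IsFractionRing.lift_algebraMap (g := g) hc a
  let _ : Algebra K0 ℂ := φ.toAlgebra
  let σ : (B ⧸ M) →ₐ[K0] ℂ := IsAlgClosed.lift
  let ρ : B →+* ℂ := σ.toRingHom.comp (Ideal.Quotient.mk M)
  have k1 := key g ρ φ hφ fun a => σ.commutes a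
  have e1 : (fun q => g (X q)) = c := funext fun q => aeval_X c q
  have e2 : g (C τ) = algebraMap K ℂ τ := aeval_C c τ
  rw [e1, e2] at k1
  have hker : ∀ o, ρ (f o) = 0 := by
    intro o
    have h4 : f o ∈ M := hIM (Ideal.subset_span ⟨o, rfl⟩)
    change σ (Ideal.Quotient.mk M (f o)) = 0
    rw [Ideal.Quotient.eq_zero_iff_mem.2 h4, map_zero]
  have h4 := hker none
  change ρ (X none * (∏ l, yB l) - 1) = 0 at h4
  rw [map_sub, map_mul, map_prod, map_one, sub_eq_zero] at h4
  refine ⟨fun l => ρ (X (some l)), fun j => ?_, fun l hl => ?_⟩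
  · rw [← k1]
    exact hker (some j)
  · have h5 : ∏ l, ρ (yB l) = 0 := Finset.prod_eq_zero (Finset.mem_univ l) hl
    rw [h5, mul_zero] at h4
    exact zero_ne_one h4

/-- the elements which are killed by a derivation -/
def kf (D : Derivation ℤ ℂ ℂ) : Subfield ℂ where
  carrier := {x | D x = 0}
  zero_mem' := map_zero D
  one_mem' := Derivation.map_one_eq_zero D
  add_mem' := fun {a b} ha hb => by
    change D (a + b) = 0
    rw [map_add, show D a = 0 from ha, show D b = 0 from hb, add_zero]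
  mul_mem' := fun {a b} ha hb => by
    change D (a * b) = 0
    rw [Derivation.leibniz, show D a = 0 from ha, show D b = 0 from hb, smul_zero, smul_zero, add_zero]
  neg_mem' := fun {a} ha => by
    change D (-a) = 0
    rw [map_neg, show D a = 0 from ha, neg_zero]
  inv_mem' := fun a ha => by
    change D a⁻¹ = 0
    rw [Derivation.leibniz_inv, show D a = 0 from ha, smul_zero]

/-- a derivation over a subfield -/
noncomputable def ofD (E : Subfield ℂ) (D : Derivation ℤ ℂ ℂ) (h : E ≤ kf D) : Derivation E ℂ ℂ where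
  toFun := D
  map_add' := fun a b => map_add D a b
  map_smul' := fun a b => by
    have h1 : D (a : ℂ) = 0 := h a.2
    have h2 : a • b = (a : ℂ) * b := rfl
    rw [h2, Derivation.leibniz, h1, smul_zero, add_zero]
    rfl
  map_one_eq_zero' := Derivation.map_one_eq_zero D
  leibniz' := fun a b => Derivation.leibniz D a b

theorem ofD_apply (E : Subfield ℂ) (D : Derivation ℤ ℂ ℂ) (h : E ≤ kf D) (x : ℂ) : ofD E D h x = D x := rfl

theorem le_kf {s : Set ℂ} {D : Derivation ℤ ℂ ℂ} (h : ∀ x ∈ s, D x = 0) : Subfield.closure s ≤ kf D :=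
  Subfield.closure_le.2 h

/-- a smaller field -/
theorem ind_mono {E E' : Subfield ℂ} (hE : E ≤ E') {ι : Type} {c : ι → ℂ} (hc : AlgebraicIndependent E' c) :
    AlgebraicIndependent E c := by
  refine Pool.Agent.H135R2.VS.algInd_of_der fun v => ?_
  obtain ⟨D, hD⟩ := Pool.Agent.H135R2.VS.exists_der hc v
  exact ⟨ofD E (D.restrictScalars ℤ) fun x hx => Derivation.map_algebraMap D (⟨x, hE hx⟩ : E'), hD⟩

/-- the transcendental number is transcendental over the coefficients -/
theorem trans_T {ι : Type} {s : Set ℂ} {T : ℂ} (hT : Transcendental (Subfield.closure s) T) {c : ι → ℂ}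
    (hc : AlgebraicIndependent (Subfield.closure (insert T s)) c) :
    Transcendental (Subfield.closure (s ∪ Set.range c)) T := by
  have h1 : AlgebraicIndependent (Subfield.closure s) (fun _ : Unit => T) := algebraicIndependent_unique_type_iff.2 hT
  refine (algebraicIndependent_unique_type_iff (ι := Unit) (x := fun _ : Unit => T)).1 ?_
  refine Pool.Agent.H135R2.VS.algInd_of_der fun v => ?_
  obtain ⟨D1, hD1⟩ := Pool.Agent.H135R2.VS.exists_der h1 v
  obtain ⟨D2, hD2⟩ := Pool.Agent.H135R2.VS.exists_der hc fun i => - D1 (c i)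
  let D : Derivation ℤ ℂ ℂ := D1.restrictScalars ℤ + D2.restrictScalars ℤ
  have hD : ∀ x, D x = D1 x + D2 x := fun x => rfl
  have hk2 : ∀ x ∈ Subfield.closure (insert T s), D2 x = 0 := fun x hx =>
    Derivation.map_algebraMap D2 (⟨x, hx⟩ : Subfield.closure (insert T s))
  refine ⟨ofD _ D (le_kf ?_), fun _ => ?_⟩
  · rintro x (hx | ⟨i, rfl⟩)
    · rw [hD, hk2 x (Subfield.subset_closure (Set.mem_insert_of_mem _ hx)), add_zero]
      exact Derivation.map_algebraMap D1 (⟨x, Subfield.subset_closure hx⟩ : Subfield.closure s)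
    · rw [hD, hD2, add_neg_cancel]
  · rw [ofD_apply, hD, hk2 T (Subfield.subset_closure (Set.mem_insert _ _)), add_zero]
    exact hD1 ()

end Pool.Agent.V8H73.SE
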