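import Pool.Agent.V8H73.SE.Wts

/-!
# The transcendence degree of exponential points
-/

set_option autoImplicit false
set_option linter.unusedSectionVars false

open Set MeasureTheory

namespace Pool.Agent.V8H73.SE

open Pool.Agent.V8H73.AN (Ex Four Ph ez mo JJ Ph_sum ιX)

variable {n : ℕ} {S : Finset (Fin n × Ex n)}

/-- the transcendence degree, if the family controls the derivations -/
theorem trdeg_of_kill {F : Type} [Field F] [Algebra F ℂ] [CharZero F] {z : Fin n → ℂ}
    (hz : AlgebraicIndependent F z) (M : IntermediateField F ℂ) (hzM : ∀ l, z l ∈ M)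
    (hk : ∀ δ : Derivation F ℂ ℂ, (∀ l, δ (z l) = 0) → ∀ m ∈ M, δ m = 0) : Algebra.trdeg F M = n := by
  refine le_antisymm ?_ ?_
  · obtain ⟨ι, x, hx⟩ := exists_isTranscendenceBasis' F M
    rw [← hx.cardinalMk_eq_trdeg]
    refine Cardinal.card_le_of fun s => ?_
    have h1 : AlgebraicIndependent F (fun i : s => ((x i : M) : ℂ)) :=
      (hx.1.comp (fun i : s => (i : ι)) Subtype.val_injective).map' (f := M.val) M.val.injective
    have h2 := (Pool.Agent.V8H73.AN.count h1 (Z := z) fun δ hδ i => hk δ hδ _ (x i).2).1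
    rwa [Fintype.card_coe, Fintype.card_fin] at h2
  · have h1 : AlgebraicIndependent F (fun l : Fin n => (⟨z l, hzM l⟩ : M)) := by
      refine AlgebraicIndependent.of_comp (f := M.val) ?_
      exact hz
    have h2 := h1.cardinalMk_le_trdeg
    rwa [Cardinal.mk_fin] at h2

/-- derivations which kill the coefficients and the point kill the exponentials -/
theorem kill_exp (hS : Four S) {K : Subfield ℂ} {c : S → ℂ} {z : Fin n → ℂ}
    (hI : AlgebraicIndependent K (Sum.elim c z)) (h0 : val c z = 0) (δ : Derivation K ℂ ℂ)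
    (hc : ∀ q, δ (c q) = 0) (hz : ∀ l, δ (z l) = 0) (l : Fin n) : δ (Complex.exp (z l)) = 0 := by
  classical
  let q0 : Fin n → S := fun j => ⟨(j, 0), hS.h0 j⟩
  have hinj : Function.Injective q0 := fun i j hij => congrArg (fun u : S => u.1.1) hij
  let Z : {q : S // ∀ j, q ≠ q0 j} ⊕ (Fin n ⊕ Fin n) → ℂ :=
    Sum.elim (fun q => c q.1) (Sum.elim z fun l => Complex.exp (z l))
  have hcard : Fintype.card (S ⊕ Fin n) = Fintype.card ({q : S // ∀ j, q ≠ q0 j} ⊕ (Fin n ⊕ Fin n)) := by
    have e1 : {q : S // ∀ j, q ≠ q0 j} ⊕ Fin n ≃ S :=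
      (Equiv.sumCongr (Equiv.subtypeEquivRight fun q => by simp [eq_comm]) (Equiv.ofInjective q0 hinj)).trans
        ((Equiv.sumComm _ _).trans (Equiv.Set.sumCompl (Set.range q0)))
    exact Fintype.card_congr ((Equiv.sumCongr e1.symm (Equiv.refl _)).trans (Equiv.sumAssoc _ _ _))
  have hkill : ∀ δ : Derivation K ℂ ℂ, (∀ s, δ (Z s) = 0) → ∀ t, δ ((Sum.elim c z : S ⊕ Fin n → ℂ) t) = 0 := by
    intro δ hδ
    have hz1 : ∀ l, δ (z l) = 0 := fun l => hδ (Sum.inr (Sum.inl l))
    have hz2 : ∀ l, δ (Complex.exp (z l)) = 0 := fun l => hδ (Sum.inr (Sum.inr l))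
    have hm : ∀ e : Ex n, δ (∏ l, z l ^ e (Sum.inl l) * Complex.exp (z l) ^ e (Sum.inr l)) = 0 := by
      intro e
      have h1 : ∏ l, z l ^ e (Sum.inl l) * Complex.exp (z l) ^ e (Sum.inr l) ∈ kf (δ.restrictScalars ℤ) :=
        prod_mem fun l _ => mul_mem (pow_mem (hz1 l) _) (pow_mem (hz2 l) _)
      exact h1
    rintro (q | l)
    · change δ (c q) = 0
      by_cases hqj : ∃ j, q = q0 j
      · obtain ⟨j, rfl⟩ := hqj
        have h1 := congrArg δ (congrFun h0 j)
        change δ (val c z j) = δ (0 : ℂ) at h1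
        unfold val at h1
        rw [map_zero, map_sum, Finset.sum_eq_single (q0 j)] at h1
        · have h2 : (q0 j).1.1 = j := rfl
          rw [if_pos h2, Derivation.leibniz, hm, smul_zero, zero_add] at h1
          have h3 : ∏ l, z l ^ (q0 j).1.2 (Sum.inl l) * Complex.exp (z l) ^ (q0 j).1.2 (Sum.inr l) = 1 := by
            refine Finset.prod_eq_one fun l _ => ?_
            change z l ^ ((0 : Ex n) (Sum.inl l)) * Complex.exp (z l) ^ ((0 : Ex n) (Sum.inr l)) = 1
            rw [Finsupp.zero_apply, Finsupp.zero_apply, pow_zero, pow_zero, mul_one]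
          rw [h3, one_smul] at h1
          exact h1
        · intro q _ hqne
          split_ifs with h4
          · have h5 : ∀ i, q ≠ q0 i := by
              intro i hi
              have h6 : i = j := by rw [← h4, hi]
              exact hqne (by rw [hi, h6])
            have h7 : δ (c q) = 0 := hδ (Sum.inl ⟨q, h5⟩)
            rw [Derivation.leibniz, hm, h7, smul_zero, smul_zero, add_zero]
          · exact map_zero δ
        · intro h4
          exact absurd (Finset.mem_univ _) h4
      · exact hδ (Sum.inl ⟨q, fun j hj => hqj ⟨j, hj⟩⟩)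
    · exact hz1 l
  have h1 := count' hI hcard hkill δ (by
    rintro (q | l)
    · exact hc q
    · exact hz l)
  exact h1 (Sum.inr (Sum.inr l))

/-- the transcendence degree of an independent exponential point -/
theorem trdeg_eq (hS : Four S) {K : Subfield ℂ} {c : S → ℂ} {z : Fin n → ℂ}
    (hI : AlgebraicIndependent K (Sum.elim c z)) (h0 : val c z = 0) {s : Set ℂ}
    (hz : AlgebraicIndependent (IntermediateField.adjoin K (Set.range c ∪ s)) z) :
    Algebra.trdeg (IntermediateField.adjoin K (Set.range c ∪ s))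
      (IntermediateField.adjoin (IntermediateField.adjoin K (Set.range c ∪ s))
        (Set.range z ∪ Set.range fun l => Complex.exp (z l))) = n := by
  refine trdeg_of_kill hz _ (fun l => IntermediateField.subset_adjoin _ _ (Or.inl ⟨l, rfl⟩)) fun δ hδ m hm => ?_
  have hF : ∀ x ∈ IntermediateField.adjoin K (Set.range c ∪ s), δ x = 0 := fun x hx =>
    Derivation.map_algebraMap δ (⟨x, hx⟩ : IntermediateField.adjoin K (Set.range c ∪ s))
  have hK : K ≤ kf (δ.restrictScalars ℤ) := fun x hx =>
    hF x ((IntermediateField.adjoin K (Set.range c ∪ s)).algebraMap_mem (⟨x, hx⟩ : K))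
  have he : ∀ l, δ (Complex.exp (z l)) = 0 := fun l => kill_exp hS hI h0 (ofD K (δ.restrictScalars ℤ) hK)
    (fun q => hF _ (IntermediateField.subset_adjoin _ _ (Or.inl ⟨q, rfl⟩))) hδ l
  exact der_adjoin _ δ (by
    rintro x (⟨l, rfl⟩ | ⟨l, rfl⟩)
    · exact hδ l
    · exact he l) ⟨m, hm⟩

theorem count_cl (s : Set ℂ) (hs : s.Finite) : Countable (Subfield.closure s) := by
  have h1 : (Cardinal.mk (Subfield.closure s)) ≤ Cardinal.aleph0 := by
    refine (Subfield.cardinalMk_closure_le_max s).trans ?_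
    rw [max_le_iff]
    exact ⟨hs.lt_aleph0.le, le_rfl⟩
  exact Cardinal.mk_le_aleph0_iff.1 h1

theorem exists_T : ∃ T : ℂ, Transcendental (Subfield.closure {tp}) T := by
  have := count_cl {tp} (Set.finite_singleton _)
  by_contra hcon
  push Not at hcon
  have h1 : {x : ℂ | IsAlgebraic (Subfield.closure ({tp} : Set ℂ)) x}.Countable := Algebraic.countable _ _
  have h2 : {x : ℂ | IsAlgebraic (Subfield.closure ({tp} : Set ℂ)) x} = Set.univ := by
    ext x
    simp only [Set.mem_ofPred_eq, Set.mem_univ, iff_true]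
    by_contra hx
    exact hcon x hx
  rw [h2] at h1
  exact not_countable_complex h1

theorem val_eq_Ph (c : S → ℂ) : val c = Ph c := by
  funext z j
  rw [Ph_sum]
  unfold val
  refine Finset.sum_congr rfl fun q _ => ?_
  split_ifs
  · congr 1
    unfold mo
    rw [MvPolynomial.eval_monomial, one_mul, Finsupp.prod_fintype _ _ fun _ => pow_zero _, Fintype.prod_sum_type,
      Finset.prod_mul_distrib]
    rfl
  · rfl

/-- what is proved for one vector of coefficients -/
structure Cl (K : Subfield ℂ) (c : S → ℂ) : Prop where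
  nd : ∀ z, val c z = 0 → (JJ c z (ez z)).det ≠ 0
  inf : {z : Fin n → ℂ | val c z = 0}.Infinite
  gen : ∀ (m : ℕ) (t : Fin m → ℂ), {z : Fin n → ℂ | val c z = 0 ∧
    ¬ Algebra.trdeg (IntermediateField.adjoin K (Set.range c ∪ Set.range t))
      (IntermediateField.adjoin (IntermediateField.adjoin K (Set.range c ∪ Set.range t))
        (Set.range z ∪ Set.range fun l => Complex.exp (z l))) = n}.encard ≤ m

theorem cl_of (hS : Four S) (hn : 0 < n) {K : Subfield ℂ} {c : S → ℂ}
    (h : (∀ z, Ph c z = 0 → (JJ c z (ez z)).det ≠ 0) ∧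
      AlgebraicIndependent K (Sum.elim c fun q : {z : Fin n → ℂ // Ph c z = 0} × Fin n => (q.1 : Fin n → ℂ) q.2))
    {T : ℂ} (hT : Transcendental (Subfield.closure {tp}) T)
    (hc : AlgebraicIndependent (Subfield.closure (insert T {tp})) c) : Cl K c := by
  have hcnt : Countable (Subfield.closure (insert T ({tp} : Set ℂ))) :=
    count_cl _ ((Set.finite_singleton _).insert _)
  rw [← val_eq_Ph] at h
  refine ⟨h.1, ?_, fun m t => ?_⟩
  · obtain ⟨κ, hh, y, h1, h2, h3, h4, h5⟩ := weights hS hT hc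
    exact SE.inf hn h1 h2 h3 h4 h5
  · refine (Set.encard_le_encard ?_).trans (fg c {z : Fin n → ℂ | val c z = 0} h.2 m t)
    rintro z ⟨hz, hz'⟩
    refine ⟨hz, fun hI => hz' (trdeg_eq hS ?_ hz hI)⟩
    have h6 := h.2.comp (Sum.map id fun l : Fin n => ((⟨z, hz⟩ : {z : Fin n → ℂ // val c z = 0}), l))
      (Function.injective_id.sumMap fun l l' hl => congrArg Prod.snd hl)
    have h7 : (Sum.elim c fun q : {z : Fin n → ℂ // val c z = 0} × Fin n => (q.1 : Fin n → ℂ) q.2) ∘
        (Sum.map id fun l : Fin n => ((⟨z, hz⟩ : {z : Fin n → ℂ // val c z = 0}), l)) = Sum.elim c z := by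
      funext o
      rcases o with q | l <;> rfl
    rwa [h7] at h6

/-- **Almost all systems.** -/
theorem ae_cl (hS : Four S) (hn : 0 < n) (K : Subfield ℂ) [Countable K] :
    (∀ᵐ c : S → ℂ, Cl K c) ∧ ∀ᵐ u : S → ℝ, Cl K (ιX S u) := by
  obtain ⟨T, hT⟩ := exists_T
  have hcnt : Countable (Subfield.closure (insert T ({tp} : Set ℂ))) :=
    count_cl _ ((Set.finite_singleton _).insert _)
  constructor
  · filter_upwards [Pool.Agent.V8H73.AN.ae_all hS K,
      Pool.Agent.V8H73.AN.ae_all hS (Subfield.closure (insert T ({tp} : Set ℂ)))] with c h1 h2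
    exact cl_of hS hn h1 hT (h2.2.comp Sum.inl Sum.inl_injective)
  · filter_upwards [Pool.Agent.V8H73.AN.ae_all_R hS K,
      Pool.Agent.V8H73.AN.ae_all_R hS (Subfield.closure (insert T ({tp} : Set ℂ)))] with u h1 h2
    exact cl_of hS hn h1 hT (h2.2.comp Sum.inl Sum.inl_injective)

end Pool.Agent.V8H73.SE
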