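import Pool.Agent.V8H73.SE.Td

/-!
# Transcendence degrees and algebraic extensions
-/

set_option autoImplicit false
set_option linter.unusedSectionVars false

open MvPolynomial

namespace Pool.Agent.V8H73.SE

open Pool.Agent.V8H73.AN (Ex Four Ph ez mo JJ Pj)

/-- an upper bound for the transcendence degree -/
theorem trdeg_le_of_kill {F L : Type} [Field F] [Field L] [Algebra F L] [CharZero F] {n : ℕ}
    (LZ : Derivation F L L →ₗ[L] (Fin n → L)) (M : IntermediateField F L)
    (hk : ∀ δ : Derivation F L L, LZ δ = 0 → ∀ m ∈ M, δ m = 0) : Algebra.trdeg F M ≤ n := by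
  obtain ⟨ι, x, hx⟩ := exists_isTranscendenceBasis' F M
  rw [← hx.cardinalMk_eq_trdeg]
  refine Cardinal.card_le_of fun s => ?_
  have h1 : AlgebraicIndependent F (fun i : s => ((x i : M) : L)) :=
    (hx.1.comp (fun i : s => (i : ι)) Subtype.val_injective).map' (f := M.val) M.val.injective
  let LW : Derivation F L L →ₗ[L] (s → L) :=
    { toFun := fun δ t => δ ((x t : M) : L), map_add' := fun _ _ => rfl, map_smul' := fun _ _ => rfl }
  have hsur : Function.Surjective LW := fun v => by
    obtain ⟨D, hD⟩ := Pool.Agent.H135R2.VS.exists_der h1 v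
    exact ⟨D, funext hD⟩
  have hker : LinearMap.ker LZ ≤ LinearMap.ker LW := by
    intro δ hδ
    rw [LinearMap.mem_ker] at hδ ⊢
    exact funext fun t => hk δ hδ _ (x t).2
  let g : (Derivation F L L ⧸ LinearMap.ker LZ) →ₗ[L] (s → L) := (LinearMap.ker LZ).liftQ LW hker
  have hg : Function.Surjective g := by
    intro v
    obtain ⟨δ, hδ⟩ := hsur v
    exact ⟨Submodule.Quotient.mk δ, hδ⟩
  let e : (Derivation F L L ⧸ LinearMap.ker LZ) ≃ₗ[L] LinearMap.range LZ := LZ.quotKerEquivRange
  have hfd : Module.Finite L (Derivation F L L ⧸ LinearMap.ker LZ) := Module.Finite.equiv e.symm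
  have h2 : Fintype.card s ≤ Module.finrank L (LinearMap.range LZ) := by
    rw [← e.finrank_eq, ← Module.finrank_fintype_fun_eq_card L]
    exact LinearMap.finrank_le_finrank_of_surjective hg
  have h3 : Module.finrank L (LinearMap.range LZ) ≤ n := by
    have h4 : Module.finrank L (LinearMap.range LZ) ≤ Module.finrank L (Fin n → L) := Submodule.finrank_le _
    rwa [Module.finrank_fin_fun] at h4
  rw [Fintype.card_coe] at h2
  exact h2.trans h3

/-- a derivation kills the algebraic elements -/
theorem der_alg {F L : Type*} [Field F] [Field L] [Algebra F L] [CharZero F] (δ : Derivation F L L) {x : L}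
    (hx : IsAlgebraic F x) : δ x = 0 := by
  have h1 := hx.isIntegral
  have h2 : Polynomial.aeval x (Polynomial.derivative (minpoly F x)) ≠ 0 := by
    intro h3
    have h4 := minpoly.dvd F x h3
    have h5 : (Polynomial.derivative (minpoly F x)) ≠ 0 := by
      intro h6
      have h7 := Polynomial.derivative_eq_zero.1 h6
      have h8 := minpoly.natDegree_pos h1
      omega
    have h6 := Polynomial.natDegree_le_of_dvd h4 h5
    have h7 := Polynomial.natDegree_derivative_lt (p := minpoly F x) (minpoly.natDegree_pos h1).ne'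
    omega
  have h3 : δ (Polynomial.aeval x (minpoly F x)) = 0 := by rw [minpoly.aeval, map_zero]
  rw [Derivation.map_aeval, smul_eq_mul] at h3
  exact (mul_eq_zero.1 h3).resolve_left h2

/-- algebraic extensions of subfields -/
theorem ind_alg {K : Subfield ℂ} {s : Set ℂ} {n : ℕ} {z : Fin n → ℂ}
    (h : AlgebraicIndependent (IntermediateField.adjoin K s) z) {E : Subfield ℂ}
    (hE : ∀ x ∈ E, IsAlgebraic (IntermediateField.adjoin K s) x) : AlgebraicIndependent E z := by
  refine Pool.Agent.H135R2.VS.algInd_of_der fun v => ?_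
  obtain ⟨D, hD⟩ := Pool.Agent.H135R2.VS.exists_der h v
  exact ⟨ofD E (D.restrictScalars ℤ) fun x hx => der_alg D (hE x hx), hD⟩

/-- integral matrices with independent rows -/
theorem rows {E : Type} [Field E] [CharZero E] {n k : ℕ} {M : Fin k → Fin n → ℤ} (hM : LinearIndependent ℤ M)
    (v : Fin k → E) : ∃ w : Fin n → E, ∀ r, ∑ i, (M r i : E) * w i = v r := by
  classical
  have h1 : LinearIndependent ℚ (fun r i => ((M r i : ℤ) : ℚ)) := by
    refine (LinearIndependent.iff_fractionRing (R := ℤ) (K := ℚ)).1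
      (hM.map' (Algebra.linearMap ℤ ℚ |>.compLeft (Fin n)) ?_)
    rw [LinearMap.ker_eq_bot]
    intro f g hfg
    funext i
    have := congrFun hfg i
    simpa using this
  let A : Matrix (Fin k) (Fin n) ℚ := Matrix.of fun r i => (M r i : ℚ)
  have h2 : Function.Injective A.transpose.mulVecLin := Matrix.mulVec_injective_iff.2 h1
  obtain ⟨g, hg⟩ := LinearMap.exists_leftInverse_of_injective A.transpose.mulVecLin (LinearMap.ker_eq_bot.2 h2)
  have h3 : LinearMap.toMatrix' g * A.transpose = 1 := by
    have h4 := congrArg LinearMap.toMatrix' hg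
    rwa [LinearMap.toMatrix'_comp, ← Matrix.toLin'_apply', LinearMap.toMatrix'_toLin', LinearMap.toMatrix'_id] at h4
  have h4 : ∀ r r', ∑ i, ((LinearMap.toMatrix' g r' i : ℚ) : E) * (M r i : E) = if r' = r then 1 else 0 := by
    intro r r'
    have h5 := congrFun (congrFun h3 r') r
    rw [Matrix.mul_apply, Matrix.one_apply] at h5
    have h6 := congrArg (fun q : ℚ => (q : E)) h5
    change ((∑ i, LinearMap.toMatrix' g r' i * (M r i : ℚ) : ℚ) : E) = ((if r' = r then 1 else 0 : ℚ) : E) at h6
    push_cast at h6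
    rw [h6]
    split_ifs <;> simp
  refine ⟨fun i => ∑ r', ((LinearMap.toMatrix' g r' i : ℚ) : E) * v r', fun r => ?_⟩
  have h5 : ∀ i, (M r i : E) * ∑ r', ((LinearMap.toMatrix' g r' i : ℚ) : E) * v r' =
      ∑ r', ((LinearMap.toMatrix' g r' i : ℚ) : E) * (M r i : E) * v r' := by
    intro i
    rw [Finset.mul_sum]
    exact Finset.sum_congr rfl fun r' _ => by ring
  rw [Finset.sum_congr rfl fun i _ => h5 i, Finset.sum_comm]
  rw [Finset.sum_congr rfl fun r' _ => (Finset.sum_mul Finset.univ _ (v r')).symm]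
  rw [Finset.sum_congr rfl fun r' _ => by rw [h4 r r']]
  simp

/-- linear forms with independent rows -/
theorem ind_forms {E : Type} [Field E] [Algebra ℂ E] {n k : ℕ} {x : Fin n → E} (hx : AlgebraicIndependent ℂ x)
    {M : Fin k → Fin n → ℤ} (hM : LinearIndependent ℤ M) :
    AlgebraicIndependent ℂ (fun r : Fin k => ∑ i, (M r i : E) * x i) := by
  have hz : CharZero E := charZero_of_injective_algebraMap (algebraMap ℂ E).injective
  refine Pool.Agent.H135R2.VS.algInd_of_der fun v => ?_
  obtain ⟨w, hw⟩ := rows hM v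
  obtain ⟨D, hD⟩ := Pool.Agent.H135R2.VS.exists_der hx w
  refine ⟨D, fun r => ?_⟩
  rw [← hw r, map_sum]
  refine Finset.sum_congr rfl fun i _ => ?_
  rw [Derivation.leibniz, hD, Derivation.map_intCast, smul_zero, add_zero, smul_eq_mul]

end Pool.Agent.V8H73.SE
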