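import Pool.Agent.V8H73.SE.Cmp
import Pool.Agent.Y776.AxJ.Aut

/-!
# All exponential points lie in one component
-/

set_option autoImplicit false
set_option linter.unusedSectionVars false

open MvPolynomial Cardinal

namespace Pool.Agent.V8H73.SE

open Pool.Agent.V8H73.AN (Ex Four Ph ez mo JJ Pj)

/-- independent families over countable fields are conjugate -/
theorem exists_sigma {K : Type} [Field K] [Algebra K ℂ] [Countable K] {ι : Type} [Finite ι] {Z Z' : ι → ℂ}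
    (hZ : AlgebraicIndependent K Z) (hZ' : AlgebraicIndependent K Z') :
    ∃ σ : ℂ ≃+* ℂ, (∀ a : K, σ (algebraMap K ℂ a) = algebraMap K ℂ a) ∧ ∀ i, σ (Z i) = Z' i := by
  classical
  obtain ⟨s, hZs, hs⟩ := exists_isTranscendenceBasis_superset hZ.coe_range
  obtain ⟨t, hZt, ht⟩ := exists_isTranscendenceBasis_superset hZ'.coe_range
  have hK : #K ≤ ℵ₀ := Cardinal.mk_le_aleph0
  have hC : ℵ₀ < #ℂ := by rw [Cardinal.mk_complex]; exact Cardinal.aleph0_lt_continuum
  have h1 := IsAlgClosed.cardinal_eq_cardinal_transcendence_basis_of_aleph0_lt' _ hs hK hC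
  have h2 := IsAlgClosed.cardinal_eq_cardinal_transcendence_basis_of_aleph0_lt' _ ht hK hC
  have h3 : #s = #t := h1.symm.trans h2
  have h4 := Cardinal.mk_sdiff_add_mk hZs
  have h5 := Cardinal.mk_sdiff_add_mk hZt
  have h6 : #(Set.range Z) = #(Set.range Z') := by
    rw [Cardinal.mk_range_eq _ hZ.injective, Cardinal.mk_range_eq _ hZ'.injective]
  have h7 : #(s \ Set.range Z : Set ℂ) = #(t \ Set.range Z' : Set ℂ) := by
    rw [← h3, ← h4, ← h6] at h5
    exact (Cardinal.eq_of_add_eq_add_right h5 (Cardinal.mk_lt_aleph0_iff.2 (Set.finite_range Z).to_subtype)).symm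
  obtain ⟨e₀⟩ := Cardinal.eq.1 h7
  obtain ⟨E₁, hE₁⟩ : ∃ E₁ : ι ⊕ (s \ Set.range Z : Set ℂ) ≃ s, ∀ i, (E₁ (Sum.inl i) : ℂ) = Z i :=
    ⟨(Equiv.sumCongr (Equiv.ofInjective Z hZ.injective) (Equiv.refl _)).trans (Equiv.Set.sumDiffSubset hZs),
      fun i => rfl⟩
  obtain ⟨E₂, hE₂⟩ : ∃ E₂ : ι ⊕ (t \ Set.range Z' : Set ℂ) ≃ t, ∀ i, (E₂ (Sum.inl i) : ℂ) = Z' i :=
    ⟨(Equiv.sumCongr (Equiv.ofInjective Z' hZ'.injective) (Equiv.refl _)).trans (Equiv.Set.sumDiffSubset hZt),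
      fun i => rfl⟩
  obtain ⟨σ, hσ, hσe⟩ := Pool.Agent.Y776.AxJ.exists_equiv hs ht
    (E₁.symm.trans ((Equiv.sumCongr (Equiv.refl ι) e₀).trans E₂))
  refine ⟨σ, hσ, fun i => ?_⟩
  have h8 := hσe (E₁ (Sum.inl i))
  rw [Equiv.trans_apply, Equiv.symm_apply_apply, hE₁] at h8
  exact h8.trans (hE₂ i)

variable {n : ℕ} {S : Finset (Fin n × Ex n)}

/-- the two special exponents of each equation -/
noncomputable def qq (hS : Four S) (l0 : Fin n) : Fin n ⊕ Fin n → S :=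
  Sum.elim (fun j => ⟨(j, 0), hS.h0 j⟩) fun j => ⟨(j, Finsupp.single (Sum.inl l0) 1), hS.hx j l0⟩

theorem qq_inj (hS : Four S) (l0 : Fin n) : Function.Injective (qq hS l0) := by
  have h1 : (Finsupp.single (Sum.inl l0) 1 : Ex n) ≠ 0 := by
    intro h
    have := DFunLike.congr_fun h (Sum.inl l0)
    simp at this
  rintro (j | j) (j' | j') h
  · exact congrArg Sum.inl (congrArg (fun q : S => q.1.1) h)
  · exact absurd (congrArg (fun q : S => q.1.2) h).symm h1
  · exact absurd (congrArg (fun q : S => q.1.2) h) h1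
  · exact congrArg Sum.inr (congrArg (fun q : S => q.1.1) h)

/-- the values, if all other coefficients vanish -/
theorem val_two (hS : Four S) (l0 : Fin n) {a : S → ℂ} (ha : ∀ q, (∀ o, q ≠ qq hS l0 o) → a q = 0)
    (z : Fin n → ℂ) (j : Fin n) :
    val a z j = a (qq hS l0 (Sum.inl j)) + a (qq hS l0 (Sum.inr j)) * z l0 := by
  classical
  rw [val_eq_Ph, Pool.Agent.V8H73.AN.Ph_sum,
    Finset.sum_eq_add (qq hS l0 (Sum.inl j)) (qq hS l0 (Sum.inr j))
      (fun h => by simpa using qq_inj hS l0 h)]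
  · have e1 : (qq hS l0 (Sum.inl j)).1.1 = j := rfl
    have e2 : (qq hS l0 (Sum.inr j)).1.1 = j := rfl
    rw [if_pos e1, if_pos e2]
    have e3 : (qq hS l0 (Sum.inl j)).1.2 = 0 := rfl
    have e4 : (qq hS l0 (Sum.inr j)).1.2 = Finsupp.single (Sum.inl l0) 1 := rfl
    rw [e3, e4, Pool.Agent.V8H73.AN.mo_zero, Pool.Agent.V8H73.AN.mo_x, mul_one]
  · rintro q - ⟨h1, h2⟩
    split_ifs with h3
    · rw [ha q, zero_mul]
      rintro (o | o) ho
      · have h4 : o = j := by rw [← h3, ho]; rfl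
        exact h1 (by rw [ho, h4])
      · have h4 : o = j := by rw [← h3, ho]; rfl
        exact h2 (by rw [ho, h4])
    · rfl
  · exact fun h => absurd (Finset.mem_univ _) h
  · exact fun h => absurd (Finset.mem_univ _) h

/-- two points determine the coefficients -/
theorem two_zero (hS : Four S) {l0 : Fin n} {a : S → ℂ} (ha : ∀ q, (∀ o, q ≠ qq hS l0 o) → a q = 0)
    {z z' : Fin n → ℂ} (hz : val a z = 0) (hz' : val a z' = 0) (hne : z l0 ≠ z' l0) (q : S) : a q = 0 := by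
  classical
  have h1 : ∀ j, a (qq hS l0 (Sum.inr j)) = 0 := by
    intro j
    have h2 := congrFun hz j
    have h3 := congrFun hz' j
    rw [val_two hS l0 ha] at h2 h3
    have h4 : a (qq hS l0 (Sum.inr j)) * (z l0 - z' l0) = 0 := by
      have h5 : a (qq hS l0 (Sum.inl j)) + a (qq hS l0 (Sum.inr j)) * z l0 =
        a (qq hS l0 (Sum.inl j)) + a (qq hS l0 (Sum.inr j)) * z' l0 := h2.trans h3.symm
      linear_combination h5
    exact (mul_eq_zero.1 h4).resolve_right (sub_ne_zero.2 hne)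
  have h2 : ∀ j, a (qq hS l0 (Sum.inl j)) = 0 := by
    intro j
    have h3 := congrFun hz j
    rw [val_two hS l0 ha, h1, zero_mul, add_zero] at h3
    exact h3
  by_cases h3 : ∃ o, q = qq hS l0 o
  · obtain ⟨o | o, rfl⟩ := h3
    · exact h2 o
    · exact h1 o
  · push Not at h3
    exact ha q h3

/-- the family of independent elements given by two points -/
noncomputable def fam (hS : Four S) (l0 : Fin n) (c : S → ℂ) (z z' : Fin n → ℂ) :
    {q : S // ∀ o, q ≠ qq hS l0 o} ⊕ ((Fin n ⊕ Fin n) ⊕ (Fin n ⊕ Fin n)) → ℂ :=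
  Sum.elim (fun q => c q.1) (Sum.elim (Sum.elim z fun l => Complex.exp (z l)) (Sum.elim z' fun l => Complex.exp (z' l)))

theorem der_val {c : S → ℂ} {z : Fin n → ℂ} {K : Subfield ℂ} (δ : Derivation K ℂ ℂ) (hz : ∀ l, δ (z l) = 0)
    (he : ∀ l, δ (Complex.exp (z l)) = 0) (j : Fin n) : δ (val c z j) = val (fun q => δ (c q)) z j := by
  have hm : ∀ e : Ex n, δ (∏ l, z l ^ e (Sum.inl l) * Complex.exp (z l) ^ e (Sum.inr l)) = 0 := by
    intro e
    have h1 : ∏ l, z l ^ e (Sum.inl l) * Complex.exp (z l) ^ e (Sum.inr l) ∈ kf (δ.restrictScalars ℤ) :=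
      prod_mem fun l _ => mul_mem (pow_mem (hz l) _) (pow_mem (he l) _)
    exact h1
  unfold val
  rw [map_sum]
  refine Finset.sum_congr rfl fun q _ => ?_
  split_ifs
  · rw [Derivation.leibniz, hm, smul_zero, zero_add, smul_eq_mul, mul_comm]
  · exact map_zero δ

theorem map_val (σ : ℂ ≃+* ℂ) {c : S → ℂ} {z z' : Fin n → ℂ} (hz : ∀ l, σ (z l) = z' l)
    (he : ∀ l, σ (Complex.exp (z l)) = Complex.exp (z' l)) (j : Fin n) :
    σ (val c z j) = val (fun q => σ (c q)) z' j := by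
  unfold val
  rw [map_sum]
  refine Finset.sum_congr rfl fun q _ => ?_
  split_ifs
  · rw [map_mul, map_prod]
    congr 1
    refine Finset.prod_congr rfl fun l _ => ?_
    rw [map_mul, map_pow, map_pow, hz, he]
  · exact map_zero σ

theorem val_sub (a b : S → ℂ) (z : Fin n → ℂ) : val (fun q => a q - b q) z = val a z - val b z := by
  funext j
  unfold val
  rw [Pi.sub_apply, ← Finset.sum_sub_distrib]
  refine Finset.sum_congr rfl fun q _ => ?_
  split_ifs
  · ring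
  · rw [sub_zero]

theorem fam_ind (hS : Four S) {l0 : Fin n} {K : Subfield ℂ} {c : S → ℂ} {z z' : Fin n → ℂ}
    (hI : AlgebraicIndependent K (Sum.elim c (Sum.elim z z'))) (hz : val c z = 0) (hz' : val c z' = 0)
    (hne : z l0 ≠ z' l0) : AlgebraicIndependent K (fam hS l0 c z z') := by
  classical
  have hcard : Fintype.card (S ⊕ (Fin n ⊕ Fin n)) =
      Fintype.card ({q : S // ∀ o, q ≠ qq hS l0 o} ⊕ ((Fin n ⊕ Fin n) ⊕ (Fin n ⊕ Fin n))) := by
    have e1 : {q : S // ∀ o, q ≠ qq hS l0 o} ⊕ (Fin n ⊕ Fin n) ≃ S :=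
      (Equiv.sumCongr (Equiv.subtypeEquivRight fun q => by simp only [Set.mem_compl_iff, Set.mem_range, not_exists, ne_eq, eq_comm])
        (Equiv.ofInjective (qq hS l0) (qq_inj hS l0))).trans
        ((Equiv.sumComm _ _).trans (Equiv.Set.sumCompl (Set.range (qq hS l0))))
    exact Fintype.card_congr ((Equiv.sumCongr e1.symm (Equiv.refl _)).trans (Equiv.sumAssoc _ _ _))
  refine (Pool.Agent.V8H73.AN.count hI fun δ hδ => ?_).2 hcard
  have h1 : ∀ l, δ (z l) = 0 := fun l => hδ (Sum.inr (Sum.inl (Sum.inl l)))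
  have h2 : ∀ l, δ (Complex.exp (z l)) = 0 := fun l => hδ (Sum.inr (Sum.inl (Sum.inr l)))
  have h3 : ∀ l, δ (z' l) = 0 := fun l => hδ (Sum.inr (Sum.inr (Sum.inl l)))
  have h4 : ∀ l, δ (Complex.exp (z' l)) = 0 := fun l => hδ (Sum.inr (Sum.inr (Sum.inr l)))
  have h5 : ∀ q, (∀ o, q ≠ qq hS l0 o) → δ (c q) = 0 := fun q hq => hδ (Sum.inl ⟨q, hq⟩)
  have h6 : val (fun q => δ (c q)) z = 0 := funext fun j => by
    rw [← der_val δ h1 h2, hz]
    exact map_zero δ
  have h7 : val (fun q => δ (c q)) z' = 0 := funext fun j => by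
    rw [← der_val δ h3 h4, hz']
    exact map_zero δ
  rintro (q | (l | l))
  · exact two_zero hS h5 h6 h7 hne q
  · exact h1 l
  · exact h3 l

/-- **Pairs of exponential points are conjugate.** -/
theorem two_pts (hS : Four S) (l0 : Fin n) {K : Subfield ℂ} [Countable K] {c : S → ℂ}
    (h : AlgebraicIndependent K (Sum.elim c fun q : {z : Fin n → ℂ // val c z = 0} × Fin n => (q.1 : Fin n → ℂ) q.2))
    {z₁ z₂ z₃ z₄ : Fin n → ℂ} (h1 : val c z₁ = 0) (h2 : val c z₂ = 0) (h3 : val c z₃ = 0) (h4 : val c z₄ = 0)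
    (h12 : z₁ ≠ z₂) (h34 : z₃ ≠ z₄) : ∃ σ : ℂ ≃+* ℂ, (∀ q, σ (c q) = c q) ∧
      ((∀ l, σ (z₁ l) = z₃ l) ∧ ∀ l, σ (Complex.exp (z₁ l)) = Complex.exp (z₃ l)) ∧
      ((∀ l, σ (z₂ l) = z₄ l) ∧ ∀ l, σ (Complex.exp (z₂ l)) = Complex.exp (z₄ l)) := by
  have hsub : ∀ {z z' : Fin n → ℂ}, val c z = 0 → val c z' = 0 → z ≠ z' →
      AlgebraicIndependent K (Sum.elim c (Sum.elim z z')) ∧ z l0 ≠ z' l0 := by
    intro z z' hz hz' hne
    have e1 := h.comp (Sum.map id (Sum.elim (fun l : Fin n => ((⟨z, hz⟩ : {z : Fin n → ℂ // val c z = 0}), l))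
      fun l : Fin n => ((⟨z', hz'⟩ : {z : Fin n → ℂ // val c z = 0}), l)))
      (Function.injective_id.sumMap (by
        rintro (l | l) (l' | l') hl
        · exact congrArg Sum.inl (congrArg Prod.snd hl)
        · exact absurd (congrArg (fun u : {z : Fin n → ℂ // val c z = 0} × Fin n => (u.1 : Fin n → ℂ)) hl) hne
        · exact absurd (congrArg (fun u : {z : Fin n → ℂ // val c z = 0} × Fin n => (u.1 : Fin n → ℂ)) hl) hne.symm
        · exact congrArg Sum.inr (congrArg Prod.snd hl)))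
    have e2 : (Sum.elim c fun q : {z : Fin n → ℂ // val c z = 0} × Fin n => (q.1 : Fin n → ℂ) q.2) ∘
        (Sum.map id (Sum.elim (fun l : Fin n => ((⟨z, hz⟩ : {z : Fin n → ℂ // val c z = 0}), l))
          fun l : Fin n => ((⟨z', hz'⟩ : {z : Fin n → ℂ // val c z = 0}), l))) = Sum.elim c (Sum.elim z z') := by
      funext o
      rcases o with q | (l | l) <;> rfl
    rw [e2] at e1
    refine ⟨e1, fun h5 => ?_⟩
    have h6 := e1.injective (show (Sum.elim c (Sum.elim z z')) (Sum.inr (Sum.inl l0)) =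
      (Sum.elim c (Sum.elim z z')) (Sum.inr (Sum.inr l0)) from h5)
    simp at h6
  obtain ⟨hI, hne⟩ := hsub h1 h2 h12
  obtain ⟨hI', hne'⟩ := hsub h3 h4 h34
  obtain ⟨σ, -, hσ⟩ := exists_sigma (fam_ind hS hI h1 h2 hne) (fam_ind hS hI' h3 h4 hne')
  have e1 : ∀ l, σ (z₁ l) = z₃ l := fun l => hσ (Sum.inr (Sum.inl (Sum.inl l)))
  have e2 : ∀ l, σ (Complex.exp (z₁ l)) = Complex.exp (z₃ l) := fun l => hσ (Sum.inr (Sum.inl (Sum.inr l)))
  have e3 : ∀ l, σ (z₂ l) = z₄ l := fun l => hσ (Sum.inr (Sum.inr (Sum.inl l)))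
  have e4 : ∀ l, σ (Complex.exp (z₂ l)) = Complex.exp (z₄ l) := fun l => hσ (Sum.inr (Sum.inr (Sum.inr l)))
  have e5 : ∀ q, (∀ o, q ≠ qq hS l0 o) → σ (c q) - c q = 0 := fun q hq => sub_eq_zero.2 (hσ (Sum.inl ⟨q, hq⟩))
  have e6 : val (fun q => σ (c q) - c q) z₃ = 0 := by
    rw [val_sub, h3, sub_zero]
    funext j
    rw [← map_val σ e1 e2, h1]
    exact map_zero σ
  have e7 : val (fun q => σ (c q) - c q) z₄ = 0 := by
    rw [val_sub, h4, sub_zero]
    funext j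
    rw [← map_val σ e3 e4, h2]
    exact map_zero σ
  exact ⟨σ, fun q => sub_eq_zero.1 (two_zero hS e5 e6 e7 hne' q), ⟨e1, e2⟩, ⟨e3, e4⟩⟩

end Pool.Agent.V8H73.SE
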