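import Pool.Agent.V8H73.SE.Two

/-!
# The component of the exponential points
-/

set_option autoImplicit false
set_option linter.unusedSectionVars false

open MvPolynomial

namespace Pool.Agent.V8H73.SE

open Pool.Agent.V8H73.AN (Ex Four Ph ez mo JJ Pj ιX)

variable {n : ℕ} {S : Finset (Fin n × Ex n)}

/-- the minimal primes through a point -/
def Cs (c : S → ℂ) (z : Fin n → ℂ) : Set (Ideal (MvPolynomial (Fin n ⊕ Fin n) ℂ)) :=
  {P | P ∈ (Ideal.span (Set.range (Pj c))).minimalPrimes ∧ z ∈ Zp P}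

theorem Cs_nonempty {c : S → ℂ} {z : Fin n → ℂ} (hz : val c z = 0) : (Cs c z).Nonempty := by
  have hpr : (RingHom.ker (eval (Sum.elim z fun l => Complex.exp (z l)) :
      MvPolynomial (Fin n ⊕ Fin n) ℂ →+* ℂ)).IsPrime := RingHom.ker_isPrime _
  have hle : Ideal.span (Set.range (Pj c)) ≤ RingHom.ker (eval (Sum.elim z fun l => Complex.exp (z l)) :
      MvPolynomial (Fin n ⊕ Fin n) ℂ →+* ℂ) := by
    rw [Ideal.span_le]
    rintro _ ⟨j, rfl⟩
    rw [SetLike.mem_coe, RingHom.mem_ker, ← val_ev]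
    exact congrFun hz j
  obtain ⟨P, hP, hP'⟩ := Ideal.exists_minimalPrimes_le hle
  exact ⟨P, hP, fun f hf => (RingHom.mem_ker (f := eval _)).1 (hP' hf)⟩

/-- the action of an automorphism on the ideals -/
noncomputable def act (σ : ℂ ≃+* ℂ) (P : Ideal (MvPolynomial (Fin n ⊕ Fin n) ℂ)) :
    Ideal (MvPolynomial (Fin n ⊕ Fin n) ℂ) :=
  P.comap (mapEquiv (Fin n ⊕ Fin n) σ).symm

theorem mem_act {σ : ℂ ≃+* ℂ} {P : Ideal (MvPolynomial (Fin n ⊕ Fin n) ℂ)} {f : MvPolynomial (Fin n ⊕ Fin n) ℂ} :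
    f ∈ act σ P ↔ (mapEquiv (Fin n ⊕ Fin n) σ).symm f ∈ P := Ideal.mem_comap

theorem ev_sigma {σ : ℂ ≃+* ℂ} {z z' : Fin n → ℂ}
    (h : (∀ l, σ (z l) = z' l) ∧ ∀ l, σ (Complex.exp (z l)) = Complex.exp (z' l))
    (f : MvPolynomial (Fin n ⊕ Fin n) ℂ) : σ (eval (Sum.elim z fun l => Complex.exp (z l)) f) =
      eval (Sum.elim z' fun l => Complex.exp (z' l)) (mapEquiv (Fin n ⊕ Fin n) σ f) := by
  have h1 := Pool.Agent.V8H73.AN.ev_map (σ : ℂ →+* ℂ) (Sum.elim z fun l => Complex.exp (z l)) f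
  rw [Pool.Agent.V8H73.AN.elim_map] at h1
  have h2 : (fun l => (σ : ℂ →+* ℂ) (z l)) = z' := funext h.1
  have h3 : (fun l => (σ : ℂ →+* ℂ) (Complex.exp (z l))) = fun l => Complex.exp (z' l) := funext h.2
  rw [h2, h3] at h1
  exact h1

theorem act_zp {σ : ℂ ≃+* ℂ} {z z' : Fin n → ℂ}
    (h : (∀ l, σ (z l) = z' l) ∧ ∀ l, σ (Complex.exp (z l)) = Complex.exp (z' l))
    (P : Ideal (MvPolynomial (Fin n ⊕ Fin n) ℂ)) : z ∈ Zp P ↔ z' ∈ Zp (act σ P) := by
  constructor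
  · intro hz f hf
    have h1 := ev_sigma h ((mapEquiv (Fin n ⊕ Fin n) σ).symm f)
    rw [hz _ (mem_act.1 hf), map_zero, RingEquiv.apply_symm_apply] at h1
    exact h1.symm
  · intro hz f hf
    have h1 := ev_sigma h f
    rw [hz _ (mem_act.2 (by rwa [RingEquiv.symm_apply_apply]))] at h1
    exact (map_eq_zero σ).1 h1

theorem act_min {σ : ℂ ≃+* ℂ} {c : S → ℂ} (hσ : ∀ q, σ (c q) = c q) :
    act σ '' (Ideal.span (Set.range (Pj c))).minimalPrimes = (Ideal.span (Set.range (Pj c))).minimalPrimes := by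
  have h1 : (Ideal.span (Set.range (Pj c))).comap (mapEquiv (Fin n ⊕ Fin n) σ).symm = Ideal.span (Set.range (Pj c)) := by
    rw [Ideal.comap_symm, Ideal.map_span, ← Set.range_comp]
    congr 2
    funext j
    have h2 := Pool.Agent.V8H73.AN.Pj_map (σ : ℂ →+* ℂ) c j
    have h3 : (fun q => (σ : ℂ →+* ℂ) (c q)) = c := funext hσ
    rw [h3] at h2
    exact h2
  have h2 := Ideal.comap_minimalPrimes_eq_of_surjective
    (f := ((mapEquiv (Fin n ⊕ Fin n) σ).symm : MvPolynomial (Fin n ⊕ Fin n) ℂ →+* MvPolynomial (Fin n ⊕ Fin n) ℂ))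
    (mapEquiv (Fin n ⊕ Fin n) σ).symm.surjective (Ideal.span (Set.range (Pj c)))
  have h3 : (Ideal.span (Set.range (Pj c))).comap ((mapEquiv (Fin n ⊕ Fin n) σ).symm :
      MvPolynomial (Fin n ⊕ Fin n) ℂ →+* MvPolynomial (Fin n ⊕ Fin n) ℂ) = Ideal.span (Set.range (Pj c)) := h1
  rw [h3] at h2
  exact h2.symm

theorem act_Cs {σ : ℂ ≃+* ℂ} {c : S → ℂ} (hσ : ∀ q, σ (c q) = c q) {z z' : Fin n → ℂ}
    (h : (∀ l, σ (z l) = z' l) ∧ ∀ l, σ (Complex.exp (z l)) = Complex.exp (z' l)) :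
    act σ '' Cs c z = Cs c z' := by
  ext P'
  constructor
  · rintro ⟨P, ⟨hP, hz⟩, rfl⟩
    refine ⟨?_, (act_zp h P).1 hz⟩
    rw [← act_min hσ]
    exact ⟨P, hP, rfl⟩
  · rintro ⟨hP, hz⟩
    rw [← act_min hσ] at hP
    obtain ⟨P, hP, rfl⟩ := hP
    exact ⟨P, ⟨hP, (act_zp h P).2 hz⟩, rfl⟩

/-- **All exponential points lie in one component.** -/
theorem one_cmp (hS : Four S) (l0 : Fin n) {K : Subfield ℂ} [Countable K] {c : S → ℂ}
    (h : AlgebraicIndependent K (Sum.elim c fun q : {z : Fin n → ℂ // val c z = 0} × Fin n => (q.1 : Fin n → ℂ) q.2))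
    (hinf : {z : Fin n → ℂ | val c z = 0}.Infinite) :
    ∃ P ∈ (Ideal.span (Set.range (Pj c))).minimalPrimes, ∀ z, val c z = 0 → z ∈ Zp P := by
  classical
  have hfin := (Ideal.span (Set.range (Pj c))).finite_minimalPrimes_of_isNoetherianRing
    (MvPolynomial (Fin n ⊕ Fin n) ℂ)
  obtain ⟨z₁, h1, z₂, h2, h12, hC⟩ := hinf.exists_ne_map_eq_of_mapsTo (f := Cs c)
    (t := {s | s ⊆ (Ideal.span (Set.range (Pj c))).minimalPrimes}) (fun z _ P hP => hP.1) hfin.finite_subsets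
  obtain ⟨P, hP⟩ := Cs_nonempty (c := c) h1
  refine ⟨P, hP.1, fun z hz => ?_⟩
  by_cases hz1 : z₁ = z
  · rw [← hz1]
    exact hP.2
  · obtain ⟨σ, hσ, hσ1, hσ2⟩ := two_pts hS l0 h h1 h2 h1 hz h12 hz1
    have e1 := act_Cs hσ hσ1
    have e2 := act_Cs hσ hσ2
    rw [← hC, e1] at e2
    rw [e2] at hP
    exact hP.2

/-- polynomials which vanish at infinitely many solutions -/
theorem poly_zero {K : Subfield ℂ} {c : S → ℂ} (h : Cm K c) {A : Set (Fin n → ℂ)} (hA : A.Infinite)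
    (hA' : ∀ z ∈ A, val c z = 0) {g : MvPolynomial (Fin n) ℂ} (hg : ∀ z ∈ A, eval z g = 0) : g = 0 := by
  classical
  let t : Fin g.coeffs.card → ℂ := fun i => (g.coeffs.equivFin.symm i : ℂ)
  have ht : ∀ x ∈ g.coeffs, x ∈ Set.range t := fun x hx =>
    ⟨g.coeffs.equivFin ⟨x, hx⟩, by simp [t]⟩
  obtain ⟨z, hz, hzI⟩ : ∃ z ∈ A,
      AlgebraicIndependent (IntermediateField.adjoin K (Set.range c ∪ Set.range t)) z := by
    by_contra hcon
    push Not at hcon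
    have h0 : A ⊆ {z | z ∈ {z : Fin n → ℂ | val c z = 0} ∧
        ¬ AlgebraicIndependent (IntermediateField.adjoin K (Set.range c ∪ Set.range t)) z} :=
      fun z hz => ⟨hA' z hz, hcon z hz⟩
    exact hA (Set.finite_of_encard_le_coe ((Set.encard_le_encard h0).trans (h.ai _ t)))
  have h2 := hg z hz
  have h3 : g ∈ Set.range (map (algebraMap (IntermediateField.adjoin K (Set.range c ∪ Set.range t)) ℂ) :
      MvPolynomial (Fin n) _ → MvPolynomial (Fin n) ℂ) := by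
    rw [mem_range_map_iff_coeffs_subset]
    intro x hx
    exact ⟨⟨x, IntermediateField.subset_adjoin _ _ (Or.inr (ht x hx))⟩, rfl⟩
  obtain ⟨g0, hg0⟩ := h3
  have h4 : g0 = 0 := by
    refine (algebraicIndependent_iff.1 hzI) g0 ?_
    rw [← hg0, eval_map] at h2
    rw [aeval_def]
    exact h2
  rw [← hg0, h4, map_zero]

/-- **Uniqueness.** -/
theorem le_of_common {K : Subfield ℂ} {c : S → ℂ} (h : Cm K c) {P₁ P₂ : Ideal (MvPolynomial (Fin n ⊕ Fin n) ℂ)}
    {L : Type} [Field L] [Algebra ℂ L] {p : Fin n ⊕ Fin n → L} (hp : Gp P₂ p) (hP₂ : ∀ j, Pj c j ∈ P₂)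
    (hinf : (Zp P₁ ∩ Zp P₂).Infinite) : P₁ ≤ P₂ := by
  classical
  intro f hf
  by_contra hf2
  have hinf2 : (Zp P₂).Infinite := hinf.mono Set.inter_subset_right
  have hu : aeval p f ≠ 0 := fun h0 => hf2 ((hp.ev f).1 h0)
  have hx := ind_x hp h hP₂ hinf2
  have htr := dim_eq hp h hP₂ hinf2
  have hb := hx.isTranscendenceBasis_of_trdeg_le_of_finite (by rw [htr, Cardinal.mk_fin])
  have halg := hb.isAlgebraic
  obtain ⟨q, hq0, hq⟩ := (halg.isAlgebraic (aeval p f)).exists_nonzero_coeff_and_aeval_eq_zero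
    (mem_nonZeroDivisors_of_ne_zero hu)
  have hg : ∀ i, ∃ g : MvPolynomial (Fin n) ℂ, aeval (fun l => p (Sum.inl l)) g = (q.coeff i : L) := by
    intro i
    have h1 : ∀ x ∈ Algebra.adjoin ℂ (Set.range fun l => p (Sum.inl l)),
        x ∈ (aeval (fun l => p (Sum.inl l)) : MvPolynomial (Fin n) ℂ →ₐ[ℂ] L).range := by
      rw [Algebra.adjoin_range_eq_range_aeval]
      exact fun x hx => hx
    exact h1 _ (q.coeff i).2
  choose g hg using hg
  have hG : ∑ i ∈ Finset.range (q.natDegree + 1), rename Sum.inl (g i) * f ^ i ∈ P₂ := by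
    rw [← hp.ev, map_sum, ← hq, Polynomial.aeval_eq_sum_range]
    refine Finset.sum_congr rfl fun i _ => ?_
    rw [map_mul, map_pow, aeval_rename]
    have h1 : aeval (p ∘ Sum.inl) (g i) = (q.coeff i : L) := hg i
    rw [h1]
    rfl
  have h0 : g 0 = 0 := by
    refine poly_zero h hinf (fun z hz => Zp_sub hP₂ hz.2) fun z hz => ?_
    have h1 := hz.2 _ hG
    rw [map_sum, Finset.sum_eq_single 0] at h1
    · rw [pow_zero, mul_one, eval_rename] at h1
      exact h1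
    · intro i _ hi
      rw [map_mul, map_pow, hz.1 f hf, zero_pow hi, mul_zero]
    · intro h2
      exact absurd (Finset.mem_range.2 (Nat.succ_pos _)) h2
  apply hq0
  apply Subtype.ext
  rw [← hg 0, h0, map_zero]
  rfl

end Pool.Agent.V8H73.SE
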