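import Pool.Agent.V8H73.SE.Der

/-!
# Valuations and leading parts
-/

set_option autoImplicit false
set_option linter.unusedSectionVars false

namespace Pool.Agent.V8H73.SE

open Pool.Agent.V8H73.AN (Ex)

section val

variable {Γ : Type} [LinearOrderedCommGroupWithZero Γ]

/-- two terms of a vanishing sum have the same valuation -/
theorem two_eq {L : Type} [Field L] (v : Valuation L Γ) {ι : Type} [DecidableEq ι] (s : Finset ι) (a : ι → L)
    (h : ∑ i ∈ s, a i = 0) (hne : ∃ i ∈ s, a i ≠ 0) : ∃ i ∈ s, ∃ j ∈ s, i ≠ j ∧ v (a i) = v (a j) ∧ v (a i) ≠ 0 := by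
  obtain ⟨i0, hi0, hi0'⟩ := hne
  obtain ⟨i, hi, hmax⟩ := Finset.exists_max_image s (fun i => v (a i)) ⟨i0, hi0⟩
  have hvi : v (a i) ≠ 0 := by
    intro h1
    have h2 := hmax i0 hi0
    rw [h1] at h2
    exact hi0' (v.zero_iff.1 (le_antisymm h2 zero_le))
  by_contra hcon
  push Not at hcon
  have h1 : v (∑ j ∈ s.erase i, a j) < v (a i) := by
    refine v.map_sum_lt hvi fun j hj => ?_
    rw [Finset.mem_erase] at hj
    refine lt_of_le_of_ne (hmax j hj.2) fun h2 => hvi (hcon i hi j hj.2 (Ne.symm hj.1) h2.symm)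
  rw [← Finset.add_sum_erase s a hi] at h
  have h2 : a i = - ∑ j ∈ s.erase i, a j := eq_neg_of_add_eq_zero_left h
  have h3 : v (a i) = v (∑ j ∈ s.erase i, a j) := by
    conv_lhs => rw [h2]
    exact v.map_neg _
  exact absurd h1 (by rw [← h3]; exact lt_irrefl _)

/-- powers -/
theorem pow_inj {a : Γ} (ha : 1 < a) {m k : ℕ} (h : a ^ m = a ^ k) : m = k :=
  (pow_right_strictMono₀ ha).injective h

theorem root_one {a : Γ} {r : ℕ} (hr : r ≠ 0) (h : a ^ r = 1) : a = 1 := by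
  rcases lt_trichotomy a 1 with h1 | h1 | h1
  · exact absurd h (pow_lt_one₀ zero_le h1 hr).ne
  · exact h1
  · exact absurd h (one_lt_pow₀ h1 hr).ne'

/-- dependent elements have commensurable valuations -/
theorem commens {L : Type} [Field L] (v : Valuation L Γ) {E : Subfield L} (hE : ∀ x ∈ E, x ≠ 0 → v x = 1)
    {T y : L} (hT : 1 < v T) (hy : y ≠ 0) (h : ¬ AlgebraicIndependent E ![T, y]) :
    ∃ r : ℕ, r ≠ 0 ∧ ∃ k : ℤ, v y ^ r = v T ^ k := by
  classical
  rw [algebraicIndependent_iff] at h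
  push Not at h
  obtain ⟨P, hP, hP0⟩ := h
  have hT0 : T ≠ 0 := fun h1 => by
    rw [h1, map_zero] at hT
    exact absurd hT (not_lt.2 zero_le)
  have hval : ∀ m ∈ P.support, v (((P.coeff m : E) : L) * (T ^ m 0 * y ^ m 1)) = v T ^ m 0 * v y ^ m 1 := by
    intro m hm
    have h1 : ((P.coeff m : E) : L) ≠ 0 := fun h2 => MvPolynomial.mem_support_iff.1 hm (Subtype.ext h2)
    rw [map_mul, hE _ (P.coeff m).2 h1, one_mul, map_mul, map_pow, map_pow]
  have hsum : ∑ m ∈ P.support, ((P.coeff m : E) : L) * (T ^ m 0 * y ^ m 1) = 0 := by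
    rw [← hP, MvPolynomial.aeval_def, MvPolynomial.eval₂_eq']
    refine Finset.sum_congr rfl fun m _ => ?_
    rw [Fin.prod_univ_two]
    rfl
  obtain ⟨m0, hm0⟩ : P.support.Nonempty := by rwa [Finset.nonempty_iff_ne_empty, Ne, MvPolynomial.support_eq_empty]
  obtain ⟨m, hm, m', hm', hne, heq, -⟩ := two_eq v P.support (fun m => ((P.coeff m : E) : L) * (T ^ m 0 * y ^ m 1)) hsum
    ⟨m0, hm0, by
      have h1 : ((P.coeff m0 : E) : L) ≠ 0 := fun h2 => MvPolynomial.mem_support_iff.1 hm0 (Subtype.ext h2)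
      exact mul_ne_zero h1 (mul_ne_zero (pow_ne_zero _ hT0) (pow_ne_zero _ hy))⟩
  rw [hval m hm, hval m' hm'] at heq
  have hvT : v T ≠ 0 := v.ne_zero_iff.2 hT0
  have hvy : v y ≠ 0 := v.ne_zero_iff.2 hy
  -- in general
  have key : ∀ a b a' b' : ℕ, b < b' → v T ^ a * v y ^ b = v T ^ a' * v y ^ b' →
      ∃ r : ℕ, r ≠ 0 ∧ ∃ k : ℤ, v y ^ r = v T ^ k := by
    intro a b a' b' hb h1
    refine ⟨b' - b, by omega, (a : ℤ) - a', ?_⟩
    have h2 : v y ^ b' = v y ^ b * v y ^ (b' - b) := by rw [← pow_add]; congr 1; omega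
    rw [h2] at h1
    have h3 : v T ^ a = v T ^ a' * v y ^ (b' - b) := by
      have h4 : v y ^ b * v T ^ a = v y ^ b * (v T ^ a' * v y ^ (b' - b)) := by
        rw [mul_comm (v y ^ b), h1, mul_left_comm]
      exact mul_left_cancel₀ (pow_ne_zero _ hvy) h4
    rw [zpow_sub₀ hvT, zpow_natCast, zpow_natCast, h3, mul_comm, mul_div_assoc, div_self (pow_ne_zero _ hvT), mul_one]
  rcases lt_trichotomy (m 1) (m' 1) with h1 | h1 | h1
  · exact key _ _ _ _ h1 heq
  · exfalso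
    rw [h1] at heq
    have h2 := mul_right_cancel₀ (pow_ne_zero _ hvy) heq
    apply hne
    ext i
    fin_cases i
    · exact pow_inj hT h2
    · exact h1
  · exact key _ _ _ _ h1 heq.symm

/-- a common denominator -/
theorem common {L : Type} [Field L] (v : Valuation L Γ) {T : L} {n : ℕ} {y : Fin n → L}
    (h : ∀ l, ∃ r : ℕ, r ≠ 0 ∧ ∃ k : ℤ, v (y l) ^ r = v T ^ k) :
    ∃ r : ℕ, r ≠ 0 ∧ ∃ k : Fin n → ℤ, ∀ l, v (y l) ^ r = v T ^ (k l) := by
  classical
  choose r hr k hk using h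
  refine ⟨∏ l, r l, Finset.prod_ne_zero_iff.2 fun l _ => hr l, fun l => k l * ((∏ i ∈ Finset.univ.erase l, r i : ℕ) : ℤ),
    fun l => ?_⟩
  rw [← Finset.mul_prod_erase Finset.univ r (Finset.mem_univ l), pow_mul, hk, zpow_mul, zpow_natCast]

end val

/-- a valuation ring which contains the constants and the inverse of a transcendental number as a nonunit -/
theorem exists_ring {E : Subfield ℂ} {T : ℂ} (hT : Transcendental E T) :
    ∃ B : ValuationSubring ℂ, (∀ x ∈ E, x ∈ B) ∧ 1 < B.valuation T := by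
  have hT0 : T ≠ 0 := fun h => hT (by rw [h]; exact isAlgebraic_zero)
  let A0 := Algebra.adjoin E {T⁻¹}
  let A : Subring ℂ := A0.toSubring
  have hmem : T⁻¹ ∈ A := Algebra.subset_adjoin rfl
  let I : Ideal A := Ideal.span {⟨T⁻¹, hmem⟩}
  have hI : I ≠ ⊤ := by
    intro hI
    have h1 : (1 : A) ∈ I := hI ▸ Submodule.mem_top
    obtain ⟨a, ha⟩ := Ideal.mem_span_singleton'.1 h1
    have h2 : (a : ℂ) * T⁻¹ = 1 := congrArg Subtype.val ha
    have h3 : (a : ℂ) ∈ Algebra.adjoin E {T⁻¹} := a.2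
    rw [Algebra.adjoin_singleton_eq_range_aeval] at h3
    obtain ⟨p, hp⟩ := h3
    have hp' : Polynomial.aeval T⁻¹ p = (a : ℂ) := hp
    have hTi : Transcendental E T⁻¹ := fun h4 => hT (by
      have h5 := h4.inv
      rwa [inv_inv] at h5)
    have h4 : Polynomial.aeval T⁻¹ (p * Polynomial.X - 1) = 0 := by
      rw [map_sub, map_mul, Polynomial.aeval_X, hp', map_one, h2, sub_self]
    have h5 : p * Polynomial.X - 1 = 0 := by
      by_contra h6
      exact hTi ⟨_, h6, h4⟩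
    have h6 := congrArg (Polynomial.eval 0) h5
    simp at h6
  obtain ⟨B, hB1, hB2⟩ := Ideal.image_subset_nonunits_valuationSubring I hI
  refine ⟨B, fun x hx => hB1 (A0.algebraMap_mem ⟨x, hx⟩), ?_⟩
  have h1 : T⁻¹ ∈ B.nonunits := hB2 ⟨⟨T⁻¹, hmem⟩, Ideal.subset_span rfl, rfl⟩
  rw [ValuationSubring.mem_nonunits_iff, map_inv₀] at h1
  have h2 : B.valuation T ≠ 0 := B.valuation.ne_zero_iff.2 hT0
  by_contra h3
  rw [not_lt] at h3
  have h4 : 1 ≤ (B.valuation T)⁻¹ := by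
    rw [one_le_inv₀ (zero_lt_iff.2 h2)]
    exact h3
  exact absurd h1 (not_lt.2 h4)

end Pool.Agent.V8H73.SE
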