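import Pool.Agent.V8H73.SE.Red
import Pool.Agent.V8H73.SE.Infty

/-!
# Generic systems have infinitely many solutions
-/

set_option autoImplicit false
set_option linter.unusedSectionVars false

open MvPolynomial

namespace Pool.Agent.V8H73.SE

open Pool.Agent.V8H73.AN (Ex Four)

variable {n : ℕ} {S : Finset (Fin n × Ex n)}

/-- the leading part is a nonunit -/
theorem lead_lt (B : ValuationSubring ℂ) {c : S → ℂ} (hcB : ∀ q, B.valuation (c q) ≤ 1)
    (htp : B.valuation tp = 1) {ϖ : ℂ} (hϖ0 : ϖ ≠ 0) (hϖ : 1 < B.valuation ϖ) {r : ℕ} {k : Fin n → ℤ}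
    {u : Fin n → ℂ} (hu : ∀ l, B.valuation (u l) = 1)
    (h0 : ∀ j, Lp 0 0 c (tp * ϖ ^ r) (fun l => u l * ϖ ^ (k l)) j = 0) {h : Fin n → ℤ}
    (hh : ∀ q ∈ S, wt (Sum.elim (fun _ => (r : ℤ)) k) q.2 ≤ h q.1) (j : Fin n) :
    B.valuation (Lp (Sum.elim (fun _ => (r : ℤ)) k) h c tp u j) < 1 := by
  set κ : Fin n ⊕ Fin n → ℤ := Sum.elim (fun _ => (r : ℤ)) k with hκ
  have hterm : ∀ e : Ex n, mon (tp * ϖ ^ r) (fun l => u l * ϖ ^ (k l)) e = mon tp u e * ϖ ^ (wt κ e) := by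
    intro e
    unfold mon wt
    rw [mul_pow, zpow_add₀ hϖ0]
    have e1 : ∏ l, (u l * ϖ ^ (k l)) ^ e (Sum.inr l) =
        (∏ l, u l ^ e (Sum.inr l)) * ϖ ^ (∑ l, κ (Sum.inr l) * (e (Sum.inr l) : ℤ)) := by
      rw [← prod_zpow' hϖ0, ← Finset.prod_mul_distrib]
      refine Finset.prod_congr rfl fun l _ => ?_
      rw [mul_pow, zpow_mul, zpow_natCast]
      rfl
    have e2 : (ϖ ^ r) ^ (∑ l, e (Sum.inl l)) = ϖ ^ (∑ l, κ (Sum.inl l) * (e (Sum.inl l) : ℤ)) := by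
      rw [← pow_mul, ← zpow_natCast]
      congr 1
      push_cast
      rw [Finset.mul_sum]
      rfl
    rw [e1, e2]
    ring
  have hw0 : ∀ e : Ex n, wt 0 e = 0 := fun e => by simp [wt]
  have hsum : ∑ q : S, (if q.1.1 = j then c q * mon tp u q.1.2 * ϖ ^ (wt κ q.1.2 - h j) else 0) = 0 := by
    have h1 := h0 j
    unfold Lp at h1
    have h2 : ∀ q : S, (if q.1.1 = j ∧ wt 0 q.1.2 = (0 : Fin n → ℤ) j then
        c q * mon (tp * ϖ ^ r) (fun l => u l * ϖ ^ (k l)) q.1.2 else 0) =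
        ϖ ^ (h j) * (if q.1.1 = j then c q * mon tp u q.1.2 * ϖ ^ (wt κ q.1.2 - h j) else 0) := by
      intro q
      by_cases hq : q.1.1 = j
      · rw [if_pos ⟨hq, hw0 _⟩, if_pos hq, hterm, zpow_sub₀ hϖ0]
        have := zpow_ne_zero (h j) hϖ0
        field_simp
      · rw [if_neg fun h3 => hq h3.1, if_neg hq, mul_zero]
    rw [Finset.sum_congr rfl fun q _ => h2 q, ← Finset.mul_sum] at h1
    exact (mul_eq_zero.1 h1).resolve_left (zpow_ne_zero _ hϖ0)
  have heq : Lp κ h c tp u j = ∑ q : S, (if q.1.1 = j ∧ wt κ q.1.2 ≠ h j then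
      - (c q * mon tp u q.1.2 * ϖ ^ (wt κ q.1.2 - h j)) else 0) := by
    have h1 : Lp κ h c tp u j = Lp κ h c tp u j -
        ∑ q : S, (if q.1.1 = j then c q * mon tp u q.1.2 * ϖ ^ (wt κ q.1.2 - h j) else 0) := by
      rw [hsum, sub_zero]
    rw [h1]
    unfold Lp
    rw [← Finset.sum_sub_distrib]
    refine Finset.sum_congr rfl fun q _ => ?_
    by_cases hq : q.1.1 = j
    · by_cases hw : wt κ q.1.2 = h j
      · rw [if_pos ⟨hq, hw⟩, if_pos hq, if_neg fun h3 => h3.2 hw, hw, sub_self, zpow_zero, mul_one, sub_self]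
      · rw [if_neg fun h3 => hw h3.2, if_pos hq, if_pos ⟨hq, hw⟩, zero_sub]
    · rw [if_neg fun h3 => hq h3.1, if_neg hq, if_neg fun h3 => hq h3.1, sub_zero]
  have hmon : ∀ e : Ex n, B.valuation (mon tp u e) = 1 := by
    intro e
    unfold mon
    rw [map_mul, map_pow, htp, one_pow, one_mul, map_prod]
    refine Finset.prod_eq_one fun l _ => ?_
    rw [map_pow, hu, one_pow]
  rw [heq]
  refine B.valuation.map_sum_lt one_ne_zero fun q _ => ?_
  split_ifs with h1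
  · obtain ⟨hq, hw⟩ := h1
    rw [Valuation.map_neg, map_mul, map_mul, hmon, mul_one, map_zpow₀]
    have h2 : wt κ q.1.2 - h j < 0 := by
      have h3 := hh q.1 q.2
      rw [hq] at h3
      omega
    have h3 : B.valuation ϖ ^ (wt κ q.1.2 - h j) < 1 := by
      obtain ⟨m, hm⟩ : ∃ m : ℕ, wt κ q.1.2 - h j = - ((m + 1 : ℕ) : ℤ) := ⟨(h j - wt κ q.1.2 - 1).toNat, by omega⟩
      rw [hm, zpow_neg, zpow_natCast]
      exact inv_lt_one_of_one_lt₀ (one_lt_pow₀ hϖ (Nat.succ_ne_zero m))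
    calc B.valuation (c q) * B.valuation ϖ ^ (wt κ q.1.2 - h j) ≤ 1 * B.valuation ϖ ^ (wt κ q.1.2 - h j) :=
          mul_le_mul_left (hcB q) _
      _ < 1 := by rw [one_mul]; exact h3
  · rw [map_zero]
    exact zero_lt_one

/-- **Leading parts with nondegenerate torus zeros.** -/
theorem weights (hS : Four S) {T : ℂ} (hT : Transcendental (Subfield.closure {tp}) T)
    [Countable (Subfield.closure (insert T {tp}))] {c : S → ℂ}
    (hc : AlgebraicIndependent (Subfield.closure (insert T {tp})) c) :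
    ∃ (κ : Fin n ⊕ Fin n → ℤ) (h : Fin n → ℤ) (y : Fin n → ℂ), (∀ l, 1 ≤ κ (Sum.inl l)) ∧
      (∀ q ∈ S, wt κ q.2 ≤ h q.1) ∧ (∀ j, Lp κ h c tp y j = 0) ∧ (∀ l, y l ≠ 0) ∧ (Dp κ h c tp y).det ≠ 0 := by
  classical
  set K1 := Subfield.closure ({tp} : Set ℂ) with hK1
  set K2 := Subfield.closure (insert T ({tp} : Set ℂ)) with hK2
  have hT0 : T ≠ 0 := fun h => hT (by rw [h]; exact isAlgebraic_zero)
  have htT : tp * T ≠ 0 := mul_ne_zero tp_ne hT0
  have htpK1 : tp ∈ K1 := Subfield.subset_closure rfl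
  have htpK2 : tp ∈ K2 := Subfield.subset_closure (Set.mem_insert_of_mem _ rfl)
  have hTK2 : T ∈ K2 := Subfield.subset_closure (Set.mem_insert _ _)
  -- a zero over a larger field
  obtain ⟨c', hc', y', h1, h2, h3⟩ := (dom_zero hS).gen hS htT K2
  obtain ⟨y, hy1, hy2, hy3⟩ := transfer 0 0 (⟨tp * T, K2.mul_mem htpK2 hTK2⟩ : K2) hc' hc h1 h2 h3
  change ∀ j, Lp 0 0 c (tp * T) y j = 0 at hy1
  change (Dp 0 0 c (tp * T) y).det ≠ 0 at hy3
  -- the valuation
  set E := Subfield.closure ({tp} ∪ Set.range c) with hE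
  have hTE : Transcendental E T := trans_T hT hc
  obtain ⟨B, hB1, hB2⟩ := exists_ring hTE
  have hE1 : ∀ x ∈ E, x ≠ 0 → B.valuation x = 1 := by
    intro x hx hx0
    have e1 : B.valuation x ≤ 1 := (B.valuation_le_one_iff x).2 (hB1 x hx)
    have e2 : B.valuation x⁻¹ ≤ 1 := (B.valuation_le_one_iff _).2 (hB1 _ (E.inv_mem hx))
    rw [map_inv₀, inv_le_one₀ (zero_lt_iff.2 (B.valuation.ne_zero_iff.2 hx0))] at e2
    exact le_antisymm e1 e2
  have hcE : ∀ q, c q ∈ E := fun q => Subfield.subset_closure (Or.inr ⟨q, rfl⟩)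
  have htpE : tp ∈ E := Subfield.subset_closure (Or.inl rfl)
  have hdep : ∀ l, ¬ AlgebraicIndependent E ![T, y l] := by
    intro l hI
    obtain ⟨D, hD⟩ := Pool.Agent.H135R2.VS.exists_der hI ![0, 1]
    have hDT : D T = 0 := hD 0
    have hDy : D (y l) = 1 := hD 1
    have hDE : ∀ x ∈ E, D x = 0 := fun x hx => Derivation.map_algebraMap D (⟨x, hx⟩ : E)
    have hDtT : D (tp * T) = 0 := by
      rw [Derivation.leibniz, hDT, hDE _ htpE, smul_zero, smul_zero, add_zero]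
    have e1 : (Dp 0 0 c (tp * T) y).mulVec (fun l => D (y l) / y l) = 0 := by
      funext j
      have e2 := der_Lp (κ := 0) (h := 0) D hDtT hy2 c j
      rw [hy1 j, map_zero, Finset.sum_eq_zero (fun q _ => by
        split_ifs
        · rw [hDE _ (hcE q), zero_mul]
        · rfl), zero_add] at e2
      exact e2.symm
    have e3 := congrFun (Matrix.eq_zero_of_mulVec_eq_zero hy3 e1) l
    change D (y l) / y l = 0 at e3
    rw [hDy] at e3
    exact div_ne_zero one_ne_zero (hy2 l) e3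
  obtain ⟨r, hr, k, hk⟩ := common B.valuation (T := T) (y := y) fun l => commens B.valuation hE1 hB2 (hy2 l) (hdep l)
  obtain ⟨ϖ, hϖ⟩ := IsAlgClosed.exists_pow_nat_eq T (Nat.pos_of_ne_zero hr)
  have hϖ0 : ϖ ≠ 0 := fun h0 => hT0 (by rw [← hϖ, h0, zero_pow hr])
  have hvϖ : B.valuation ϖ ^ r = B.valuation T := by rw [← map_pow, hϖ]
  have hϖ1 : 1 < B.valuation ϖ := by
    by_contra hcon
    rw [not_lt] at hcon
    have e1 : B.valuation ϖ ^ r ≤ 1 := pow_le_one₀ zero_le hcon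
    rw [hvϖ] at e1
    exact absurd hB2 (not_lt.2 e1)
  let u : Fin n → ℂ := fun l => y l * ϖ ^ (- k l)
  have hu : ∀ l, B.valuation (u l) = 1 := by
    intro l
    refine root_one hr ?_
    have e1 : B.valuation T ≠ 0 := B.valuation.ne_zero_iff.2 hT0
    change B.valuation (y l * ϖ ^ (- k l)) ^ r = 1
    rw [map_mul, mul_pow, hk, map_zpow₀, ← zpow_natCast, ← zpow_mul, mul_comm (- k l), zpow_mul, zpow_natCast, hvϖ,
      ← zpow_add₀ e1, add_neg_cancel, zpow_zero]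
  have hu0 : ∀ l, u l ≠ 0 := fun l => mul_ne_zero (hy2 l) (zpow_ne_zero _ hϖ0)
  set κ : Fin n ⊕ Fin n → ℤ := Sum.elim (fun _ => (r : ℤ)) k with hκ
  -- the heights
  have hmax : ∀ j, ∃ q : S, q.1.1 = j ∧ ∀ q' ∈ S, q'.1 = j → wt κ q'.2 ≤ wt κ q.1.2 := by
    intro j
    obtain ⟨q, hq, hq'⟩ := Finset.exists_max_image (S.filter fun q => q.1 = j) (fun q => wt κ q.2)
      ⟨(j, 0), Finset.mem_filter.2 ⟨hS.h0 j, rfl⟩⟩
    rw [Finset.mem_filter] at hq
    exact ⟨⟨q, hq.1⟩, hq.2, fun q' h1 h2 => hq' q' (Finset.mem_filter.2 ⟨h1, h2⟩)⟩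
  choose q0 hq0 hq1 using hmax
  let h : Fin n → ℤ := fun j => wt κ (q0 j).1.2
  have hh : ∀ q ∈ S, wt κ q.2 ≤ h q.1 := fun q hq => hq1 q.1 q hq rfl
  have hlt := lead_lt (S := S) B (c := c) (fun q => (B.valuation_le_one_iff _).2 (hB1 _ (hcE q))) (hE1 _ htpE tp_ne)
    hϖ0 hϖ1 (r := r) (k := k) hu (by
      intro j
      rw [hϖ]
      have e1 : (fun l => u l * ϖ ^ (k l)) = y := by
        funext l
        change y l * ϖ ^ (- k l) * ϖ ^ (k l) = y l
        rw [mul_assoc, ← zpow_add₀ hϖ0, neg_add_cancel, zpow_zero, mul_one]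
      rw [e1]
      exact hy1 j) hh
  -- the residue field
  have hc1 : AlgebraicIndependent K1 c := ind_mono (Subfield.closure_mono (Set.subset_insert _ _)) hc
  have hval : ∀ P : MvPolynomial S K1, (aeval c P : ℂ) ∈ E := by
    intro P
    induction P using MvPolynomial.induction_on with
    | C a =>
      rw [aeval_C]
      exact Subfield.closure_mono Set.subset_union_left a.2
    | add p q hp hq => rw [map_add]; exact E.add_mem hp hq
    | mul_X p q hp => rw [map_mul, aeval_X]; exact E.mul_mem hp (hcE q)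
  let θ0 : MvPolynomial S K1 →+* B := (aeval c : MvPolynomial S K1 →ₐ[K1] ℂ).toRingHom.codRestrict B fun P =>
    hB1 _ (hval P)
  let res : B →+* IsLocalRing.ResidueField B := IsLocalRing.residue B
  have hres : ∀ b : B, res b = 0 ↔ B.valuation (b : ℂ) < 1 := fun b => by
    rw [← B.valuation_lt_one_iff]
    exact IsLocalRing.residue_eq_zero_iff b
  have hθ : Function.Injective (res.comp θ0) := by
    rw [injective_iff_map_eq_zero]
    intro P hP
    by_contra hP0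
    have e1 := (hres (θ0 P)).1 hP
    have e2 : (aeval c P : ℂ) ≠ 0 := fun e3 => hP0 (hc1 (by rw [map_zero]; exact e3))
    have e3 : B.valuation ((θ0 P : B) : ℂ) = 1 := hE1 _ (hval P) e2
    rw [e3] at e1
    exact lt_irrefl _ e1
  let uB : Fin n → B := fun l => ⟨u l, (B.valuation_le_one_iff _).1 (hu l).le⟩
  obtain ⟨w, hw1, hw2⟩ := nst κ h (⟨tp, htpK1⟩ : K1) (res.comp θ0) hθ hc1 (y' := fun l => res (uB l)) (by
    intro j
    have e1 := Lp_map (S := S) res κ h (fun q => θ0 (X q)) (θ0 (C (⟨tp, htpK1⟩ : K1))) uB j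
    refine e1.symm.trans ?_
    rw [hres]
    have e2 := Lp_map (S := S) B.subtype κ h (fun q => θ0 (X q)) (θ0 (C (⟨tp, htpK1⟩ : K1))) uB j
    have e3 : (fun q : S => B.subtype (θ0 (X q))) = c := funext fun q => aeval_X c q
    have e4 : B.subtype (θ0 (C (⟨tp, htpK1⟩ : K1))) = tp := aeval_C c (⟨tp, htpK1⟩ : K1)
    rw [e3, e4] at e2
    have e5 : ((Lp κ h (fun q => θ0 (X q)) (θ0 (C (⟨tp, htpK1⟩ : K1))) uB j : B) : ℂ) = Lp κ h c tp u j := e2
    rw [e5]
    exact hlt j) (by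
    intro l e1
    have e2 := (hres (uB l)).1 e1
    have e3 : B.valuation ((uB l : B) : ℂ) = 1 := hu l
    rw [e3] at e2
    exact lt_irrefl _ e2)
  refine ⟨κ, h, w, fun l => ?_, hh, hw1, hw2, ?_⟩
  · change (1 : ℤ) ≤ (r : ℤ)
    omega
  · exact nondeg q0 (fun j => ⟨hq0 j, rfl⟩) ⟨(⟨tp, htpK1⟩ : K1), rfl⟩ tp_ne hc1 hw2 hw1

end Pool.Agent.V8H73.SE
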